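import Pool.Agent.Helper14.QP.PhiK

/-! The totient computation for `n = 267497`. -/

namespace Pool.Agent.Helper14.QP

/-- The primes `p < 521` and the largest `J` with `p ^ J ≤ 267496`. -/
def PJ : List (ℕ × ℕ) :=
  [(2, 18), (3, 11), (5, 7), (7, 6), (11, 5), (13, 4), (17, 4), (19, 4), (23, 3), (29, 3), (31, 3), (37, 3),
  (41, 3), (43, 3), (47, 3), (53, 3), (59, 3), (61, 3), (67, 2), (71, 2), (73, 2), (79, 2), (83, 2), (89, 2),
  (97, 2), (101, 2), (103, 2), (107, 2), (109, 2), (113, 2), (127, 2), (131, 2), (137, 2), (139, 2), (149, 2),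
  (151, 2), (157, 2), (163, 2), (167, 2), (173, 2), (179, 2), (181, 2), (191, 2), (193, 2), (197, 2), (199, 2),
  (211, 2), (223, 2), (227, 2), (229, 2), (233, 2), (239, 2), (241, 2), (251, 2), (257, 2), (263, 2), (269, 2),
  (271, 2), (277, 2), (281, 2), (283, 2), (293, 2), (307, 2), (311, 2), (313, 2), (317, 2), (331, 2), (337, 2),
  (347, 2), (349, 2), (353, 2), (359, 2), (367, 2), (373, 2), (379, 2), (383, 2), (389, 2), (397, 2), (401, 2),
  (409, 2), (419, 2), (421, 2), (431, 2), (433, 2), (439, 2), (443, 2), (449, 2), (457, 2), (461, 2), (463, 2),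
  (467, 2), (479, 2), (487, 2), (491, 2), (499, 2), (503, 2), (509, 2)]

/-- The twin middles `m ≤ 267497` with `q(m) + 1` not shown composite. -/
def gList : List ℕ :=
  [4, 6, 18, 42, 72, 102, 270, 282, 312, 618, 1032, 1062, 1320, 1950, 2082, 3528, 7350, 7488, 10332, 15138,
  17388, 21600, 40038, 44700, 134922, 156258, 187908, 243708]

theorem phi_run : phiCheck 267496 PJ gList = true := by decide +kernel

theorem prime_of {p : ℕ} (h : p < 529) (h2 : 2 ≤ p) (h3 : ∀ d < 23, 2 ≤ d → d < p → ¬ d ∣ p) : p.Prime := by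
  by_contra hnp
  have h4 := Nat.minFac_sq_le_self (by omega) hnp
  have h5 := (Nat.minFac_prime (show p ≠ 1 by omega)).two_le
  have h6 : p.minFac < 23 := by nlinarith
  exact h3 _ h6 h5 (by nlinarith) (Nat.minFac_dvd p)

/-- Trial division by `d < 23`. -/
def tri (q : ℕ) : Bool :=
  (List.range 23).all fun d => !(Nat.ble 2 d && Nat.blt d q && Nat.beq (q % d) 0)

theorem tri_iff (q : ℕ) : tri q = true ↔ ∀ d < 23, 2 ≤ d → d < q → ¬ d ∣ q := by
  rw [tri, List.all_eq_true]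
  simp only [List.mem_range, Bool.not_eq_true', Bool.and_eq_false_iff]
  refine forall₂_congr fun d _ => ⟨fun h h1 h2 h3 => ?_, fun h => ?_⟩
  · rcases h with (h | h) | h
    · rw [Nat.ble_eq_true_of_le h1] at h; exact absurd h (by decide)
    · rw [show Nat.blt d q = true from Nat.ble_eq_true_of_le h2] at h; exact absurd h (by decide)
    · rw [Nat.mod_eq_zero_of_dvd h3] at h; exact absurd h (by decide)
  · by_contra hcon
    push Not at hcon
    obtain ⟨⟨h1, h2⟩, h3⟩ := hcon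
    rw [ne_eq, Bool.not_eq_false] at h1 h2 h3
    exact h (Nat.le_of_ble_eq_true h1) (Nat.le_of_ble_eq_true h2) (Nat.dvd_of_mod_eq_zero (Nat.eq_of_beq_eq_true h3))

theorem PJ_ok0 : (∀ p ∈ PJ, p.1 < 529 ∧ 2 ≤ p.1 ∧ tri p.1 = true ∧ 267496 < p.1 ^ (p.2 + 1)) ∧
    (PJ.map Prod.fst).Nodup ∧ (∀ q < 521, 2 ≤ q → tri q = true → q ∈ PJ.map Prod.fst) ∧
    ∀ g ∈ gList, 4 * g < 2 ^ 23 := by
  decide +kernel

theorem PJ_ok : (∀ p ∈ PJ, p.1.Prime ∧ 267496 < p.1 ^ (p.2 + 1)) ∧ (PJ.map Prod.fst).Nodup ∧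
    (∀ q < 521, q.Prime → q ∈ PJ.map Prod.fst) ∧ ∀ g ∈ gList, 4 * g < 2 ^ 23 := by
  obtain ⟨h1, h3, h4, h5⟩ := PJ_ok0
  refine ⟨fun p hp => ⟨prime_of (h1 p hp).1 (h1 p hp).2.1 ((tri_iff _).1 (h1 p hp).2.2.1), (h1 p hp).2.2.2⟩, h3,
    fun q hq hqp => ?_, h5⟩
  refine h4 q hq hqp.two_le ((tri_iff _).2 fun d _ hd2 hdq hdvd => ?_)
  rcases (Nat.dvd_prime hqp).1 hdvd with h | h <;> omega

theorem phi_ne : ∀ g ∈ gList, ∀ k < 267496, 4 * Nat.totient (k + 1) + Nat.totient (267496 - k) ≠ 4 * g :=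
  phiCheck_spec (by norm_num) PJ PJ_ok.1 PJ_ok.2.1 521 (fun q h1 h2 => PJ_ok.2.2.1 q h2 h1) (by norm_num) gList
    PJ_ok.2.2.2 phi_run

end Pool.Agent.Helper14.QP
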