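import Pool.Agent.Helper14.QP.Quo
import Pool.Agent.Helper14.QP.PhiRun

/-! Data: exponent trees and the certificates for all twin middles up to `267497`. -/

namespace Pool.Agent.Helper14.QP

/-- Exponents of the even part of the first series. -/
def tEP : T :=
  (.nd 201082 (.nd 49979 (.nd 12246 (.nd 3029 (.nd 779 (.nd 171 (.nd 44 (.nd 7 .lf (.nd 2 .lf .lf)) (.nd 29 .lf
  (.nd 25 .lf .lf))) (.nd 122 (.nd 43 .lf (.nd 8 .lf .lf)) (.nd 67 (.nd 10 .lf .lf) (.nd 12 .lf .lf)))) (.nd 506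
  (.nd 119 (.nd 89 .lf (.nd 75 .lf .lf)) (.nd 103 .lf (.nd 18 .lf .lf))) (.nd 286 (.nd 125 .lf (.nd 105 .lf
  .lf)) (.nd 149 (.nd 115 .lf .lf) (.nd 125 .lf .lf))))) (.nd 1845 (.nd 665 (.nd 330 (.nd 163 .lf (.nd 28 .lf
  .lf)) (.nd 185 .lf (.nd 155 .lf .lf))) (.nd 434 (.nd 199 .lf (.nd 34 .lf .lf)) (.nd 223 (.nd 36 .lf .lf) (.nd
  38 .lf .lf)))) (.nd 1104 (.nd 301 (.nd 245 .lf (.nd 205 .lf .lf)) (.nd 259 .lf (.nd 44 .lf .lf))) (.nd 598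
  (.nd 281 .lf (.nd 235 .lf .lf)) (.nd 305 (.nd 245 .lf .lf) (.nd 255 .lf .lf)))))) (.nd 7189 (.nd 2911 (.nd
  1159 (.nd 616 (.nd 319 .lf (.nd 54 .lf .lf)) (.nd 341 .lf (.nd 285 .lf .lf))) (.nd 746 (.nd 355 .lf (.nd 60
  .lf .lf)) (.nd 379 (.nd 62 .lf .lf) (.nd 64 .lf .lf)))) (.nd 1702 (.nd 483 (.nd 401 .lf (.nd 335 .lf .lf))
  (.nd 415 .lf (.nd 70 .lf .lf))) (.nd 910 (.nd 437 .lf (.nd 365 .lf .lf)) (.nd 461 (.nd 375 .lf .lf) (.nd 385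
  .lf .lf))))) (.nd 4081 (.nd 1653 (.nd 902 (.nd 475 .lf (.nd 80 .lf .lf)) (.nd 497 .lf (.nd 415 .lf .lf))) (.nd
  1058 (.nd 511 .lf (.nd 86 .lf .lf)) (.nd 535 (.nd 88 .lf .lf) (.nd 90 .lf .lf)))) (.nd 1919 (.nd 1150 (.nd 557
  .lf (.nd 465 .lf .lf)) (.nd 581 (.nd 475 .lf .lf) (.nd 485 .lf .lf))) (.nd 1226 (.nd 595 .lf (.nd 100 .lf
  .lf)) (.nd 619 (.nd 102 .lf .lf) (.nd 104 .lf .lf))))))) (.nd 28888 (.nd 11952 (.nd 4588 (.nd 2622 (.nd 763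
  (.nd 641 .lf (.nd 535 .lf .lf)) (.nd 655 .lf (.nd 110 .lf .lf))) (.nd 1390 (.nd 677 .lf (.nd 565 .lf .lf))
  (.nd 701 (.nd 575 .lf .lf) (.nd 585 .lf .lf)))) (.nd 2413 (.nd 1342 (.nd 715 .lf (.nd 120 .lf .lf)) (.nd 737
  .lf (.nd 615 .lf .lf))) (.nd 1538 (.nd 751 .lf (.nd 126 .lf .lf)) (.nd 775 (.nd 128 .lf .lf) (.nd 130 .lf
  .lf))))) (.nd 6335 (.nd 3220 (.nd 945 (.nd 797 .lf (.nd 665 .lf .lf)) (.nd 811 .lf (.nd 136 .lf .lf))) (.nd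
  1702 (.nd 833 .lf (.nd 695 .lf .lf)) (.nd 857 (.nd 705 .lf .lf) (.nd 715 .lf .lf)))) (.nd 3542 (.nd 1778 (.nd
  871 .lf (.nd 146 .lf .lf)) (.nd 895 (.nd 148 .lf .lf) (.nd 150 .lf .lf))) (.nd 1870 (.nd 917 .lf (.nd 765 .lf
  .lf)) (.nd 941 (.nd 775 .lf .lf) (.nd 785 .lf .lf)))))) (.nd 15563 (.nd 7257 (.nd 3173 (.nd 1782 (.nd 955 .lf
  (.nd 160 .lf .lf)) (.nd 977 .lf (.nd 815 .lf .lf))) (.nd 2018 (.nd 991 .lf (.nd 166 .lf .lf)) (.nd 1015 (.nd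
  168 .lf .lf) (.nd 170 .lf .lf)))) (.nd 4140 (.nd 1225 (.nd 1037 .lf (.nd 865 .lf .lf)) (.nd 1051 .lf (.nd 176
  .lf .lf))) (.nd 2182 (.nd 1073 .lf (.nd 895 .lf .lf)) (.nd 1097 (.nd 905 .lf .lf) (.nd 915 .lf .lf))))) (.nd
  8533 (.nd 3667 (.nd 2068 (.nd 1111 .lf (.nd 186 .lf .lf)) (.nd 1133 .lf (.nd 945 .lf .lf))) (.nd 2330 (.nd
  1147 .lf (.nd 192 .lf .lf)) (.nd 1171 (.nd 194 .lf .lf) (.nd 196 .lf .lf)))) (.nd 3933 (.nd 2422 (.nd 1193 .lf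
  (.nd 995 .lf .lf)) (.nd 1217 (.nd 1005 .lf .lf) (.nd 1015 .lf .lf))) (.nd 2498 (.nd 1231 .lf (.nd 206 .lf
  .lf)) (.nd 1255 (.nd 208 .lf .lf) (.nd 210 .lf .lf)))))))) (.nd 117395 (.nd 45530 (.nd 20750 (.nd 8510 (.nd
  5060 (.nd 1505 (.nd 1277 .lf (.nd 1065 .lf .lf)) (.nd 1291 .lf (.nd 216 .lf .lf))) (.nd 2662 (.nd 1313 .lf
  (.nd 1095 .lf .lf)) (.nd 1337 (.nd 1105 .lf .lf) (.nd 1115 .lf .lf)))) (.nd 4427 (.nd 2508 (.nd 1351 .lf (.nd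
  226 .lf .lf)) (.nd 1373 .lf (.nd 1145 .lf .lf))) (.nd 2810 (.nd 1387 .lf (.nd 232 .lf .lf)) (.nd 1411 (.nd 234
  .lf .lf) (.nd 236 .lf .lf))))) (.nd 10787 (.nd 5658 (.nd 1687 (.nd 1433 .lf (.nd 1195 .lf .lf)) (.nd 1447 .lf
  (.nd 242 .lf .lf))) (.nd 2974 (.nd 1469 .lf (.nd 1225 .lf .lf)) (.nd 1493 (.nd 1235 .lf .lf) (.nd 1245 .lf
  .lf)))) (.nd 5980 (.nd 3050 (.nd 1507 .lf (.nd 252 .lf .lf)) (.nd 1531 (.nd 254 .lf .lf) (.nd 256 .lf .lf)))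
  (.nd 3142 (.nd 1553 .lf (.nd 1295 .lf .lf)) (.nd 1577 (.nd 1305 .lf .lf) (.nd 1315 .lf .lf)))))) (.nd 23937
  (.nd 11603 (.nd 5187 (.nd 2948 (.nd 1591 .lf (.nd 266 .lf .lf)) (.nd 1613 .lf (.nd 1345 .lf .lf))) (.nd 3290
  (.nd 1627 .lf (.nd 272 .lf .lf)) (.nd 1651 (.nd 274 .lf .lf) (.nd 276 .lf .lf)))) (.nd 6578 (.nd 1967 (.nd
  1673 .lf (.nd 1395 .lf .lf)) (.nd 1687 .lf (.nd 282 .lf .lf))) (.nd 3454 (.nd 1709 .lf (.nd 1425 .lf .lf))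
  (.nd 1733 (.nd 1435 .lf .lf) (.nd 1445 .lf .lf))))) (.nd 12985 (.nd 5681 (.nd 3234 (.nd 1747 .lf (.nd 292 .lf
  .lf)) (.nd 1769 .lf (.nd 1475 .lf .lf))) (.nd 3602 (.nd 1783 .lf (.nd 298 .lf .lf)) (.nd 1807 (.nd 300 .lf
  .lf) (.nd 302 .lf .lf)))) (.nd 5947 (.nd 3694 (.nd 1829 .lf (.nd 1525 .lf .lf)) (.nd 1853 (.nd 1535 .lf .lf)
  (.nd 1545 .lf .lf))) (.nd 3770 (.nd 1867 .lf (.nd 312 .lf .lf)) (.nd 1891 (.nd 314 .lf .lf) (.nd 316 .lf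
  .lf))))))) (.nd 62172 (.nd 29548 (.nd 12432 (.nd 7498 (.nd 2247 (.nd 1913 .lf (.nd 1595 .lf .lf)) (.nd 1927
  .lf (.nd 322 .lf .lf))) (.nd 3934 (.nd 1949 .lf (.nd 1625 .lf .lf)) (.nd 1973 (.nd 1635 .lf .lf) (.nd 1645 .lf
  .lf)))) (.nd 6441 (.nd 3674 (.nd 1987 .lf (.nd 332 .lf .lf)) (.nd 2009 .lf (.nd 1675 .lf .lf))) (.nd 4082 (.nd
  2023 .lf (.nd 338 .lf .lf)) (.nd 2047 (.nd 340 .lf .lf) (.nd 342 .lf .lf))))) (.nd 15239 (.nd 8096 (.nd 2429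
  (.nd 2069 .lf (.nd 1725 .lf .lf)) (.nd 2083 .lf (.nd 348 .lf .lf))) (.nd 4246 (.nd 2105 .lf (.nd 1755 .lf
  .lf)) (.nd 2129 (.nd 1765 .lf .lf) (.nd 1775 .lf .lf)))) (.nd 8418 (.nd 4322 (.nd 2143 .lf (.nd 358 .lf .lf))
  (.nd 2167 (.nd 360 .lf .lf) (.nd 362 .lf .lf))) (.nd 4414 (.nd 2189 .lf (.nd 1825 .lf .lf)) (.nd 2213 (.nd
  1835 .lf .lf) (.nd 1845 .lf .lf)))))) (.nd 32311 (.nd 15949 (.nd 7201 (.nd 4114 (.nd 2227 .lf (.nd 372 .lf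
  .lf)) (.nd 2249 .lf (.nd 1875 .lf .lf))) (.nd 4562 (.nd 2263 .lf (.nd 378 .lf .lf)) (.nd 2287 (.nd 380 .lf
  .lf) (.nd 382 .lf .lf)))) (.nd 9016 (.nd 2709 (.nd 2309 .lf (.nd 1925 .lf .lf)) (.nd 2323 .lf (.nd 388 .lf
  .lf))) (.nd 4726 (.nd 2345 .lf (.nd 1955 .lf .lf)) (.nd 2369 (.nd 1965 .lf .lf) (.nd 1975 .lf .lf))))) (.nd
  17437 (.nd 7695 (.nd 4400 (.nd 2383 .lf (.nd 398 .lf .lf)) (.nd 2405 .lf (.nd 2005 .lf .lf))) (.nd 4874 (.nd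
  2419 .lf (.nd 404 .lf .lf)) (.nd 2443 (.nd 406 .lf .lf) (.nd 408 .lf .lf)))) (.nd 7961 (.nd 4966 (.nd 2465 .lf
  (.nd 2055 .lf .lf)) (.nd 2489 (.nd 2065 .lf .lf) (.nd 2075 .lf .lf))) (.nd 5042 (.nd 2503 .lf (.nd 418 .lf
  .lf)) (.nd 2527 (.nd 420 .lf .lf) (.nd 422 .lf .lf)))))))))

/-- Exponents of the odd part of the first series. -/
def tEM : T :=
  (.nd 199396 (.nd 50191 (.nd 12558 (.nd 2977 (.nd 703 (.nd 207 (.nd 28 (.nd 11 .lf (.nd 10 .lf .lf)) (.nd 25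
  .lf (.nd 5 .lf .lf))) (.nd 130 (.nd 47 .lf (.nd 40 .lf .lf)) (.nd 71 (.nd 50 .lf .lf) (.nd 60 .lf .lf)))) (.nd
  418 (.nd 187 (.nd 85 .lf (.nd 15 .lf .lf)) (.nd 107 .lf (.nd 90 .lf .lf))) (.nd 278 (.nd 121 .lf (.nd 21 .lf
  .lf)) (.nd 145 (.nd 23 .lf .lf) (.nd 25 .lf .lf))))) (.nd 1665 (.nd 805 (.nd 210 (.nd 167 .lf (.nd 140 .lf
  .lf)) (.nd 181 .lf (.nd 31 .lf .lf))) (.nd 442 (.nd 203 .lf (.nd 170 .lf .lf)) (.nd 227 (.nd 180 .lf .lf) (.nd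
  190 .lf .lf)))) (.nd 912 (.nd 473 (.nd 241 .lf (.nd 41 .lf .lf)) (.nd 263 .lf (.nd 220 .lf .lf))) (.nd 590
  (.nd 277 .lf (.nd 47 .lf .lf)) (.nd 301 (.nd 49 .lf .lf) (.nd 51 .lf .lf)))))) (.nd 7553 (.nd 2627 (.nd 1403
  (.nd 392 (.nd 323 .lf (.nd 270 .lf .lf)) (.nd 337 .lf (.nd 57 .lf .lf))) (.nd 754 (.nd 359 .lf (.nd 300 .lf
  .lf)) (.nd 383 (.nd 310 .lf .lf) (.nd 320 .lf .lf)))) (.nd 1406 (.nd 759 (.nd 397 .lf (.nd 67 .lf .lf)) (.nd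
  419 .lf (.nd 350 .lf .lf))) (.nd 902 (.nd 433 .lf (.nd 73 .lf .lf)) (.nd 457 (.nd 75 .lf .lf) (.nd 77 .lf
  .lf))))) (.nd 4109 (.nd 2001 (.nd 574 (.nd 479 .lf (.nd 400 .lf .lf)) (.nd 493 .lf (.nd 83 .lf .lf))) (.nd
  1066 (.nd 515 .lf (.nd 430 .lf .lf)) (.nd 539 (.nd 440 .lf .lf) (.nd 450 .lf .lf)))) (.nd 2323 (.nd 1142 (.nd
  553 .lf (.nd 93 .lf .lf)) (.nd 577 (.nd 95 .lf .lf) (.nd 97 .lf .lf))) (.nd 1234 (.nd 599 .lf (.nd 500 .lf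
  .lf)) (.nd 623 (.nd 510 .lf .lf) (.nd 520 .lf .lf))))))) (.nd 29624 (.nd 11376 (.nd 5084 (.nd 2166 (.nd 1199
  (.nd 637 .lf (.nd 107 .lf .lf)) (.nd 659 .lf (.nd 550 .lf .lf))) (.nd 1382 (.nd 673 .lf (.nd 113 .lf .lf))
  (.nd 697 (.nd 115 .lf .lf) (.nd 117 .lf .lf)))) (.nd 2921 (.nd 854 (.nd 719 .lf (.nd 600 .lf .lf)) (.nd 733
  .lf (.nd 123 .lf .lf))) (.nd 1546 (.nd 755 .lf (.nd 630 .lf .lf)) (.nd 779 (.nd 640 .lf .lf) (.nd 650 .lf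
  .lf))))) (.nd 6307 (.nd 2660 (.nd 1485 (.nd 793 .lf (.nd 133 .lf .lf)) (.nd 815 .lf (.nd 680 .lf .lf))) (.nd
  1694 (.nd 829 .lf (.nd 139 .lf .lf)) (.nd 853 (.nd 141 .lf .lf) (.nd 143 .lf .lf)))) (.nd 2926 (.nd 1786 (.nd
  875 .lf (.nd 730 .lf .lf)) (.nd 899 (.nd 740 .lf .lf) (.nd 750 .lf .lf))) (.nd 1862 (.nd 913 .lf (.nd 153 .lf
  .lf)) (.nd 937 (.nd 155 .lf .lf) (.nd 157 .lf .lf)))))) (.nd 16351 (.nd 6549 (.nd 3841 (.nd 1134 (.nd 959 .lf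
  (.nd 800 .lf .lf)) (.nd 973 .lf (.nd 163 .lf .lf))) (.nd 2026 (.nd 995 .lf (.nd 830 .lf .lf)) (.nd 1019 (.nd
  840 .lf .lf) (.nd 850 .lf .lf)))) (.nd 3420 (.nd 1925 (.nd 1033 .lf (.nd 173 .lf .lf)) (.nd 1055 .lf (.nd 880
  .lf .lf))) (.nd 2174 (.nd 1069 .lf (.nd 179 .lf .lf)) (.nd 1093 (.nd 181 .lf .lf) (.nd 183 .lf .lf))))) (.nd
  8561 (.nd 4439 (.nd 1316 (.nd 1115 .lf (.nd 930 .lf .lf)) (.nd 1129 .lf (.nd 189 .lf .lf))) (.nd 2338 (.nd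
  1151 .lf (.nd 960 .lf .lf)) (.nd 1175 (.nd 970 .lf .lf) (.nd 980 .lf .lf)))) (.nd 4761 (.nd 2414 (.nd 1189 .lf
  (.nd 199 .lf .lf)) (.nd 1213 (.nd 201 .lf .lf) (.nd 203 .lf .lf))) (.nd 2506 (.nd 1235 .lf (.nd 1030 .lf .lf))
  (.nd 1259 (.nd 1040 .lf .lf) (.nd 1050 .lf .lf)))))))) (.nd 117077 (.nd 45373 (.nd 19487 (.nd 9430 (.nd 4180
  (.nd 2365 (.nd 1273 .lf (.nd 213 .lf .lf)) (.nd 1295 .lf (.nd 1080 .lf .lf))) (.nd 2654 (.nd 1309 .lf (.nd 219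
  .lf .lf)) (.nd 1333 (.nd 221 .lf .lf) (.nd 223 .lf .lf)))) (.nd 5359 (.nd 1596 (.nd 1355 .lf (.nd 1130 .lf
  .lf)) (.nd 1369 .lf (.nd 229 .lf .lf))) (.nd 2818 (.nd 1391 .lf (.nd 1160 .lf .lf)) (.nd 1415 (.nd 1170 .lf
  .lf) (.nd 1180 .lf .lf))))) (.nd 10496 (.nd 4674 (.nd 2651 (.nd 1429 .lf (.nd 239 .lf .lf)) (.nd 1451 .lf (.nd
  1210 .lf .lf))) (.nd 2966 (.nd 1465 .lf (.nd 245 .lf .lf)) (.nd 1489 (.nd 247 .lf .lf) (.nd 249 .lf .lf))))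
  (.nd 5957 (.nd 1778 (.nd 1511 .lf (.nd 1260 .lf .lf)) (.nd 1525 .lf (.nd 255 .lf .lf))) (.nd 3130 (.nd 1547
  .lf (.nd 1290 .lf .lf)) (.nd 1571 (.nd 1300 .lf .lf) (.nd 1310 .lf .lf)))))) (.nd 23858 (.nd 11562 (.nd 5168
  (.nd 2937 (.nd 1585 .lf (.nd 265 .lf .lf)) (.nd 1607 .lf (.nd 1340 .lf .lf))) (.nd 3278 (.nd 1621 .lf (.nd 271
  .lf .lf)) (.nd 1645 (.nd 273 .lf .lf) (.nd 275 .lf .lf)))) (.nd 6555 (.nd 1960 (.nd 1667 .lf (.nd 1390 .lf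
  .lf)) (.nd 1681 .lf (.nd 281 .lf .lf))) (.nd 3442 (.nd 1703 .lf (.nd 1420 .lf .lf)) (.nd 1727 (.nd 1430 .lf
  .lf) (.nd 1440 .lf .lf))))) (.nd 12943 (.nd 5662 (.nd 3223 (.nd 1741 .lf (.nd 291 .lf .lf)) (.nd 1763 .lf (.nd
  1470 .lf .lf))) (.nd 3590 (.nd 1777 .lf (.nd 297 .lf .lf)) (.nd 1801 (.nd 299 .lf .lf) (.nd 301 .lf .lf))))
  (.nd 5928 (.nd 3682 (.nd 1823 .lf (.nd 1520 .lf .lf)) (.nd 1847 (.nd 1530 .lf .lf) (.nd 1540 .lf .lf))) (.nd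
  3758 (.nd 1861 .lf (.nd 311 .lf .lf)) (.nd 1885 (.nd 313 .lf .lf) (.nd 315 .lf .lf))))))) (.nd 62015 (.nd
  29465 (.nd 12395 (.nd 7475 (.nd 2240 (.nd 1907 .lf (.nd 1590 .lf .lf)) (.nd 1921 .lf (.nd 321 .lf .lf))) (.nd
  3922 (.nd 1943 .lf (.nd 1620 .lf .lf)) (.nd 1967 (.nd 1630 .lf .lf) (.nd 1640 .lf .lf)))) (.nd 6422 (.nd 3663
  (.nd 1981 .lf (.nd 331 .lf .lf)) (.nd 2003 .lf (.nd 1670 .lf .lf))) (.nd 4070 (.nd 2017 .lf (.nd 337 .lf .lf))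
  (.nd 2041 (.nd 339 .lf .lf) (.nd 341 .lf .lf))))) (.nd 15197 (.nd 8073 (.nd 2422 (.nd 2063 .lf (.nd 1720 .lf
  .lf)) (.nd 2077 .lf (.nd 347 .lf .lf))) (.nd 4234 (.nd 2099 .lf (.nd 1750 .lf .lf)) (.nd 2123 (.nd 1760 .lf
  .lf) (.nd 1770 .lf .lf)))) (.nd 8395 (.nd 4310 (.nd 2137 .lf (.nd 357 .lf .lf)) (.nd 2161 (.nd 359 .lf .lf)
  (.nd 361 .lf .lf))) (.nd 4402 (.nd 2183 .lf (.nd 1820 .lf .lf)) (.nd 2207 (.nd 1830 .lf .lf) (.nd 1840 .lf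
  .lf)))))) (.nd 32232 (.nd 15908 (.nd 7182 (.nd 4103 (.nd 2221 .lf (.nd 371 .lf .lf)) (.nd 2243 .lf (.nd 1870
  .lf .lf))) (.nd 4550 (.nd 2257 .lf (.nd 377 .lf .lf)) (.nd 2281 (.nd 379 .lf .lf) (.nd 381 .lf .lf)))) (.nd
  8993 (.nd 2702 (.nd 2303 .lf (.nd 1920 .lf .lf)) (.nd 2317 .lf (.nd 387 .lf .lf))) (.nd 4714 (.nd 2339 .lf
  (.nd 1950 .lf .lf)) (.nd 2363 (.nd 1960 .lf .lf) (.nd 1970 .lf .lf))))) (.nd 17395 (.nd 7676 (.nd 4389 (.nd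
  2377 .lf (.nd 397 .lf .lf)) (.nd 2399 .lf (.nd 2000 .lf .lf))) (.nd 4862 (.nd 2413 .lf (.nd 403 .lf .lf)) (.nd
  2437 (.nd 405 .lf .lf) (.nd 407 .lf .lf)))) (.nd 7942 (.nd 4954 (.nd 2459 .lf (.nd 2050 .lf .lf)) (.nd 2483
  (.nd 2060 .lf .lf) (.nd 2070 .lf .lf))) (.nd 5030 (.nd 2497 .lf (.nd 417 .lf .lf)) (.nd 2521 (.nd 419 .lf .lf)
  (.nd 421 .lf .lf)))))))))

/-- Exponents of the even part of the second series. -/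
def tFP : T :=
  (.nd 200850 (.nd 49506 (.nd 12430 (.nd 2970 (.nd 754 (.nd 156 (.nd 34 (.nd 10 .lf .lf) (.nd 30 .lf .lf)) (.nd
  98 (.nd 50 .lf .lf) (.nd 86 .lf (.nd 16 .lf .lf)))) (.nd 510 (.nd 134 (.nd 20 .lf .lf) (.nd 24 .lf .lf)) (.nd
  352 (.nd 28 .lf .lf) (.nd 202 .lf (.nd 170 .lf .lf))))) (.nd 1870 (.nd 624 (.nd 250 (.nd 190 .lf .lf) (.nd 210
  .lf .lf)) (.nd 350 (.nd 230 .lf .lf) (.nd 302 .lf (.nd 52 .lf .lf)))) (.nd 884 (.nd 660 (.nd 56 .lf .lf) (.nd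
  370 .lf (.nd 310 .lf .lf))) (.nd 490 (.nd 330 .lf .lf) (.nd 422 .lf (.nd 72 .lf .lf)))))) (.nd 7552 (.nd 2500
  (.nd 1462 (.nd 470 (.nd 76 .lf .lf) (.nd 80 .lf .lf)) (.nd 968 (.nd 84 .lf .lf) (.nd 538 .lf (.nd 450 .lf
  .lf)))) (.nd 1352 (.nd 586 (.nd 470 .lf .lf) (.nd 490 .lf .lf)) (.nd 742 (.nd 510 .lf .lf) (.nd 638 .lf (.nd
  108 .lf .lf))))) (.nd 4130 (.nd 2074 (.nd 686 (.nd 112 .lf .lf) (.nd 116 .lf .lf)) (.nd 1364 (.nd 120 .lf .lf)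
  (.nd 754 .lf (.nd 630 .lf .lf)))) (.nd 2414 (.nd 938 (.nd 650 .lf .lf) (.nd 806 .lf (.nd 136 .lf .lf))) (.nd
  1584 (.nd 140 .lf .lf) (.nd 874 .lf (.nd 730 .lf .lf))))))) (.nd 29450 (.nd 11110 (.nd 5046 (.nd 2080 (.nd 922
  (.nd 750 .lf .lf) (.nd 770 .lf .lf)) (.nd 1134 (.nd 790 .lf .lf) (.nd 974 .lf (.nd 164 .lf .lf)))) (.nd 3026
  (.nd 1022 (.nd 168 .lf .lf) (.nd 172 .lf .lf)) (.nd 1980 (.nd 176 .lf .lf) (.nd 1090 .lf (.nd 910 .lf .lf)))))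
  (.nd 6310 (.nd 2548 (.nd 1138 (.nd 930 .lf .lf) (.nd 950 .lf .lf)) (.nd 1386 (.nd 970 .lf .lf) (.nd 1190 .lf
  (.nd 200 .lf .lf)))) (.nd 2808 (.nd 2288 (.nd 204 .lf .lf) (.nd 1258 .lf (.nd 1050 .lf .lf))) (.nd 1526 (.nd
  1070 .lf .lf) (.nd 1310 .lf (.nd 220 .lf .lf)))))) (.nd 15290 (.nd 7490 (.nd 3978 (.nd 1358 (.nd 224 .lf .lf)
  (.nd 228 .lf .lf)) (.nd 2596 (.nd 232 .lf .lf) (.nd 1426 .lf (.nd 1190 .lf .lf)))) (.nd 4318 (.nd 1722 (.nd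
  1210 .lf .lf) (.nd 1478 .lf (.nd 248 .lf .lf))) (.nd 2816 (.nd 252 .lf .lf) (.nd 1546 .lf (.nd 1290 .lf
  .lf))))) (.nd 8590 (.nd 3536 (.nd 1594 (.nd 1310 .lf .lf) (.nd 1330 .lf .lf)) (.nd 1918 (.nd 1350 .lf .lf)
  (.nd 1646 .lf (.nd 276 .lf .lf)))) (.nd 3796 (.nd 3124 (.nd 280 .lf .lf) (.nd 1714 .lf (.nd 1430 .lf .lf)))
  (.nd 2058 (.nd 1450 .lf .lf) (.nd 1766 .lf (.nd 296 .lf .lf)))))))) (.nd 116406 (.nd 46702 (.nd 20768 (.nd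
  8100 (.nd 5270 (.nd 1814 (.nd 300 .lf .lf) (.nd 304 .lf .lf)) (.nd 3432 (.nd 308 .lf .lf) (.nd 1882 .lf (.nd
  1570 .lf .lf)))) (.nd 4264 (.nd 1930 (.nd 1590 .lf .lf) (.nd 1610 .lf .lf)) (.nd 2310 (.nd 1630 .lf .lf) (.nd
  1982 .lf (.nd 332 .lf .lf))))) (.nd 10850 (.nd 5882 (.nd 2030 (.nd 336 .lf .lf) (.nd 340 .lf .lf)) (.nd 3828
  (.nd 344 .lf .lf) (.nd 2098 .lf (.nd 1750 .lf .lf)))) (.nd 6222 (.nd 2506 (.nd 1770 .lf .lf) (.nd 2150 .lf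
  (.nd 360 .lf .lf))) (.nd 4048 (.nd 364 .lf .lf) (.nd 2218 .lf (.nd 1850 .lf .lf)))))) (.nd 25252 (.nd 11950
  (.nd 4992 (.nd 2266 (.nd 1870 .lf .lf) (.nd 1890 .lf .lf)) (.nd 2702 (.nd 1910 .lf .lf) (.nd 2318 .lf (.nd 388
  .lf .lf)))) (.nd 5252 (.nd 4356 (.nd 392 .lf .lf) (.nd 2386 .lf (.nd 1990 .lf .lf))) (.nd 2842 (.nd 2010 .lf
  .lf) (.nd 2438 .lf (.nd 408 .lf .lf))))) (.nd 13130 (.nd 7174 (.nd 2486 (.nd 412 .lf .lf) (.nd 416 .lf .lf))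
  (.nd 4664 (.nd 420 .lf .lf) (.nd 2554 .lf (.nd 2130 .lf .lf)))) (.nd 7514 (.nd 3038 (.nd 2150 .lf .lf) (.nd
  2606 .lf (.nd 436 .lf .lf))) (.nd 4884 (.nd 440 .lf .lf) (.nd 2674 .lf (.nd 2230 .lf .lf))))))) (.nd 63650
  (.nd 27610 (.nd 13746 (.nd 5980 (.nd 2722 (.nd 2250 .lf .lf) (.nd 2270 .lf .lf)) (.nd 3234 (.nd 2290 .lf .lf)
  (.nd 2774 .lf (.nd 464 .lf .lf)))) (.nd 8126 (.nd 2822 (.nd 468 .lf .lf) (.nd 472 .lf .lf)) (.nd 5280 (.nd 476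
  .lf .lf) (.nd 2890 .lf (.nd 2410 .lf .lf))))) (.nd 15310 (.nd 6448 (.nd 2938 (.nd 2430 .lf .lf) (.nd 2450 .lf
  .lf)) (.nd 3486 (.nd 2470 .lf .lf) (.nd 2990 .lf (.nd 500 .lf .lf)))) (.nd 6708 (.nd 5588 (.nd 504 .lf .lf)
  (.nd 3058 .lf (.nd 2550 .lf .lf))) (.nd 3626 (.nd 2570 .lf .lf) (.nd 3110 .lf (.nd 520 .lf .lf)))))) (.nd
  31790 (.nd 16490 (.nd 9078 (.nd 3158 (.nd 524 .lf .lf) (.nd 528 .lf .lf)) (.nd 5896 (.nd 532 .lf .lf) (.nd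
  3226 .lf (.nd 2690 .lf .lf)))) (.nd 9418 (.nd 3822 (.nd 2710 .lf .lf) (.nd 3278 .lf (.nd 548 .lf .lf))) (.nd
  6116 (.nd 552 .lf .lf) (.nd 3346 .lf (.nd 2790 .lf .lf))))) (.nd 17590 (.nd 7436 (.nd 3394 (.nd 2810 .lf .lf)
  (.nd 2830 .lf .lf)) (.nd 4018 (.nd 2850 .lf .lf) (.nd 3446 .lf (.nd 576 .lf .lf)))) (.nd 7696 (.nd 6424 (.nd
  580 .lf .lf) (.nd 3514 .lf (.nd 2930 .lf .lf))) (.nd 4158 (.nd 2950 .lf .lf) (.nd 3566 .lf (.nd 596 .lf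
  .lf)))))))))

/-- Exponents of the odd part of the second series. -/
def tFM : T :=
  (.nd 198470 (.nd 50394 (.nd 11990 (.nd 3186 (.nd 650 (.nd 204 (.nd 26 (.nd 2 .lf .lf) (.nd 6 .lf .lf)) (.nd
  154 (.nd 10 .lf .lf) (.nd 94 .lf (.nd 80 .lf .lf)))) (.nd 390 (.nd 142 (.nd 100 .lf .lf) (.nd 120 .lf .lf))
  (.nd 224 (.nd 140 .lf .lf) (.nd 194 .lf (.nd 34 .lf .lf))))) (.nd 1910 (.nd 816 (.nd 242 (.nd 38 .lf .lf) (.nd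
  42 .lf .lf)) (.nd 550 (.nd 46 .lf .lf) (.nd 310 .lf (.nd 260 .lf .lf)))) (.nd 1156 (.nd 420 (.nd 280 .lf .lf)
  (.nd 362 .lf (.nd 62 .lf .lf))) (.nd 770 (.nd 66 .lf .lf) (.nd 430 .lf (.nd 360 .lf .lf)))))) (.nd 7040 (.nd
  2900 (.nd 1118 (.nd 478 (.nd 380 .lf .lf) (.nd 400 .lf .lf)) (.nd 616 (.nd 420 .lf .lf) (.nd 530 .lf (.nd 90
  .lf .lf)))) (.nd 1768 (.nd 578 (.nd 94 .lf .lf) (.nd 98 .lf .lf)) (.nd 1166 (.nd 102 .lf .lf) (.nd 646 .lf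
  (.nd 540 .lf .lf))))) (.nd 4090 (.nd 1586 (.nd 694 (.nd 560 .lf .lf) (.nd 580 .lf .lf)) (.nd 868 (.nd 600 .lf
  .lf) (.nd 746 .lf (.nd 126 .lf .lf)))) (.nd 1846 (.nd 1474 (.nd 130 .lf .lf) (.nd 814 .lf (.nd 680 .lf .lf)))
  (.nd 1008 (.nd 700 .lf .lf) (.nd 866 .lf (.nd 146 .lf .lf))))))) (.nd 29602 (.nd 11918 (.nd 4350 (.nd 2720
  (.nd 914 (.nd 150 .lf .lf) (.nd 154 .lf .lf)) (.nd 1782 (.nd 158 .lf .lf) (.nd 982 .lf (.nd 820 .lf .lf))))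
  (.nd 2314 (.nd 1030 (.nd 840 .lf .lf) (.nd 860 .lf .lf)) (.nd 1260 (.nd 880 .lf .lf) (.nd 1082 .lf (.nd 182
  .lf .lf))))) (.nd 6350 (.nd 3332 (.nd 1130 (.nd 186 .lf .lf) (.nd 190 .lf .lf)) (.nd 2178 (.nd 194 .lf .lf)
  (.nd 1198 .lf (.nd 1000 .lf .lf)))) (.nd 3672 (.nd 1456 (.nd 1020 .lf .lf) (.nd 1250 .lf (.nd 210 .lf .lf)))
  (.nd 2398 (.nd 214 .lf .lf) (.nd 1318 .lf (.nd 1100 .lf .lf)))))) (.nd 16402 (.nd 7450 (.nd 3042 (.nd 1366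
  (.nd 1120 .lf .lf) (.nd 1140 .lf .lf)) (.nd 1652 (.nd 1160 .lf .lf) (.nd 1418 .lf (.nd 238 .lf .lf)))) (.nd
  3302 (.nd 2706 (.nd 242 .lf .lf) (.nd 1486 .lf (.nd 1240 .lf .lf))) (.nd 1792 (.nd 1260 .lf .lf) (.nd 1538 .lf
  (.nd 258 .lf .lf))))) (.nd 8630 (.nd 4624 (.nd 1586 (.nd 262 .lf .lf) (.nd 266 .lf .lf)) (.nd 3014 (.nd 270
  .lf .lf) (.nd 1654 .lf (.nd 1380 .lf .lf)))) (.nd 4964 (.nd 1988 (.nd 1400 .lf .lf) (.nd 1706 .lf (.nd 286 .lf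
  .lf))) (.nd 3234 (.nd 290 .lf .lf) (.nd 1774 .lf (.nd 1480 .lf .lf)))))))) (.nd 115960 (.nd 46104 (.nd 19360
  (.nd 9396 (.nd 4030 (.nd 1822 (.nd 1500 .lf .lf) (.nd 1520 .lf .lf)) (.nd 2184 (.nd 1540 .lf .lf) (.nd 1874
  .lf (.nd 314 .lf .lf)))) (.nd 5576 (.nd 1922 (.nd 318 .lf .lf) (.nd 322 .lf .lf)) (.nd 3630 (.nd 326 .lf .lf)
  (.nd 1990 .lf (.nd 1660 .lf .lf))))) (.nd 10810 (.nd 4498 (.nd 2038 (.nd 1680 .lf .lf) (.nd 1700 .lf .lf))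
  (.nd 2436 (.nd 1720 .lf .lf) (.nd 2090 .lf (.nd 350 .lf .lf)))) (.nd 4758 (.nd 3938 (.nd 354 .lf .lf) (.nd
  2158 .lf (.nd 1800 .lf .lf))) (.nd 2576 (.nd 1820 .lf .lf) (.nd 2210 .lf (.nd 370 .lf .lf)))))) (.nd 25134
  (.nd 9950 (.nd 6528 (.nd 2258 (.nd 374 .lf .lf) (.nd 378 .lf .lf)) (.nd 4246 (.nd 382 .lf .lf) (.nd 2326 .lf
  (.nd 1940 .lf .lf)))) (.nd 5226 (.nd 2374 (.nd 1960 .lf .lf) (.nd 1980 .lf .lf)) (.nd 2828 (.nd 2000 .lf .lf)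
  (.nd 2426 .lf (.nd 406 .lf .lf))))) (.nd 13070 (.nd 7140 (.nd 2474 (.nd 410 .lf .lf) (.nd 414 .lf .lf)) (.nd
  4642 (.nd 418 .lf .lf) (.nd 2542 .lf (.nd 2120 .lf .lf)))) (.nd 7480 (.nd 3024 (.nd 2140 .lf .lf) (.nd 2594
  .lf (.nd 434 .lf .lf))) (.nd 4862 (.nd 438 .lf .lf) (.nd 2662 .lf (.nd 2220 .lf .lf))))))) (.nd 63422 (.nd
  27500 (.nd 13688 (.nd 5954 (.nd 2710 (.nd 2240 .lf .lf) (.nd 2260 .lf .lf)) (.nd 3220 (.nd 2280 .lf .lf) (.nd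
  2762 .lf (.nd 462 .lf .lf)))) (.nd 8092 (.nd 2810 (.nd 466 .lf .lf) (.nd 470 .lf .lf)) (.nd 5258 (.nd 474 .lf
  .lf) (.nd 2878 .lf (.nd 2400 .lf .lf))))) (.nd 15250 (.nd 6422 (.nd 2926 (.nd 2420 .lf .lf) (.nd 2440 .lf
  .lf)) (.nd 3472 (.nd 2460 .lf .lf) (.nd 2978 .lf (.nd 498 .lf .lf)))) (.nd 6682 (.nd 5566 (.nd 502 .lf .lf)
  (.nd 3046 .lf (.nd 2540 .lf .lf))) (.nd 3612 (.nd 2560 .lf .lf) (.nd 3098 .lf (.nd 518 .lf .lf)))))) (.nd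
  31680 (.nd 16430 (.nd 9044 (.nd 3146 (.nd 522 .lf .lf) (.nd 526 .lf .lf)) (.nd 5874 (.nd 530 .lf .lf) (.nd
  3214 .lf (.nd 2680 .lf .lf)))) (.nd 9384 (.nd 3808 (.nd 2700 .lf .lf) (.nd 3266 .lf (.nd 546 .lf .lf))) (.nd
  6094 (.nd 550 .lf .lf) (.nd 3334 .lf (.nd 2780 .lf .lf))))) (.nd 17530 (.nd 7410 (.nd 3382 (.nd 2800 .lf .lf)
  (.nd 2820 .lf .lf)) (.nd 4004 (.nd 2840 .lf .lf) (.nd 3434 .lf (.nd 574 .lf .lf)))) (.nd 7670 (.nd 6402 (.nd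
  578 .lf .lf) (.nd 3502 .lf (.nd 2920 .lf .lf))) (.nd 4144 (.nd 2940 .lf .lf) (.nd 3554 .lf (.nd 594 .lf
  .lf)))))))))


/-- The certificates: position `267497 - m` and `1` (listed), `0` (power test) or a factor. -/
def wT : W :=
  (.nd 262144 (.nd 131072 (.nd 65536 (.nd 32768 (.nd 16384 (.nd 8192 (.nd 4096 (.nd 2048 (.nd 1024 (.nd 512 (.nd
  256 (.nd 128 (.nd 64 (.lf [(17, 13)]) (.lf [(1, 25913), (31, 3), (43, 3)])) (.nd 64 .nil (.lf [(5, 3)]))) (.nd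
  128 (.nd 64 (.lf [(13, 37)]) (.lf [(45, 31)])) .nil)) (.nd 256 (.nd 128 (.nd 64 .nil (.lf [(23, 13)])) (.nd 64
  (.lf [(19, 3)]) .nil)) (.nd 128 (.nd 64 (.lf [(41, 0), (47, 43)]) .nil) (.nd 64 .nil (.lf [(47, 23), (59,
  0)]))))) (.nd 512 (.nd 256 (.nd 128 (.nd 64 (.lf [(25, 7)]) (.lf [(57, 5)])) (.nd 64 (.lf [(53, 11)]) .nil))
  (.nd 128 .nil (.nd 64 (.lf [(7, 3), (37, 3), (61, 19)]) .nil))) (.nd 256 (.nd 128 (.nd 64 .nil (.lf [(25,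
  3)])) (.nd 64 .nil (.lf [(59, 7)]))) (.nd 128 (.nd 64 .nil (.lf [(21, 31147)])) (.nd 64 (.lf [(35, 113)]) (.lf
  [(1, 3)])))))) (.nd 1024 (.nd 512 (.nd 256 (.nd 128 (.nd 64 .nil (.lf [(47, 3)])) (.nd 64 (.lf [(49, 3)]) (.lf
  [(9, 3)]))) (.nd 128 (.nd 64 .nil (.lf [(37, 11783)])) (.nd 64 .nil (.lf [(41, 7)])))) (.nd 256 (.nd 128 (.nd
  64 .nil (.lf [(45, 661)])) (.nd 64 (.lf [(17, 71)]) .nil)) (.nd 128 (.nd 64 .nil (.lf [(17, 5)])) (.nd 64 (.lf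
  [(25, 3)]) .nil)))) (.nd 512 (.nd 256 .nil (.nd 128 (.nd 64 (.lf [(1, 5), (31, 3)]) .nil) (.nd 64 (.lf [(11,
  11)]) (.lf [(25, 31)])))) (.nd 256 (.nd 128 (.nd 64 (.lf [(3, 3), (45, 139)]) (.lf [(29, 11)])) (.nd 64 (.lf
  [(25, 1409)]) .nil)) (.nd 128 (.nd 64 (.lf [(47, 199)]) .nil) (.nd 64 (.lf [(9, 521), (39, 3539)]) .nil))))))
  (.nd 2048 (.nd 1024 (.nd 512 (.nd 256 (.nd 128 (.nd 64 (.lf [(1, 211217)]) .nil) (.nd 64 (.lf [(5, 1079609)])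
  .nil)) .nil) (.nd 256 (.nd 128 (.nd 64 .nil (.lf [(43, 13)])) (.nd 64 (.lf [(21, 7)]) (.lf [(47, 18793)])))
  (.nd 128 (.nd 64 .nil (.lf [(27, 499), (57, 31)])) .nil))) (.nd 512 (.nd 256 (.nd 128 (.nd 64 (.lf [(27, 5)])
  .nil) (.nd 64 .nil (.lf [(33, 19)]))) (.nd 128 (.nd 64 (.lf [(11, 173)]) (.lf [(7, 0)])) (.nd 64 (.lf [(21,
  5)]) .nil))) (.nd 256 (.nd 128 .nil (.nd 64 .nil (.lf [(31, 19)]))) (.nd 128 .nil (.nd 64 (.lf [(49, 3)])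
  .nil))))) (.nd 1024 (.nd 512 (.nd 256 (.nd 128 .nil (.nd 64 (.lf [(57, 5)]) .nil)) (.nd 128 (.nd 64 (.lf [(37,
  3)]) (.lf [(21, 3)])) (.nd 64 .nil (.lf [(43, 523)])))) (.nd 256 (.nd 128 (.nd 64 (.lf [(33, 0)]) .nil) .nil)
  (.nd 128 (.nd 64 (.lf [(35, 0)]) .nil) (.nd 64 (.lf [(39, 5), (45, 1697)]) .nil)))) (.nd 512 (.nd 256 (.nd 128
  (.nd 64 .nil (.lf [(57, 3)])) (.nd 64 (.lf [(11, 37)]) .nil)) (.nd 128 (.nd 64 (.lf [(63, 479)]) (.lf [(17,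
  3)])) .nil)) (.nd 256 (.nd 128 (.nd 64 (.lf [(35, 4651)]) .nil) (.nd 64 .nil (.lf [(5, 3)]))) (.nd 128 (.nd 64
  .nil (.lf [(45, 37)])) (.nd 64 (.lf [(53, 67)]) .nil))))))) (.nd 4096 (.nd 2048 (.nd 1024 (.nd 512 (.nd 256
  (.nd 128 (.nd 64 .nil (.lf [(29, 0)])) (.nd 64 (.lf [(19, 94541), (55, 3)]) .nil)) (.nd 128 .nil (.nd 64 (.lf
  [(3, 34591)]) .nil))) (.nd 256 (.nd 128 .nil (.nd 64 (.lf [(53, 7)]) .nil)) (.nd 128 .nil (.nd 64 .nil (.lf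
  [(15, 5), (27, 97)]))))) (.nd 512 (.nd 256 (.nd 128 .nil (.nd 64 (.lf [(45, 3)]) .nil)) (.nd 128 (.nd 64 (.lf
  [(37, 2203)]) .nil) (.nd 64 (.lf [(29, 3910733), (35, 31)]) .nil))) (.nd 256 (.nd 128 (.nd 64 (.lf [(57, 61)])
  (.lf [(17, 3)])) .nil) (.nd 128 (.nd 64 (.lf [(11, 3)]) (.lf [(49, 3)])) (.nd 64 (.lf [(33, 101)]) .nil)))))
  (.nd 1024 (.nd 512 (.nd 256 (.nd 128 (.nd 64 (.lf [(37, 3)]) .nil) .nil) (.nd 128 (.nd 64 .nil (.lf [(35,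
  13)])) (.nd 64 .nil (.lf [(9, 41)])))) (.nd 256 (.nd 128 (.nd 64 (.lf [(23, 79)]) .nil) (.nd 64 (.lf [(39,
  0)]) .nil)) (.nd 128 (.nd 64 (.lf [(19, 2543)]) (.lf [(33, 0)])) .nil))) (.nd 512 (.nd 256 (.nd 128 (.nd 64
  (.lf [(45, 7)]) .nil) (.nd 64 .nil (.lf [(9, 3), (21, 3)]))) (.nd 128 (.nd 64 (.lf [(5, 29), (59, 5)]) .nil)
  (.nd 64 (.lf [(9, 11)]) .nil))) (.nd 256 (.nd 128 .nil (.nd 64 (.lf [(5, 3)]) (.lf [(61, 3)]))) (.nd 128 .nil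
  (.nd 64 .nil (.lf [(21, 13)]))))))) (.nd 2048 (.nd 1024 (.nd 512 (.nd 256 (.nd 128 (.nd 64 (.lf [(17, 101),
  (29, 0)]) .nil) .nil) (.nd 128 (.nd 64 (.lf [(25, 3)]) (.lf [(57, 5)])) (.nd 64 .nil (.lf [(31, 5)])))) (.nd
  256 (.nd 128 .nil (.nd 64 .nil (.lf [(15, 3)]))) (.nd 128 .nil (.nd 64 (.lf [(33, 7)]) (.lf [(41, 41)])))))
  (.nd 512 (.nd 256 (.nd 128 .nil (.nd 64 (.lf [(17, 29)]) (.lf [(43, 0)]))) (.nd 128 (.nd 64 (.lf [(21, 103)])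
  .nil) (.nd 64 (.lf [(13, 89)]) (.lf [(57, 0)])))) (.nd 256 (.nd 128 (.nd 64 (.lf [(35, 1571)]) (.lf [(1, 3)]))
  .nil) (.nd 128 (.nd 64 (.lf [(49, 7)]) .nil) .nil)))) (.nd 1024 (.nd 512 (.nd 256 (.nd 128 (.nd 64 (.lf [(3,
  13)]) .nil) (.nd 64 .nil (.lf [(57, 3)]))) (.nd 128 (.nd 64 .nil (.lf [(13, 3)])) .nil)) .nil) (.nd 512 (.nd
  256 (.nd 128 .nil (.nd 64 (.lf [(39, 3)]) (.lf [(5, 3)]))) (.nd 128 (.nd 64 (.lf [(49, 2311)]) (.lf [(27,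
  3)])) .nil)) (.nd 256 (.nd 128 (.nd 64 (.lf [(3, 3), (15, 3)]) .nil) (.nd 64 .nil (.lf [(3, 29)]))) (.nd 128
  (.nd 64 .nil (.lf [(43, 3)])) (.nd 64 (.lf [(9, 3), (21, 41), (39, 3), (63, 3)]) .nil)))))))) (.nd 8192 (.nd
  4096 (.nd 2048 (.nd 1024 (.nd 512 (.nd 256 (.nd 128 (.nd 64 (.lf [(55, 3)]) .nil) (.nd 64 (.lf [(17, 61), (35,
  13)]) .nil)) (.nd 128 (.nd 64 .nil (.lf [(41, 23), (53, 37)])) .nil)) (.nd 256 (.nd 128 (.nd 64 .nil (.lf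
  [(37, 7)])) .nil) .nil)) (.nd 512 (.nd 256 (.nd 128 (.nd 64 (.lf [(39, 677)]) (.lf [(53, 13)])) (.nd 64 .nil
  (.lf [(39, 29)]))) .nil) (.nd 256 (.nd 128 (.nd 64 (.lf [(37, 3)]) (.lf [(15, 3)])) (.nd 64 (.lf [(11, 0),
  (29, 43)]) .nil)) (.nd 128 .nil (.nd 64 (.lf [(61, 47)]) .nil))))) (.nd 1024 (.nd 512 (.nd 256 (.nd 128 .nil
  (.nd 64 (.lf [(45, 5)]) (.lf [(5, 37)]))) (.nd 128 .nil (.nd 64 (.lf [(41, 11)]) .nil))) (.nd 256 .nil (.nd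
  128 (.nd 64 (.lf [(5, 13)]) (.lf [(31, 3), (55, 13)])) (.nd 64 (.lf [(51, 7)]) .nil)))) (.nd 512 (.nd 256 (.nd
  128 (.nd 64 (.lf [(43, 5), (49, 3)]) .nil) (.nd 64 .nil (.lf [(37, 3)]))) (.nd 128 (.nd 64 (.lf [(15, 0)])
  (.lf [(29, 29)])) (.nd 64 (.lf [(7, 5), (49, 5), (55, 3)]) (.lf [(63, 103)])))) (.nd 256 (.nd 128 .nil (.nd 64
  (.lf [(9, 3), (63, 19)]) .nil)) (.nd 128 .nil (.nd 64 .nil (.lf [(13, 5)]))))))) (.nd 2048 (.nd 1024 (.nd 512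
  (.nd 256 (.nd 128 (.nd 64 .nil (.lf [(23, 3)])) (.nd 64 .nil (.lf [(15, 5)]))) (.nd 128 (.nd 64 (.lf [(53,
  3)]) (.lf [(55, 11)])) (.nd 64 (.lf [(21, 3)]) (.lf [(59, 3)])))) (.nd 256 (.nd 128 .nil (.nd 64 (.lf [(59,
  3)]) .nil)) (.nd 128 (.nd 64 .nil (.lf [(53, 7)])) (.nd 64 (.lf [(1, 139)]) .nil)))) (.nd 512 (.nd 256 (.nd
  128 (.nd 64 (.lf [(11, 5)]) (.lf [(19, 3), (31, 7)])) (.nd 64 (.lf [(15, 7)]) .nil)) (.nd 128 (.nd 64 (.lf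
  [(55, 17)]) (.lf [(45, 0)])) (.nd 64 (.lf [(17, 5), (47, 3)]) (.lf [(25, 0)])))) (.nd 256 (.nd 128 (.nd 64
  (.lf [(9, 5), (63, 3)]) .nil) .nil) (.nd 128 (.nd 64 (.lf [(53, 11)]) (.lf [(31, 3)])) .nil)))) (.nd 1024 (.nd
  512 (.nd 256 (.nd 128 (.nd 64 .nil (.lf [(45, 181), (63, 3)])) .nil) (.nd 128 (.nd 64 (.lf [(45, 0)]) (.lf
  [(11, 5)])) .nil)) (.nd 256 (.nd 128 (.nd 64 .nil (.lf [(13, 79)])) (.nd 64 (.lf [(27, 131)]) (.lf [(47,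
  640933)]))) (.nd 128 (.nd 64 (.lf [(43, 3)]) .nil) .nil))) (.nd 512 (.nd 256 (.nd 128 .nil (.nd 64 .nil (.lf
  [(45, 1), (51, 3)]))) (.nd 128 (.nd 64 (.lf [(17, 3)]) (.lf [(37, 3)])) .nil)) (.nd 256 (.nd 128 (.nd 64 (.lf
  [(1, 3), (31, 103)]) .nil) .nil) (.nd 128 (.nd 64 (.lf [(57, 3)]) .nil) .nil)))))) (.nd 4096 (.nd 2048 (.nd
  1024 (.nd 512 (.nd 256 (.nd 128 .nil (.nd 64 (.lf [(63, 13)]) .nil)) (.nd 128 .nil (.nd 64 (.lf [(17, 7)])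
  (.lf [(25, 3)])))) (.nd 256 (.nd 128 .nil (.nd 64 .nil (.lf [(45, 7)]))) (.nd 128 (.nd 64 .nil (.lf [(31,
  5)])) (.nd 64 (.lf [(45, 3)]) (.lf [(41, 47)]))))) (.nd 512 (.nd 256 (.nd 128 (.nd 64 .nil (.lf [(51, 13)]))
  .nil) (.nd 128 (.nd 64 (.lf [(39, 11)]) (.lf [(17, 111953)])) (.nd 64 (.lf [(1, 83)]) (.lf [(57, 7)])))) (.nd
  256 (.nd 128 (.nd 64 (.lf [(23, 3)]) (.lf [(61, 3)])) .nil) (.nd 128 (.nd 64 (.lf [(61, 3)]) (.lf [(15, 3)]))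
  (.nd 64 .nil (.lf [(55, 3)])))))) (.nd 1024 (.nd 512 (.nd 256 .nil (.nd 128 (.nd 64 (.lf [(29, 23)]) .nil)
  .nil)) (.nd 256 (.nd 128 (.nd 64 (.lf [(13, 409)]) (.lf [(39, 163)])) .nil) (.nd 128 (.nd 64 (.lf [(57, 3),
  (63, 47)]) .nil) (.nd 64 .nil (.lf [(63, 3)]))))) (.nd 512 (.nd 256 (.nd 128 .nil (.nd 64 (.lf [(9, 3)])
  .nil)) (.nd 128 .nil (.nd 64 (.lf [(35, 17)]) (.lf [(13, 3)])))) (.nd 256 (.nd 128 (.nd 64 .nil (.lf [(41,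
  239)])) .nil) (.nd 128 .nil (.nd 64 (.lf [(33, 3)]) (.lf [(11, 19)]))))))) (.nd 2048 (.nd 1024 (.nd 512 (.nd
  256 (.nd 128 (.nd 64 .nil (.lf [(33, 3)])) .nil) (.nd 128 (.nd 64 (.lf [(39, 3)]) .nil) (.nd 64 .nil (.lf
  [(15, 13)])))) (.nd 256 (.nd 128 .nil (.nd 64 (.lf [(27, 11)]) (.lf [(41, 5)]))) (.nd 128 (.nd 64 (.lf [(19,
  5)]) (.lf [(21, 3)])) (.nd 64 .nil (.lf [(7, 0)]))))) (.nd 512 (.nd 256 (.nd 128 (.nd 64 .nil (.lf [(47, 7)]))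
  .nil) .nil) (.nd 256 (.nd 128 (.nd 64 .nil (.lf [(63, 3)])) (.nd 64 .nil (.lf [(7, 79), (25, 23)]))) (.nd 128
  (.nd 64 (.lf [(51, 97)]) .nil) (.nd 64 (.lf [(13, 3), (25, 3), (37, 3)]) .nil))))) (.nd 1024 (.nd 512 (.nd 256
  (.nd 128 (.nd 64 (.lf [(5, 7)]) (.lf [(13, 47)])) .nil) (.nd 128 (.nd 64 (.lf [(43, 71)]) .nil) .nil)) (.nd
  256 (.nd 128 (.nd 64 (.lf [(57, 37463)]) .nil) .nil) (.nd 128 (.nd 64 .nil (.lf [(55, 5)])) (.nd 64 .nil (.lf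
  [(5, 3), (29, 3)]))))) (.nd 512 (.nd 256 (.nd 128 (.nd 64 .nil (.lf [(27, 0)])) .nil) (.nd 128 (.nd 64 (.lf
  [(57, 3)]) .nil) (.nd 64 (.lf [(61, 41)]) (.lf [(63, 349)])))) (.nd 256 (.nd 128 .nil (.nd 64 .nil (.lf [(41,
  29)]))) (.nd 128 (.nd 64 (.lf [(7, 0), (25, 7)]) .nil) (.nd 64 (.lf [(47, 11279)]) .nil))))))))) (.nd 16384
  (.nd 8192 (.nd 4096 (.nd 2048 (.nd 1024 (.nd 512 (.nd 256 (.nd 128 .nil (.nd 64 (.lf [(13, 3), (61, 11)]) (.lf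
  [(9, 5)]))) (.nd 128 (.nd 64 (.lf [(11, 47)]) .nil) (.nd 64 (.lf [(3, 3), (27, 3)]) .nil))) (.nd 256 (.nd 128
  (.nd 64 (.lf [(25, 1609)]) .nil) .nil) (.nd 128 (.nd 64 (.lf [(21, 3), (39, 3)]) (.lf [(17, 3)])) .nil))) (.nd
  512 (.nd 256 (.nd 128 (.nd 64 (.lf [(17, 1229)]) .nil) (.nd 64 (.lf [(27, 19)]) .nil)) (.nd 128 (.nd 64 (.lf
  [(31, 5)]) (.lf [(57, 19)])) .nil)) (.nd 256 (.nd 128 (.nd 64 (.lf [(33, 3), (51, 3)]) (.lf [(59, 3)])) (.nd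
  64 .nil (.lf [(39, 3)]))) (.nd 128 .nil (.nd 64 (.lf [(57, 7)]) (.lf [(35, 1181)])))))) (.nd 1024 (.nd 512
  (.nd 256 (.nd 128 .nil (.nd 64 .nil (.lf [(31, 0)]))) (.nd 128 (.nd 64 (.lf [(15, 3)]) .nil) (.nd 64 .nil (.lf
  [(45, 3)])))) (.nd 256 (.nd 128 (.nd 64 .nil (.lf [(25, 277), (55, 13)])) .nil) (.nd 128 (.nd 64 .nil (.lf
  [(9, 5), (27, 3)])) .nil))) (.nd 512 (.nd 256 (.nd 128 (.nd 64 (.lf [(45, 3)]) .nil) (.nd 64 (.lf [(49, 11)])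
  (.lf [(3, 5), (33, 3)]))) (.nd 128 (.nd 64 (.lf [(53, 11)]) .nil) (.nd 64 (.lf [(3, 541)]) .nil))) (.nd 256
  (.nd 128 (.nd 64 (.lf [(37, 7)]) (.lf [(63, 3)])) (.nd 64 (.lf [(17, 5)]) (.lf [(13, 71)]))) (.nd 128 (.nd 64
  (.lf [(27, 3)]) (.lf [(53, 3)])) .nil))))) (.nd 2048 (.nd 1024 (.nd 512 (.nd 256 (.nd 128 (.nd 64 .nil (.lf
  [(7, 5)])) (.nd 64 .nil (.lf [(53, 7)]))) (.nd 128 (.nd 64 (.lf [(37, 17)]) (.lf [(3, 0)])) .nil)) (.nd 256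
  (.nd 128 .nil (.nd 64 (.lf [(13, 575129), (31, 23), (55, 3)]) .nil)) (.nd 128 (.nd 64 (.lf [(17, 1399)]) (.lf
  [(31, 359), (49, 5)])) (.nd 64 .nil (.lf [(35, 5)]))))) (.nd 512 (.nd 256 (.nd 128 (.nd 64 (.lf [(19, 0), (61,
  11)]) .nil) .nil) (.nd 128 (.nd 64 .nil (.lf [(41, 877)])) .nil)) (.nd 256 (.nd 128 .nil (.nd 64 (.lf [(9,
  13), (57, 17)]) (.lf [(23, 37)]))) (.nd 128 (.nd 64 (.lf [(43, 692431)]) (.lf [(45, 11)])) (.nd 64 .nil (.lf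
  [(31, 5)])))))) (.nd 1024 (.nd 512 (.nd 256 (.nd 128 (.nd 64 (.lf [(63, 19)]) (.lf [(11, 7)])) (.nd 64 (.lf
  [(37, 3)]) .nil)) (.nd 128 (.nd 64 (.lf [(29, 19)]) .nil) (.nd 64 (.lf [(3, 3)]) .nil))) (.nd 256 .nil (.nd
  128 .nil (.nd 64 (.lf [(37, 23), (61, 7)]) (.lf [(15, 3), (57, 239)]))))) (.nd 512 (.nd 256 (.nd 128 (.nd 64
  (.lf [(29, 961757)]) (.lf [(25, 13)])) .nil) (.nd 128 (.nd 64 .nil (.lf [(9, 2621), (51, 7)])) (.nd 64 .nil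
  (.lf [(1, 29)])))) (.nd 256 (.nd 128 .nil (.nd 64 (.lf [(19, 5)]) (.lf [(39, 7)]))) (.nd 128 .nil (.nd 64 .nil
  (.lf [(53, 7)])))))))) (.nd 4096 (.nd 2048 (.nd 1024 (.nd 512 (.nd 256 (.nd 128 (.nd 64 .nil (.lf [(21, 0)]))
  (.nd 64 (.lf [(29, 56611)]) .nil)) (.nd 128 (.nd 64 .nil (.lf [(17, 29)])) .nil)) (.nd 256 (.nd 128 (.nd 64
  .nil (.lf [(19, 3)])) (.nd 64 .nil (.lf [(53, 5)]))) (.nd 128 (.nd 64 (.lf [(1, 17), (19, 7)]) .nil) (.nd 64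
  (.lf [(29, 3), (59, 3)]) (.lf [(49, 37)]))))) (.nd 512 (.nd 256 (.nd 128 .nil (.nd 64 (.lf [(13, 3), (37, 5),
  (43, 13)]) (.lf [(33, 3)]))) (.nd 128 (.nd 64 (.lf [(35, 11)]) (.lf [(31, 11)])) (.nd 64 (.lf [(51, 3)])
  .nil))) (.nd 256 (.nd 128 (.nd 64 .nil (.lf [(27, 3)])) .nil) .nil))) (.nd 1024 (.nd 512 (.nd 256 .nil (.nd
  128 (.nd 64 .nil (.lf [(39, 7)])) (.nd 64 (.lf [(35, 3)]) .nil))) (.nd 256 (.nd 128 (.nd 64 (.lf [(57, 1847)])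
  .nil) (.nd 64 (.lf [(7, 19), (19, 3)]) (.lf [(27, 3)]))) (.nd 128 (.nd 64 (.lf [(41, 17761)]) .nil) (.nd 64
  (.lf [(45, 29)]) .nil)))) (.nd 512 (.nd 256 (.nd 128 (.nd 64 (.lf [(25, 0)]) (.lf [(63, 5)])) (.nd 64 .nil
  (.lf [(31, 17), (55, 3)]))) (.nd 128 .nil (.nd 64 (.lf [(19, 101), (31, 11)]) (.lf [(9, 141413), (39, 3)]))))
  (.nd 256 (.nd 128 (.nd 64 .nil (.lf [(49, 67)])) (.nd 64 (.lf [(33, 5)]) .nil)) .nil)))) (.nd 2048 (.nd 1024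
  (.nd 512 (.nd 256 (.nd 128 (.nd 64 .nil (.lf [(29, 3)])) (.nd 64 .nil (.lf [(51, 3)]))) (.nd 128 (.nd 64 (.lf
  [(23, 53), (35, 61)]) (.lf [(13, 278609)])) (.nd 64 (.lf [(15, 3)]) (.lf [(5, 5), (41, 3)])))) (.nd 256 (.nd
  128 .nil (.nd 64 .nil (.lf [(19, 365213)]))) (.nd 128 (.nd 64 (.lf [(15, 3), (51, 0)]) .nil) (.nd 64 (.lf [(7,
  37)]) .nil)))) (.nd 512 (.nd 256 (.nd 128 (.nd 64 (.lf [(5, 13), (17, 11)]) .nil) (.nd 64 .nil (.lf [(23, 7),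
  (53, 0)]))) (.nd 128 (.nd 64 .nil (.lf [(27, 3)])) (.nd 64 .nil (.lf [(37, 13)])))) (.nd 256 (.nd 128 (.nd 64
  (.lf [(3, 3), (27, 3), (45, 0)]) .nil) .nil) (.nd 128 .nil (.nd 64 (.lf [(9, 3), (51, 5)]) .nil))))) (.nd 1024
  (.nd 512 (.nd 256 .nil (.nd 128 (.nd 64 .nil (.lf [(53, 3)])) (.nd 64 (.lf [(31, 73)]) (.lf [(3, 11)])))) (.nd
  256 (.nd 128 (.nd 64 .nil (.lf [(19, 1291), (55, 3)])) (.nd 64 .nil (.lf [(11, 3), (41, 3)]))) (.nd 128 .nil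
  (.nd 64 .nil (.lf [(25, 3)]))))) (.nd 512 (.nd 256 (.nd 128 (.nd 64 (.lf [(57, 3)]) .nil) .nil) (.nd 128 (.nd
  64 .nil (.lf [(31, 3), (61, 5)])) (.nd 64 (.lf [(15, 3217)]) .nil))) (.nd 256 (.nd 128 .nil (.nd 64 (.lf [(11,
  79)]) (.lf [(37, 857)]))) (.nd 128 (.nd 64 (.lf [(51, 19)]) .nil) (.nd 64 (.lf [(13, 11), (55, 31)])
  .nil)))))))) (.nd 8192 (.nd 4096 (.nd 2048 (.nd 1024 (.nd 512 (.nd 256 .nil (.nd 128 (.nd 64 (.lf [(7,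
  818579)]) (.lf [(45, 5)])) (.nd 64 (.lf [(53, 3)]) .nil))) (.nd 256 (.nd 128 .nil (.nd 64 .nil (.lf [(63,
  3)]))) (.nd 128 (.nd 64 (.lf [(17, 59), (59, 253741)]) .nil) (.nd 64 (.lf [(39, 3)]) (.lf [(17, 3), (23, 3),
  (47, 677)]))))) (.nd 512 (.nd 256 (.nd 128 (.nd 64 (.lf [(13, 3)]) (.lf [(57, 5)])) .nil) (.nd 128 (.nd 64
  (.lf [(63, 3)]) .nil) (.nd 64 (.lf [(19, 5), (37, 3)]) .nil))) (.nd 256 (.nd 128 (.nd 64 (.lf [(29, 11)])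
  .nil) (.nd 64 (.lf [(33, 3)]) (.lf [(47, 11)]))) (.nd 128 (.nd 64 (.lf [(1, 17)]) .nil) (.nd 64 (.lf [(53,
  47)]) (.lf [(43, 3)])))))) (.nd 1024 (.nd 512 (.nd 256 .nil (.nd 128 (.nd 64 (.lf [(59, 433)]) .nil) .nil))
  (.nd 256 (.nd 128 (.nd 64 .nil (.lf [(33, 239)])) .nil) (.nd 128 (.nd 64 .nil (.lf [(5, 13)])) (.nd 64 (.lf
  [(49, 3)]) .nil)))) (.nd 512 (.nd 256 (.nd 128 .nil (.nd 64 (.lf [(3, 23)]) .nil)) (.nd 128 .nil (.nd 64 .nil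
  (.lf [(37, 24733)])))) (.nd 256 (.nd 128 .nil (.nd 64 .nil (.lf [(9, 5), (51, 3)]))) (.nd 128 (.nd 64 (.lf
  [(23, 11)]) .nil) .nil))))) (.nd 2048 (.nd 1024 (.nd 512 (.nd 256 (.nd 128 (.nd 64 (.lf [(37, 7)]) .nil) (.nd
  64 .nil (.lf [(25, 7), (49, 7)]))) (.nd 128 (.nd 64 (.lf [(45, 5)]) .nil) .nil)) (.nd 256 (.nd 128 (.nd 64
  .nil (.lf [(61, 7)])) .nil) (.nd 128 (.nd 64 .nil (.lf [(57, 19)])) (.nd 64 .nil (.lf [(1, 3)]))))) (.nd 512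
  (.nd 256 (.nd 128 (.nd 64 .nil (.lf [(29, 53)])) .nil) (.nd 128 (.nd 64 .nil (.lf [(37, 17)])) .nil)) (.nd 256
  (.nd 128 (.nd 64 (.lf [(43, 131)]) .nil) .nil) (.nd 128 .nil (.nd 64 .nil (.lf [(57, 0)])))))) (.nd 1024 (.nd
  512 (.nd 256 .nil (.nd 128 (.nd 64 (.lf [(13, 5), (55, 0)]) (.lf [(3, 13)])) (.nd 64 .nil (.lf [(61, 0)]))))
  (.nd 256 (.nd 128 (.nd 64 (.lf [(27, 13)]) (.lf [(53, 239)])) (.nd 64 (.lf [(61, 7)]) .nil)) (.nd 128 .nil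
  (.nd 64 .nil (.lf [(11, 3), (23, 3)]))))) (.nd 512 (.nd 256 (.nd 128 (.nd 64 (.lf [(25, 72101)]) (.lf [(51,
  3), (63, 5)])) .nil) (.nd 128 (.nd 64 (.lf [(9, 25243)]) (.lf [(47, 29)])) .nil)) (.nd 256 (.nd 128 (.nd 64
  .nil (.lf [(1, 872657)])) .nil) (.nd 128 (.nd 64 (.lf [(7, 7), (49, 7)]) (.lf [(27, 7)])) (.nd 64 .nil (.lf
  [(25, 3)])))))))) (.nd 4096 (.nd 2048 (.nd 1024 (.nd 512 (.nd 256 (.nd 128 .nil (.nd 64 .nil (.lf [(33, 0)])))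
  (.nd 128 (.nd 64 .nil (.lf [(13, 13)])) (.nd 64 (.lf [(51, 5)]) .nil))) (.nd 256 (.nd 128 (.nd 64 (.lf [(19,
  47), (61, 3)]) (.lf [(9, 3)])) .nil) (.nd 128 (.nd 64 (.lf [(27, 5)]) (.lf [(53, 3)])) (.nd 64 (.lf [(55,
  47)]) .nil)))) (.nd 512 (.nd 256 (.nd 128 .nil (.nd 64 (.lf [(9, 5), (39, 1039)]) (.lf [(5, 17), (47, 7)])))
  (.nd 128 .nil (.nd 64 (.lf [(47, 5)]) .nil))) (.nd 256 (.nd 128 (.nd 64 (.lf [(27, 1093)]) (.lf [(41, 859),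
  (53, 3)])) (.nd 64 (.lf [(31, 5)]) (.lf [(33, 19)]))) (.nd 128 (.nd 64 .nil (.lf [(19, 569)])) (.nd 64 .nil
  (.lf [(29, 3)])))))) (.nd 1024 (.nd 512 (.nd 256 (.nd 128 (.nd 64 .nil (.lf [(39, 181)])) (.nd 64 (.lf [(5,
  23)]) .nil)) (.nd 128 (.nd 64 (.lf [(51, 3)]) .nil) (.nd 64 (.lf [(1, 0), (49, 3)]) .nil))) (.nd 256 (.nd 128
  (.nd 64 .nil (.lf [(7, 23), (19, 3), (49, 3)])) (.nd 64 .nil (.lf [(59, 3)]))) (.nd 128 (.nd 64 (.lf [(7,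
  647)]) (.lf [(33, 3)])) (.nd 64 (.lf [(11, 53)]) .nil)))) (.nd 512 (.nd 256 (.nd 128 .nil (.nd 64 (.lf [(1,
  3067), (43, 11)]) .nil)) (.nd 128 (.nd 64 (.lf [(5, 7)]) .nil) (.nd 64 (.lf [(57, 3)]) .nil))) (.nd 256 (.nd
  128 .nil (.nd 64 (.lf [(29, 11)]) .nil)) (.nd 128 (.nd 64 (.lf [(33, 3), (63, 3)]) .nil) (.nd 64 (.lf [(7,
  5)]) (.lf [(39, 0)]))))))) (.nd 2048 (.nd 1024 (.nd 512 (.nd 256 (.nd 128 (.nd 64 .nil (.lf [(1, 3), (43,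
  335057)])) .nil) (.nd 128 .nil (.nd 64 (.lf [(11, 3)]) .nil))) (.nd 256 (.nd 128 (.nd 64 .nil (.lf [(59,
  5011)])) (.nd 64 (.lf [(19, 7)]) .nil)) (.nd 128 (.nd 64 .nil (.lf [(13, 722311)])) .nil))) (.nd 512 (.nd 256
  (.nd 128 (.nd 64 (.lf [(1, 4108667)]) .nil) (.nd 64 (.lf [(47, 7)]) (.lf [(49, 13)]))) (.nd 128 (.nd 64 (.lf
  [(27, 0)]) .nil) (.nd 64 (.lf [(49, 5)]) .nil))) (.nd 256 (.nd 128 (.nd 64 (.lf [(11, 0)]) (.lf [(19, 31)]))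
  (.nd 64 (.lf [(33, 3), (63, 3)]) (.lf [(29, 3)]))) (.nd 128 (.nd 64 .nil (.lf [(39, 3)])) .nil)))) (.nd 1024
  (.nd 512 (.nd 256 (.nd 128 (.nd 64 (.lf [(39, 0)]) (.lf [(35, 0)])) (.nd 64 .nil (.lf [(9, 3089), (45, 3)])))
  (.nd 128 (.nd 64 .nil (.lf [(31, 13)])) .nil)) (.nd 256 (.nd 128 (.nd 64 (.lf [(37, 3)]) (.lf [(3, 3), (15,
  307), (51, 3)])) (.nd 64 (.lf [(17, 3), (29, 3), (47, 41), (59, 0)]) .nil)) (.nd 128 (.nd 64 (.lf [(33, 5)])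
  .nil) .nil))) (.nd 512 (.nd 256 (.nd 128 (.nd 64 (.lf [(53, 7)]) (.lf [(43, 3)])) (.nd 64 .nil (.lf [(41,
  3)]))) (.nd 128 (.nd 64 .nil (.lf [(27, 61)])) .nil)) (.nd 256 (.nd 128 .nil (.nd 64 (.lf [(55, 3)]) .nil))
  (.nd 128 (.nd 64 .nil (.lf [(25, 11)])) (.nd 64 (.lf [(27, 3)]) .nil)))))))))) (.nd 32768 (.nd 16384 (.nd 8192
  (.nd 4096 (.nd 2048 (.nd 1024 (.nd 512 (.nd 256 (.nd 128 .nil (.nd 64 (.lf [(5, 3), (11, 1453)]) (.lf [(1,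
  3)]))) (.nd 128 .nil (.nd 64 .nil (.lf [(15, 3), (21, 3), (63, 29)])))) (.nd 256 (.nd 128 (.nd 64 (.lf [(47,
  7)]) .nil) (.nd 64 .nil (.lf [(47, 3)]))) (.nd 128 (.nd 64 .nil (.lf [(9, 0)])) (.nd 64 .nil (.lf [(13,
  3)]))))) (.nd 512 (.nd 256 (.nd 128 (.nd 64 (.lf [(9, 7)]) (.lf [(5, 5)])) .nil) .nil) (.nd 256 (.nd 128 (.nd
  64 (.lf [(43, 24407)]) .nil) .nil) (.nd 128 .nil (.nd 64 .nil (.lf [(45, 3)])))))) (.nd 1024 (.nd 512 (.nd 256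
  (.nd 128 (.nd 64 .nil (.lf [(37, 0)])) (.nd 64 (.lf [(33, 0), (45, 23)]) .nil)) (.nd 128 (.nd 64 (.lf [(55,
  7)]) .nil) (.nd 64 (.lf [(29, 3), (41, 7)]) .nil))) (.nd 256 (.nd 128 .nil (.nd 64 .nil (.lf [(57, 3)]))) (.nd
  128 (.nd 64 .nil (.lf [(43, 1164571)])) (.nd 64 .nil (.lf [(11, 17), (53, 7)]))))) (.nd 512 (.nd 256 (.nd 128
  (.nd 64 (.lf [(49, 3), (61, 23)]) .nil) .nil) (.nd 128 .nil (.nd 64 (.lf [(43, 0)]) (.lf [(3, 3)])))) (.nd 256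
  (.nd 128 (.nd 64 (.lf [(29, 227)]) (.lf [(55, 17911)])) (.nd 64 (.lf [(27, 1291)]) .nil)) (.nd 128 .nil (.nd
  64 (.lf [(23, 11), (35, 29)]) (.lf [(37, 29)]))))))) (.nd 2048 (.nd 1024 (.nd 512 (.nd 256 (.nd 128 .nil (.nd
  64 (.lf [(25, 3)]) .nil)) (.nd 128 (.nd 64 (.lf [(11, 3), (41, 3)]) .nil) (.nd 64 .nil (.lf [(35, 5), (47,
  5)])))) (.nd 256 (.nd 128 (.nd 64 (.lf [(13, 10529), (55, 3)]) .nil) (.nd 64 .nil (.lf [(1, 86077)]))) (.nd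
  128 (.nd 64 .nil (.lf [(41, 7)])) (.nd 64 .nil (.lf [(33, 3)]))))) (.nd 512 (.nd 256 (.nd 128 (.nd 64 .nil
  (.lf [(7, 3)])) (.nd 64 (.lf [(51, 23)]) .nil)) (.nd 128 (.nd 64 (.lf [(43, 3)]) (.lf [(21, 5)])) .nil)) (.nd
  256 (.nd 128 (.nd 64 (.lf [(51, 5)]) .nil) (.nd 64 (.lf [(31, 3)]) .nil)) (.nd 128 (.nd 64 .nil (.lf [(37,
  5)])) (.nd 64 (.lf [(15, 3)]) .nil))))) (.nd 1024 (.nd 512 (.nd 256 (.nd 128 (.nd 64 .nil (.lf [(15, 5), (21,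
  1648289)])) .nil) (.nd 128 (.nd 64 (.lf [(21, 3)]) .nil) (.nd 64 .nil (.lf [(27, 17093)])))) (.nd 256 (.nd 128
  .nil (.nd 64 (.lf [(15, 3)]) .nil)) (.nd 128 (.nd 64 (.lf [(1, 5)]) .nil) (.nd 64 (.lf [(53, 7), (59, 11)])
  .nil)))) (.nd 512 (.nd 256 (.nd 128 (.nd 64 .nil (.lf [(47, 3)])) .nil) .nil) (.nd 256 (.nd 128 (.nd 64 (.lf
  [(13, 13)]) .nil) (.nd 64 .nil (.lf [(19, 3)]))) (.nd 128 (.nd 64 .nil (.lf [(23, 3)])) (.nd 64 (.lf [(25, 3),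
  (37, 59)]) (.lf [(21, 0)])))))))) (.nd 4096 (.nd 2048 (.nd 1024 (.nd 512 (.nd 256 (.nd 128 .nil (.nd 64 (.lf
  [(39, 86981)]) .nil)) (.nd 128 .nil (.nd 64 (.lf [(5, 41)]) .nil))) (.nd 256 (.nd 128 (.nd 64 .nil (.lf [(11,
  107)])) .nil) (.nd 128 (.nd 64 (.lf [(23, 3)]) (.lf [(49, 281)])) .nil))) (.nd 512 (.nd 256 (.nd 128 (.nd 64
  .nil (.lf [(51, 7)])) (.nd 64 (.lf [(5, 11), (35, 1451)]) (.lf [(55, 131)]))) (.nd 128 (.nd 64 (.lf [(27,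
  37)]) .nil) (.nd 64 (.lf [(19, 7), (43, 5)]) .nil))) (.nd 256 (.nd 128 (.nd 64 (.lf [(41, 3)]) .nil) .nil)
  (.nd 128 .nil (.nd 64 (.lf [(17, 0), (47, 7)]) (.lf [(37, 14087)])))))) (.nd 1024 (.nd 512 (.nd 256 (.nd 128
  (.nd 64 (.lf [(51, 13)]) .nil) (.nd 64 (.lf [(31, 5), (61, 3)]) (.lf [(21, 5)]))) (.nd 128 (.nd 64 (.lf [(5,
  53), (17, 3)]) (.lf [(61, 5)])) (.nd 64 (.lf [(39, 3)]) (.lf [(23, 7)])))) (.nd 256 (.nd 128 (.nd 64 .nil (.lf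
  [(3, 13)])) .nil) (.nd 128 (.nd 64 (.lf [(63, 5)]) .nil) (.nd 64 .nil (.lf [(51, 7)]))))) (.nd 512 (.nd 256
  (.nd 128 (.nd 64 (.lf [(29, 5)]) (.lf [(55, 3)])) .nil) (.nd 128 (.nd 64 .nil (.lf [(9, 11)])) .nil)) (.nd 256
  (.nd 128 .nil (.nd 64 .nil (.lf [(45, 5)]))) (.nd 128 (.nd 64 .nil (.lf [(13, 9199)])) (.nd 64 (.lf [(3, 0)])
  .nil)))))) (.nd 2048 (.nd 1024 (.nd 512 (.nd 256 (.nd 128 (.nd 64 (.lf [(55, 3)]) .nil) (.nd 64 (.lf [(53,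
  29)]) (.lf [(43, 547)]))) (.nd 128 (.nd 64 (.lf [(27, 3)]) (.lf [(5, 3)])) (.nd 64 (.lf [(37, 3)]) .nil)))
  (.nd 256 (.nd 128 (.nd 64 (.lf [(11, 0)]) (.lf [(55, 3539959)])) (.nd 64 (.lf [(15, 5)]) (.lf [(29, 0)])))
  (.nd 128 (.nd 64 (.lf [(43, 31)]) (.lf [(9, 7)])) .nil))) (.nd 512 .nil (.nd 256 (.nd 128 .nil (.nd 64 .nil
  (.lf [(37, 1)]))) (.nd 128 .nil (.nd 64 .nil (.lf [(51, 0), (57, 13)])))))) (.nd 1024 (.nd 512 (.nd 256 (.nd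
  128 .nil (.nd 64 (.lf [(27, 3)]) .nil)) (.nd 128 (.nd 64 (.lf [(31, 0)]) .nil) (.nd 64 (.lf [(23, 0)]) (.lf
  [(37, 3541), (49, 1723)])))) (.nd 256 (.nd 128 (.nd 64 (.lf [(45, 11)]) .nil) (.nd 64 .nil (.lf [(51, 0)])))
  (.nd 128 (.nd 64 .nil (.lf [(31, 109)])) (.nd 64 (.lf [(21, 3)]) (.lf [(17, 17)]))))) (.nd 512 (.nd 256 (.nd
  128 (.nd 64 (.lf [(19, 59)]) (.lf [(57, 3)])) (.nd 64 .nil (.lf [(31, 3)]))) (.nd 128 (.nd 64 (.lf [(45, 3)])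
  (.lf [(53, 3)])) (.nd 64 (.lf [(55, 11)]) .nil))) (.nd 256 (.nd 128 .nil (.nd 64 (.lf [(3, 3)]) .nil)) (.nd
  128 (.nd 64 (.lf [(1, 3), (13, 643403)]) (.lf [(21, 5)])) (.nd 64 (.lf [(23, 3)]) .nil)))))))) (.nd 8192 (.nd
  4096 (.nd 2048 (.nd 1024 (.nd 512 (.nd 256 (.nd 128 (.nd 64 (.lf [(9, 17), (45, 3)]) .nil) (.nd 64 .nil (.lf
  [(15, 5)]))) (.nd 128 .nil (.nd 64 .nil (.lf [(59, 127)])))) (.nd 256 (.nd 128 (.nd 64 .nil (.lf [(3, 3), (33,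
  11)])) (.nd 64 (.lf [(35, 3778399)]) (.lf [(43, 199)]))) (.nd 128 .nil (.nd 64 (.lf [(31, 191), (49, 439)])
  (.lf [(9, 3)]))))) (.nd 512 (.nd 256 (.nd 128 (.nd 64 .nil (.lf [(1, 3)])) .nil) (.nd 128 (.nd 64 (.lf [(25,
  941)]) (.lf [(45, 3)])) .nil)) (.nd 256 (.nd 128 (.nd 64 .nil (.lf [(5, 37), (59, 3)])) .nil) (.nd 128 (.nd 64
  (.lf [(23, 5)]) (.lf [(13, 3)])) (.nd 64 .nil (.lf [(23, 2663)])))))) (.nd 1024 (.nd 512 (.nd 256 (.nd 128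
  (.nd 64 (.lf [(19, 92993), (31, 5)]) (.lf [(27, 5)])) (.nd 64 .nil (.lf [(19, 3), (37, 3)]))) (.nd 128 .nil
  (.nd 64 (.lf [(55, 3)]) .nil))) (.nd 256 (.nd 128 (.nd 64 .nil (.lf [(25, 31)])) .nil) (.nd 128 (.nd 64 (.lf
  [(49, 337)]) (.lf [(39, 5939), (57, 3)])) .nil))) (.nd 512 (.nd 256 (.nd 128 (.nd 64 (.lf [(33, 7)]) (.lf
  [(53, 3)])) (.nd 64 (.lf [(37, 3)]) .nil)) (.nd 128 (.nd 64 .nil (.lf [(7, 3), (55, 31)])) (.nd 64 (.lf [(21,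
  3), (63, 3)]) (.lf [(29, 3), (47, 727)])))) (.nd 256 (.nd 128 (.nd 64 .nil (.lf [(39, 61), (57, 7)])) (.nd 64
  .nil (.lf [(13, 5), (43, 67)]))) (.nd 128 (.nd 64 .nil (.lf [(5, 11)])) (.nd 64 (.lf [(1, 3)]) (.lf [(45,
  3)]))))))) (.nd 2048 (.nd 1024 (.nd 512 (.nd 256 (.nd 128 (.nd 64 (.lf [(23, 5)]) (.lf [(19, 11)])) (.nd 64
  (.lf [(51, 0)]) .nil)) (.nd 128 (.nd 64 (.lf [(13, 3), (25, 19)]) .nil) (.nd 64 (.lf [(35, 3)]) (.lf [(31,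
  3)])))) (.nd 256 (.nd 128 .nil (.nd 64 (.lf [(43, 13)]) (.lf [(27, 3)]))) (.nd 128 .nil (.nd 64 (.lf [(45,
  5)]) .nil)))) (.nd 512 (.nd 256 (.nd 128 .nil (.nd 64 (.lf [(41, 757019)]) (.lf [(25, 3)]))) (.nd 128 (.nd 64
  (.lf [(21, 7)]) .nil) (.nd 64 (.lf [(1, 29)]) (.lf [(9, 1699), (57, 29)])))) (.nd 256 (.nd 128 (.nd 64 (.lf
  [(47, 3)]) (.lf [(61, 29)])) (.nd 64 .nil (.lf [(35, 11)]))) (.nd 128 (.nd 64 (.lf [(1, 13), (31, 5)]) (.lf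
  [(33, 13), (45, 0)])) .nil)))) (.nd 1024 (.nd 512 (.nd 256 (.nd 128 (.nd 64 (.lf [(51, 3)]) .nil) .nil) (.nd
  128 .nil (.nd 64 .nil (.lf [(53, 7)])))) (.nd 256 (.nd 128 (.nd 64 (.lf [(13, 3)]) (.lf [(39, 17)])) (.nd 64
  .nil (.lf [(37, 31)]))) (.nd 128 (.nd 64 (.lf [(63, 29)]) (.lf [(41, 3)])) (.nd 64 (.lf [(49, 5)]) (.lf [(33,
  5)]))))) (.nd 512 (.nd 256 (.nd 128 (.nd 64 (.lf [(59, 5)]) .nil) (.nd 64 (.lf [(21, 3), (33, 3)]) .nil)) (.nd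
  128 (.nd 64 (.lf [(61, 3)]) (.lf [(21, 17), (51, 11)])) .nil)) (.nd 256 (.nd 128 (.nd 64 (.lf [(9, 3), (57,
  2819)]) .nil) (.nd 64 (.lf [(7, 2633)]) (.lf [(27, 4140947)]))) (.nd 128 .nil (.nd 64 .nil (.lf [(17,
  3)])))))))) (.nd 4096 (.nd 2048 (.nd 1024 (.nd 512 (.nd 256 (.nd 128 .nil (.nd 64 (.lf [(47, 0)]) .nil)) (.nd
  128 (.nd 64 .nil (.lf [(53, 5)])) (.nd 64 .nil (.lf [(15, 3)])))) (.nd 256 (.nd 128 (.nd 64 .nil (.lf [(1, 5),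
  (19, 13), (31, 3)])) (.nd 64 (.lf [(33, 3)]) .nil)) (.nd 128 (.nd 64 (.lf [(7, 5), (19, 61)]) (.lf [(3, 3),
  (45, 17)])) (.nd 64 (.lf [(29, 5)]) (.lf [(7, 5)]))))) (.nd 512 (.nd 256 (.nd 128 (.nd 64 (.lf [(33, 2099)])
  .nil) (.nd 64 .nil (.lf [(9, 7)]))) (.nd 128 (.nd 64 (.lf [(17, 3), (53, 3)]) (.lf [(19, 137), (49, 149)]))
  (.nd 64 (.lf [(15, 0), (39, 3)]) .nil))) (.nd 256 (.nd 128 (.nd 64 .nil (.lf [(3, 242819), (27, 11)])) (.nd 64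
  .nil (.lf [(25, 3613)]))) (.nd 128 .nil (.nd 64 .nil (.lf [(9, 3)])))))) (.nd 1024 (.nd 512 (.nd 256 .nil (.nd
  128 (.nd 64 (.lf [(1, 3), (13, 5)]) (.lf [(27, 137)])) (.nd 64 (.lf [(23, 31531)]) .nil))) (.nd 256 (.nd 128
  (.nd 64 (.lf [(63, 5)]) .nil) (.nd 64 .nil (.lf [(63, 3)]))) (.nd 128 (.nd 64 .nil (.lf [(37, 97)])) (.nd 64
  .nil (.lf [(47, 89)]))))) (.nd 512 (.nd 256 (.nd 128 (.nd 64 (.lf [(55, 5)]) .nil) (.nd 64 .nil (.lf [(43,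
  5)]))) (.nd 128 (.nd 64 (.lf [(9, 3), (39, 11)]) .nil) .nil)) (.nd 256 (.nd 128 (.nd 64 (.lf [(23, 3), (59,
  79)]) .nil) (.nd 64 (.lf [(3, 31)]) .nil)) (.nd 128 (.nd 64 .nil (.lf [(51, 0)])) (.nd 64 (.lf [(59, 3)]) (.lf
  [(61, 3)]))))))) (.nd 2048 (.nd 1024 (.nd 512 (.nd 256 (.nd 128 (.nd 64 .nil (.lf [(17, 13), (35, 5)])) .nil)
  (.nd 128 (.nd 64 (.lf [(11, 3)]) .nil) .nil)) (.nd 256 .nil (.nd 128 (.nd 64 (.lf [(3, 3)]) (.lf [(17, 11),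
  (35, 797711)])) .nil))) (.nd 512 (.nd 256 (.nd 128 (.nd 64 (.lf [(47, 7)]) (.lf [(31, 0)])) .nil) (.nd 128
  .nil (.nd 64 .nil (.lf [(55, 3)])))) (.nd 256 (.nd 128 (.nd 64 .nil (.lf [(17, 7)])) (.nd 64 .nil (.lf [(21,
  11)]))) (.nd 128 (.nd 64 (.lf [(29, 157)]) (.lf [(31, 5)])) (.nd 64 .nil (.lf [(53, 373)])))))) (.nd 1024 (.nd
  512 (.nd 256 (.nd 128 (.nd 64 .nil (.lf [(9, 41), (15, 3)])) (.nd 64 (.lf [(35, 3)]) (.lf [(1, 3)]))) (.nd 128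
  .nil (.nd 64 .nil (.lf [(33, 0)])))) (.nd 256 (.nd 128 .nil (.nd 64 (.lf [(63, 7)]) .nil)) (.nd 128 (.nd 64
  .nil (.lf [(39, 5), (57, 3)])) .nil))) (.nd 512 (.nd 256 (.nd 128 (.nd 64 .nil (.lf [(53, 5)])) .nil) (.nd 128
  (.nd 64 .nil (.lf [(7, 563)])) (.nd 64 .nil (.lf [(17, 0)])))) (.nd 256 (.nd 128 (.nd 64 (.lf [(13, 3)]) .nil)
  .nil) (.nd 128 .nil (.nd 64 (.lf [(1, 0)]) (.lf [(15, 242371), (39, 7)])))))))))) (.nd 16384 (.nd 8192 (.nd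
  4096 (.nd 2048 (.nd 1024 (.nd 512 (.nd 256 (.nd 128 (.nd 64 .nil (.lf [(61, 109)])) (.nd 64 (.lf [(57, 7)])
  .nil)) (.nd 128 (.nd 64 (.lf [(37, 7)]) .nil) .nil)) (.nd 256 (.nd 128 (.nd 64 (.lf [(51, 3)]) (.lf [(17,
  3)])) (.nd 64 .nil (.lf [(39, 29)]))) .nil)) (.nd 512 (.nd 256 .nil (.nd 128 (.nd 64 (.lf [(51, 0)]) .nil)
  (.nd 64 (.lf [(7, 3)]) .nil))) (.nd 256 (.nd 128 (.nd 64 (.lf [(35, 3)]) .nil) (.nd 64 .nil (.lf [(23,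
  1871)]))) (.nd 128 (.nd 64 (.lf [(61, 13)]) (.lf [(27, 59)])) (.nd 64 (.lf [(5, 3)]) .nil))))) (.nd 1024 (.nd
  512 (.nd 256 (.nd 128 (.nd 64 (.lf [(27, 13)]) (.lf [(59, 3)])) .nil) (.nd 128 (.nd 64 (.lf [(41, 3), (47,
  37)]) (.lf [(43, 71)])) (.nd 64 (.lf [(21, 0)]) (.lf [(29, 107)])))) (.nd 256 (.nd 128 (.nd 64 (.lf [(31, 3)])
  .nil) .nil) (.nd 128 (.nd 64 (.lf [(27, 11)]) (.lf [(11, 3)])) .nil))) (.nd 512 (.nd 256 .nil (.nd 128 .nil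
  (.nd 64 (.lf [(17, 5), (29, 3), (35, 11)]) .nil))) (.nd 256 (.nd 128 (.nd 64 (.lf [(21, 5), (57, 51427)])
  .nil) .nil) (.nd 128 (.nd 64 (.lf [(41, 3)]) .nil) .nil))))) (.nd 2048 (.nd 1024 (.nd 512 (.nd 256 (.nd 128
  (.nd 64 (.lf [(49, 179)]) (.lf [(33, 13)])) .nil) (.nd 128 (.nd 64 (.lf [(3, 11)]) .nil) (.nd 64 .nil (.lf
  [(27, 5)])))) (.nd 256 (.nd 128 .nil (.nd 64 (.lf [(9, 3529), (27, 47)]) .nil)) (.nd 128 (.nd 64 .nil (.lf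
  [(15, 1433), (33, 7)])) (.nd 64 (.lf [(53, 17)]) .nil)))) (.nd 512 (.nd 256 (.nd 128 (.nd 64 .nil (.lf [(17,
  221677), (29, 3)])) (.nd 64 .nil (.lf [(21, 7)]))) .nil) (.nd 256 (.nd 128 (.nd 64 .nil (.lf [(15, 5)])) (.nd
  64 (.lf [(23, 13)]) (.lf [(61, 42967)]))) (.nd 128 .nil (.nd 64 (.lf [(7, 97), (49, 13)]) (.lf [(51,
  37)])))))) (.nd 1024 (.nd 512 (.nd 256 (.nd 128 (.nd 64 (.lf [(29, 3539)]) (.lf [(13, 3)])) (.nd 64 .nil (.lf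
  [(35, 191)]))) (.nd 128 (.nd 64 (.lf [(43, 233)]) .nil) .nil)) (.nd 256 (.nd 128 (.nd 64 (.lf [(9, 3)]) .nil)
  (.nd 64 (.lf [(19, 3)]) (.lf [(57, 0)]))) .nil)) (.nd 512 (.nd 256 (.nd 128 (.nd 64 (.lf [(55, 5)]) (.lf [(39,
  389)])) (.nd 64 (.lf [(17, 3)]) (.lf [(61, 3)]))) (.nd 128 (.nd 64 (.lf [(27, 1613), (39, 3)]) .nil) (.nd 64
  (.lf [(1, 13)]) (.lf [(15, 3)])))) (.nd 256 (.nd 128 (.nd 64 (.lf [(53, 83)]) .nil) (.nd 64 (.lf [(45, 7)])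
  .nil)) .nil))))) (.nd 4096 (.nd 2048 (.nd 1024 (.nd 512 (.nd 256 (.nd 128 (.nd 64 (.lf [(33, 3)]) (.lf [(59,
  5)])) (.nd 64 .nil (.lf [(57, 3)]))) (.nd 128 (.nd 64 (.lf [(35, 347)]) (.lf [(31, 5), (43, 3), (61, 3)]))
  .nil)) (.nd 256 (.nd 128 (.nd 64 (.lf [(7, 7)]) .nil) .nil) (.nd 128 .nil (.nd 64 (.lf [(13, 3), (25, 307)])
  (.lf [(9, 11), (63, 3)]))))) (.nd 512 (.nd 256 (.nd 128 (.nd 64 .nil (.lf [(43, 19)])) (.nd 64 (.lf [(57, 3)])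
  (.lf [(47, 19)]))) (.nd 128 (.nd 64 (.lf [(49, 0)]) (.lf [(27, 0)])) (.nd 64 (.lf [(23, 113), (53, 13)])
  .nil))) (.nd 256 (.nd 128 (.nd 64 .nil (.lf [(53, 5)])) .nil) (.nd 128 (.nd 64 (.lf [(17, 3), (41, 3)]) .nil)
  .nil)))) (.nd 1024 (.nd 512 (.nd 256 (.nd 128 .nil (.nd 64 .nil (.lf [(1, 9421), (13, 5)]))) .nil) (.nd 256
  (.nd 128 (.nd 64 .nil (.lf [(19, 1123)])) (.nd 64 .nil (.lf [(17, 3)]))) (.nd 128 (.nd 64 (.lf [(43, 53)])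
  .nil) (.nd 64 .nil (.lf [(61, 61)]))))) (.nd 512 (.nd 256 (.nd 128 .nil (.nd 64 (.lf [(31, 3)]) .nil)) (.nd
  128 (.nd 64 (.lf [(5, 79), (35, 61)]) (.lf [(49, 3)])) (.nd 64 .nil (.lf [(53, 3)])))) (.nd 256 (.nd 128 (.nd
  64 .nil (.lf [(3, 3)])) (.nd 64 (.lf [(11, 3), (17, 3), (59, 23)]) (.lf [(7, 5)]))) (.nd 128 (.nd 64 .nil (.lf
  [(47, 3)])) (.nd 64 .nil (.lf [(27, 4297)]))))))) (.nd 2048 (.nd 1024 (.nd 512 (.nd 256 (.nd 128 (.nd 64 (.lf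
  [(5, 5)]) (.lf [(43, 3)])) (.nd 64 .nil (.lf [(35, 7)]))) (.nd 128 .nil (.nd 64 (.lf [(29, 3)]) (.lf [(37,
  3)])))) (.nd 256 (.nd 128 .nil (.nd 64 (.lf [(7, 1), (37, 3)]) .nil)) (.nd 128 (.nd 64 .nil (.lf [(13, 29)]))
  (.nd 64 .nil (.lf [(53, 271231)]))))) (.nd 512 (.nd 256 (.nd 128 (.nd 64 (.lf [(19, 29), (31, 3)]) .nil) (.nd
  64 (.lf [(35, 5)]) .nil)) (.nd 128 (.nd 64 (.lf [(45, 3)]) (.lf [(23, 3)])) (.nd 64 .nil (.lf [(51, 5)]))))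
  (.nd 256 (.nd 128 .nil (.nd 64 (.lf [(39, 3)]) .nil)) (.nd 128 (.nd 64 (.lf [(31, 3)]) .nil) (.nd 64 .nil (.lf
  [(49, 13)])))))) (.nd 1024 (.nd 512 (.nd 256 (.nd 128 (.nd 64 .nil (.lf [(5, 5)])) (.nd 64 (.lf [(61, 7)])
  (.lf [(45, 29)]))) (.nd 128 (.nd 64 (.lf [(11, 0), (29, 11)]) .nil) .nil)) (.nd 256 (.nd 128 (.nd 64 .nil (.lf
  [(3, 13)])) (.nd 64 (.lf [(5, 3), (35, 37), (59, 5)]) .nil)) (.nd 128 (.nd 64 (.lf [(9, 7)]) .nil) (.nd 64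
  (.lf [(13, 157667), (49, 3)]) (.lf [(9, 3)]))))) (.nd 512 (.nd 256 .nil (.nd 128 (.nd 64 (.lf [(55, 11)]) (.lf
  [(3, 11329)])) (.nd 64 (.lf [(41, 0)]) .nil))) (.nd 256 (.nd 128 (.nd 64 (.lf [(51, 3)]) .nil) (.nd 64 .nil
  (.lf [(57, 3)]))) (.nd 128 (.nd 64 .nil (.lf [(61, 3)])) (.nd 64 (.lf [(39, 5)]) (.lf [(35, 421), (53,
  797)]))))))))) (.nd 8192 (.nd 4096 (.nd 2048 (.nd 1024 (.nd 512 (.nd 256 (.nd 128 .nil (.nd 64 (.lf [(41, 3)])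
  (.lf [(19, 431)]))) (.nd 128 (.nd 64 (.lf [(21, 13)]) (.lf [(29, 7), (47, 59)])) (.nd 64 (.lf [(7, 3)])
  .nil))) (.nd 256 (.nd 128 .nil (.nd 64 .nil (.lf [(23, 11)]))) (.nd 128 (.nd 64 (.lf [(1, 3), (13, 7)]) (.lf
  [(9, 3), (39, 5)])) (.nd 64 (.lf [(11, 3)]) (.lf [(1, 3)]))))) (.nd 512 (.nd 256 (.nd 128 (.nd 64 (.lf [(15,
  13)]) .nil) (.nd 64 (.lf [(49, 919)]) .nil)) (.nd 128 .nil (.nd 64 (.lf [(21, 3), (63, 3)]) .nil))) (.nd 256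
  (.nd 128 (.nd 64 (.lf [(31, 3)]) (.lf [(39, 3)])) (.nd 64 .nil (.lf [(31, 2111)]))) (.nd 128 (.nd 64 (.lf [(9,
  0), (27, 61), (57, 3)]) .nil) (.nd 64 (.lf [(7, 19)]) (.lf [(57, 3)])))))) (.nd 1024 (.nd 512 (.nd 256 (.nd
  128 .nil (.nd 64 (.lf [(45, 3)]) .nil)) (.nd 128 (.nd 64 .nil (.lf [(63, 59)])) (.nd 64 .nil (.lf [(13,
  5)])))) (.nd 256 (.nd 128 (.nd 64 (.lf [(27, 3), (39, 29)]) .nil) (.nd 64 (.lf [(31, 3)]) .nil)) (.nd 128 (.nd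
  64 (.lf [(23, 11)]) (.lf [(19, 7)])) (.nd 64 (.lf [(27, 5)]) .nil)))) (.nd 512 (.nd 256 (.nd 128 (.nd 64 (.lf
  [(7, 5), (25, 761)]) (.lf [(45, 3)])) (.nd 64 (.lf [(47, 3)]) (.lf [(13, 3), (25, 0), (55, 5)]))) (.nd 128
  (.nd 64 (.lf [(63, 3)]) .nil) (.nd 64 .nil (.lf [(39, 3)])))) (.nd 256 (.nd 128 (.nd 64 .nil (.lf [(1, 18749),
  (49, 11), (61, 13)])) (.nd 64 (.lf [(39, 3)]) .nil)) (.nd 128 (.nd 64 (.lf [(37, 3)]) (.lf [(45, 3)])) (.nd 64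
  (.lf [(59, 3)]) (.lf [(55, 7)]))))))) (.nd 2048 (.nd 1024 (.nd 512 (.nd 256 (.nd 128 (.nd 64 (.lf [(21, 1307),
  (45, 269)]) .nil) (.nd 64 .nil (.lf [(51, 3)]))) (.nd 128 .nil (.nd 64 (.lf [(27, 3)]) .nil))) (.nd 256 (.nd
  128 (.nd 64 (.lf [(1, 5), (49, 2668577)]) .nil) (.nd 64 (.lf [(11, 17)]) .nil)) .nil)) (.nd 512 (.nd 256 (.nd
  128 (.nd 64 (.lf [(17, 3)]) .nil) (.nd 64 .nil (.lf [(47, 3)]))) (.nd 128 .nil (.nd 64 .nil (.lf [(13, 47),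
  (31, 7)])))) (.nd 256 (.nd 128 (.nd 64 (.lf [(39, 3)]) .nil) (.nd 64 (.lf [(19, 97), (61, 3)]) .nil)) (.nd 128
  (.nd 64 (.lf [(29, 331)]) .nil) (.nd 64 .nil (.lf [(47, 3)])))))) (.nd 1024 (.nd 512 (.nd 256 (.nd 128 .nil
  (.nd 64 (.lf [(17, 1861)]) .nil)) (.nd 128 (.nd 64 (.lf [(27, 13)]) (.lf [(47, 3)])) .nil)) (.nd 256 (.nd 128
  (.nd 64 .nil (.lf [(31, 37)])) (.nd 64 (.lf [(3, 5), (15, 3), (57, 7)]) (.lf [(29, 5)]))) (.nd 128 .nil (.nd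
  64 (.lf [(11, 11), (47, 11)]) (.lf [(25, 3)]))))) (.nd 512 (.nd 256 (.nd 128 (.nd 64 (.lf [(39, 3)]) (.lf
  [(29, 919)])) (.nd 64 (.lf [(1, 7)]) .nil)) .nil) (.nd 256 (.nd 128 (.nd 64 .nil (.lf [(57, 11)])) (.nd 64
  .nil (.lf [(49, 0)]))) .nil))))) (.nd 4096 (.nd 2048 (.nd 1024 (.nd 512 (.nd 256 (.nd 128 (.nd 64 .nil (.lf
  [(13, 13)])) (.nd 64 (.lf [(9, 3)]) (.lf [(17, 3)]))) (.nd 128 .nil (.nd 64 .nil (.lf [(1, 7), (7, 17)]))))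
  (.nd 256 (.nd 128 (.nd 64 (.lf [(33, 41)]) .nil) (.nd 64 .nil (.lf [(33, 3)]))) (.nd 128 (.nd 64 (.lf [(17,
  13)]) .nil) (.nd 64 .nil (.lf [(5, 3)]))))) (.nd 512 (.nd 256 (.nd 128 (.nd 64 (.lf [(25, 3)]) (.lf [(27,
  3)])) .nil) (.nd 128 (.nd 64 .nil (.lf [(11, 3)])) (.nd 64 .nil (.lf [(33, 23)])))) (.nd 256 (.nd 128 (.nd 64
  .nil (.lf [(37, 3)])) (.nd 64 .nil (.lf [(17, 3)]))) (.nd 128 (.nd 64 (.lf [(37, 3)]) (.lf [(3, 3), (63, 7)]))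
  (.nd 64 .nil (.lf [(25, 3), (43, 0)])))))) (.nd 1024 (.nd 512 (.nd 256 .nil (.nd 128 .nil (.nd 64 (.lf [(27,
  3)]) (.lf [(23, 3)])))) (.nd 256 (.nd 128 (.nd 64 .nil (.lf [(33, 5)])) (.nd 64 .nil (.lf [(13, 7)]))) (.nd
  128 (.nd 64 (.lf [(33, 3)]) (.lf [(29, 3), (59, 5)])) .nil))) (.nd 512 (.nd 256 (.nd 128 (.nd 64 (.lf [(35,
  9433), (47, 3)]) .nil) .nil) (.nd 128 (.nd 64 .nil (.lf [(3, 23), (45, 167)])) .nil)) (.nd 256 (.nd 128 .nil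
  (.nd 64 (.lf [(13, 0), (37, 5)]) (.lf [(3, 7)]))) (.nd 128 (.nd 64 (.lf [(17, 31), (47, 19)]) (.lf [(31,
  31)])) (.nd 64 (.lf [(21, 5)]) (.lf [(35, 3)]))))))) (.nd 2048 (.nd 1024 (.nd 512 (.nd 256 (.nd 128 (.nd 64
  .nil (.lf [(39, 3)])) .nil) (.nd 128 .nil (.nd 64 .nil (.lf [(3, 5)])))) (.nd 256 (.nd 128 (.nd 64 (.lf [(41,
  3)]) .nil) .nil) (.nd 128 (.nd 64 .nil (.lf [(27, 53)])) (.nd 64 (.lf [(35, 3)]) .nil)))) (.nd 512 (.nd 256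
  (.nd 128 (.nd 64 (.lf [(39, 0)]) .nil) (.nd 64 (.lf [(1, 0)]) (.lf [(3, 43)]))) (.nd 128 (.nd 64 (.lf [(41,
  293)]) (.lf [(55, 11)])) .nil)) (.nd 256 (.nd 128 .nil (.nd 64 (.lf [(59, 534241)]) .nil)) (.nd 128 .nil (.nd
  64 (.lf [(31, 3)]) .nil))))) (.nd 1024 (.nd 512 (.nd 256 (.nd 128 (.nd 64 (.lf [(23, 3)]) (.lf [(7, 41), (37,
  11)])) (.nd 64 .nil (.lf [(41, 3)]))) (.nd 128 (.nd 64 (.lf [(37, 3)]) .nil) (.nd 64 (.lf [(11, 3)]) .nil)))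
  (.nd 256 (.nd 128 (.nd 64 (.lf [(51, 0)]) (.lf [(29, 277859)])) .nil) .nil)) (.nd 512 (.nd 256 (.nd 128 (.nd
  64 .nil (.lf [(45, 53)])) .nil) (.nd 128 (.nd 64 .nil (.lf [(11, 0), (41, 3)])) (.nd 64 .nil (.lf [(9, 3),
  (51, 79)])))) (.nd 256 (.nd 128 (.nd 64 .nil (.lf [(13, 3), (61, 7)])) (.nd 64 (.lf [(57, 5)]) (.lf [(35, 5),
  (53, 5)]))) (.nd 128 (.nd 64 (.lf [(31, 0)]) (.lf [(15, 13)])) (.nd 64 .nil (.lf [(7, 7)])))))))))))) (.nd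
  65536 (.nd 32768 (.nd 16384 (.nd 8192 (.nd 4096 (.nd 2048 (.nd 1024 (.nd 512 (.nd 256 (.nd 128 (.nd 64 (.lf
  [(27, 5)]) .nil) .nil) (.nd 128 (.nd 64 .nil (.lf [(37, 0)])) (.nd 64 (.lf [(63, 3)]) .nil))) (.nd 256 (.nd
  128 (.nd 64 (.lf [(1, 7)]) .nil) (.nd 64 .nil (.lf [(1, 7)]))) (.nd 128 (.nd 64 (.lf [(9, 3), (57, 7)]) .nil)
  (.nd 64 (.lf [(61, 13)]) (.lf [(3, 3), (33, 17)]))))) (.nd 512 (.nd 256 (.nd 128 (.nd 64 (.lf [(11, 0), (53,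
  19)]) (.lf [(55, 3)])) (.nd 64 (.lf [(63, 3)]) .nil)) (.nd 128 (.nd 64 .nil (.lf [(63, 3)])) (.nd 64 .nil (.lf
  [(31, 1)])))) (.nd 256 (.nd 128 (.nd 64 (.lf [(51, 3)]) .nil) (.nd 64 .nil (.lf [(15, 3)]))) (.nd 128 (.nd 64
  (.lf [(41, 3)]) .nil) (.nd 64 .nil (.lf [(41, 3)])))))) (.nd 1024 (.nd 512 (.nd 256 (.nd 128 (.nd 64 (.lf [(7,
  3), (37, 0)]) (.lf [(21, 13)])) .nil) (.nd 128 (.nd 64 (.lf [(33, 17)]) .nil) (.nd 64 (.lf [(13, 25147)])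
  .nil))) (.nd 256 (.nd 128 (.nd 64 (.lf [(53, 3)]) .nil) (.nd 64 (.lf [(27, 3)]) (.lf [(41, 761)]))) (.nd 128
  (.nd 64 .nil (.lf [(3, 3)])) .nil))) (.nd 512 (.nd 256 (.nd 128 (.nd 64 (.lf [(3, 5), (33, 3)]) (.lf [(11,
  7)])) .nil) (.nd 128 .nil (.nd 64 (.lf [(21, 5)]) (.lf [(47, 61)])))) (.nd 256 (.nd 128 (.nd 64 .nil (.lf
  [(15, 3), (27, 19)])) (.nd 64 (.lf [(5, 3)]) .nil)) (.nd 128 (.nd 64 (.lf [(57, 5)]) .nil) (.nd 64 (.lf [(19,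
  31)]) (.lf [(63, 2539)]))))))) (.nd 2048 (.nd 1024 (.nd 512 (.nd 256 .nil (.nd 128 (.nd 64 (.lf [(25, 7)])
  .nil) (.nd 64 (.lf [(5, 3), (53, 5)]) (.lf [(43, 5)])))) (.nd 256 (.nd 128 (.nd 64 (.lf [(39, 3)]) (.lf [(41,
  3)])) (.nd 64 (.lf [(49, 1811)]) .nil)) (.nd 128 (.nd 64 .nil (.lf [(19, 7), (49, 226799)])) .nil))) (.nd 512
  (.nd 256 (.nd 128 (.nd 64 (.lf [(55, 113)]) .nil) (.nd 64 .nil (.lf [(1, 17)]))) (.nd 128 (.nd 64 (.lf [(39,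
  3)]) .nil) (.nd 64 .nil (.lf [(15, 3365581)])))) (.nd 256 (.nd 128 .nil (.nd 64 (.lf [(15, 5), (33, 3), (45,
  3)]) .nil)) (.nd 128 (.nd 64 .nil (.lf [(63, 13)])) (.nd 64 (.lf [(41, 547)]) .nil))))) (.nd 1024 (.nd 512
  (.nd 256 (.nd 128 (.nd 64 (.lf [(21, 5)]) (.lf [(17, 211)])) .nil) (.nd 128 (.nd 64 .nil (.lf [(43, 11)]))
  .nil)) (.nd 256 (.nd 128 (.nd 64 .nil (.lf [(63, 83)])) (.nd 64 (.lf [(11, 197), (53, 5)]) (.lf [(49, 3)])))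
  (.nd 128 (.nd 64 (.lf [(15, 3)]) (.lf [(47, 3)])) (.nd 64 .nil (.lf [(33, 3)]))))) (.nd 512 (.nd 256 (.nd 128
  (.nd 64 (.lf [(35, 3)]) .nil) (.nd 64 (.lf [(9, 3)]) .nil)) (.nd 128 (.nd 64 (.lf [(19, 3), (31, 709), (61,
  3)]) .nil) (.nd 64 (.lf [(41, 3)]) (.lf [(61, 3)])))) (.nd 256 (.nd 128 (.nd 64 .nil (.lf [(23, 3)])) (.nd 64
  .nil (.lf [(3, 5), (33, 2999)]))) (.nd 128 (.nd 64 .nil (.lf [(13, 3)])) (.nd 64 (.lf [(21, 3)]) (.lf [(59,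
  7)])))))))) (.nd 4096 (.nd 2048 (.nd 1024 (.nd 512 (.nd 256 (.nd 128 (.nd 64 (.lf [(31, 3)]) (.lf [(57, 13)]))
  .nil) (.nd 128 .nil (.nd 64 (.lf [(31, 5)]) .nil))) (.nd 256 (.nd 128 (.nd 64 (.lf [(11, 3), (41, 0)]) (.lf
  [(49, 0)])) .nil) (.nd 128 .nil (.nd 64 (.lf [(47, 7)]) (.lf [(25, 3), (55, 3)]))))) (.nd 512 (.nd 256 (.nd
  128 .nil (.nd 64 (.lf [(1, 0), (49, 3)]) .nil)) (.nd 128 (.nd 64 .nil (.lf [(31, 3)])) .nil)) (.nd 256 (.nd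
  128 (.nd 64 .nil (.lf [(21, 3)])) (.nd 64 .nil (.lf [(13, 7)]))) (.nd 128 .nil (.nd 64 .nil (.lf [(21,
  29)])))))) (.nd 1024 (.nd 512 (.nd 256 (.nd 128 .nil (.nd 64 (.lf [(45, 3)]) .nil)) (.nd 128 (.nd 64 (.lf [(1,
  3), (31, 3)]) .nil) (.nd 64 (.lf [(11, 3)]) .nil))) (.nd 256 (.nd 128 (.nd 64 (.lf [(33, 137)]) .nil) (.nd 64
  (.lf [(37, 3)]) .nil)) (.nd 128 .nil (.nd 64 .nil (.lf [(5, 37)]))))) (.nd 512 (.nd 256 (.nd 128 (.nd 64 (.lf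
  [(43, 3)]) .nil) (.nd 64 (.lf [(53, 17)]) (.lf [(61, 5)]))) (.nd 128 (.nd 64 .nil (.lf [(59, 0)])) (.nd 64
  (.lf [(7, 113)]) .nil))) (.nd 256 (.nd 128 (.nd 64 .nil (.lf [(43, 0)])) (.nd 64 .nil (.lf [(29, 3)]))) (.nd
  128 (.nd 64 (.lf [(43, 3), (55, 3)]) (.lf [(27, 43)])) (.nd 64 (.lf [(17, 7)]) (.lf [(19, 331)]))))))) (.nd
  2048 (.nd 1024 (.nd 512 (.nd 256 (.nd 128 (.nd 64 (.lf [(15, 67)]) .nil) .nil) (.nd 128 .nil (.nd 64 (.lf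
  [(21, 19)]) .nil))) (.nd 256 (.nd 128 (.nd 64 (.lf [(43, 0)]) (.lf [(9, 61)])) (.nd 64 (.lf [(5, 7)]) (.lf
  [(55, 29)]))) .nil)) (.nd 512 (.nd 256 (.nd 128 .nil (.nd 64 .nil (.lf [(53, 3)]))) (.nd 128 (.nd 64 .nil (.lf
  [(51, 16097)])) (.nd 64 .nil (.lf [(13, 7), (55, 7)])))) (.nd 256 (.nd 128 (.nd 64 (.lf [(3, 3)]) (.lf [(35,
  7)])) (.nd 64 .nil (.lf [(9, 137), (21, 5)]))) (.nd 128 (.nd 64 (.lf [(23, 83)]) .nil) (.nd 64 (.lf [(9, 97),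
  (15, 3)]) (.lf [(5, 3)])))))) (.nd 1024 (.nd 512 (.nd 256 (.nd 128 (.nd 64 (.lf [(37, 13), (49, 5), (61, 11)])
  .nil) (.nd 64 (.lf [(11, 11)]) .nil)) (.nd 128 (.nd 64 (.lf [(45, 7)]) .nil) (.nd 64 .nil (.lf [(9, 3), (33,
  3), (63, 0)])))) (.nd 256 (.nd 128 .nil (.nd 64 (.lf [(9, 3)]) (.lf [(17, 3), (35, 13)]))) (.nd 128 .nil (.nd
  64 (.lf [(23, 167)]) .nil)))) (.nd 512 (.nd 256 (.nd 128 (.nd 64 (.lf [(3, 11), (45, 3)]) (.lf [(59, 23)]))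
  (.nd 64 (.lf [(19, 3)]) .nil)) (.nd 128 (.nd 64 .nil (.lf [(7, 5), (55, 179)])) .nil)) (.nd 256 .nil (.nd 128
  .nil (.nd 64 .nil (.lf [(27, 3), (57, 3)]))))))))) (.nd 8192 (.nd 4096 (.nd 2048 (.nd 1024 (.nd 512 (.nd 256
  (.nd 128 (.nd 64 (.lf [(59, 7)]) (.lf [(55, 5)])) (.nd 64 (.lf [(63, 3)]) .nil)) (.nd 128 (.nd 64 (.lf [(13,
  3)]) (.lf [(21, 0), (33, 3), (63, 0)])) (.nd 64 .nil (.lf [(43, 13)])))) (.nd 256 (.nd 128 (.nd 64 .nil (.lf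
  [(47, 139)])) (.nd 64 .nil (.lf [(39, 3), (45, 3)]))) (.nd 128 .nil (.nd 64 (.lf [(15, 5), (45, 71), (57, 3)])
  .nil)))) (.nd 512 (.nd 256 (.nd 128 (.nd 64 .nil (.lf [(51, 3)])) (.nd 64 .nil (.lf [(25, 0)]))) (.nd 128 .nil
  (.nd 64 (.lf [(13, 0)]) .nil))) (.nd 256 (.nd 128 (.nd 64 .nil (.lf [(31, 17)])) .nil) (.nd 128 (.nd 64 (.lf
  [(1, 3), (37, 3)]) (.lf [(15, 0)])) .nil)))) (.nd 1024 (.nd 512 (.nd 256 (.nd 128 (.nd 64 (.lf [(3, 53), (15,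
  7)]) (.lf [(47, 3)])) (.nd 64 (.lf [(25, 131), (55, 13)]) .nil)) (.nd 128 (.nd 64 (.lf [(35, 7)]) (.lf [(1,
  251), (55, 11)])) (.nd 64 .nil (.lf [(5, 5), (47, 23)])))) (.nd 256 (.nd 128 (.nd 64 .nil (.lf [(45, 30469)]))
  (.nd 64 (.lf [(23, 3)]) (.lf [(49, 0)]))) (.nd 128 (.nd 64 (.lf [(33, 5)]) .nil) (.nd 64 (.lf [(55, 37)])
  .nil)))) (.nd 512 (.nd 256 (.nd 128 (.nd 64 (.lf [(41, 7)]) .nil) (.nd 64 (.lf [(51, 5)]) .nil)) (.nd 128 (.nd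
  64 (.lf [(25, 3)]) .nil) (.nd 64 (.lf [(47, 3), (53, 7)]) .nil))) (.nd 256 .nil (.nd 128 (.nd 64 (.lf [(11,
  3)]) (.lf [(37, 7)])) (.nd 64 .nil (.lf [(29, 0)]))))))) (.nd 2048 (.nd 1024 (.nd 512 (.nd 256 (.nd 128 (.nd
  64 (.lf [(13, 3), (43, 0)]) (.lf [(3, 3), (21, 5)])) (.nd 64 (.lf [(35, 263), (47, 7)]) .nil)) (.nd 128 (.nd
  64 .nil (.lf [(23, 11)])) (.nd 64 .nil (.lf [(27, 3)])))) (.nd 256 (.nd 128 (.nd 64 .nil (.lf [(7, 7), (49,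
  5)])) (.nd 64 (.lf [(3, 151)]) .nil)) (.nd 128 (.nd 64 (.lf [(25, 0)]) .nil) (.nd 64 (.lf [(29, 8521)])
  .nil)))) (.nd 512 (.nd 256 (.nd 128 (.nd 64 .nil (.lf [(59, 0)])) (.nd 64 .nil (.lf [(39, 3)]))) (.nd 128 (.nd
  64 (.lf [(5, 3), (23, 3)]) (.lf [(1, 3)])) .nil)) (.nd 256 (.nd 128 .nil (.nd 64 .nil (.lf [(19, 67)]))) (.nd
  128 (.nd 64 .nil (.lf [(47, 3)])) .nil)))) (.nd 1024 (.nd 512 (.nd 256 (.nd 128 (.nd 64 .nil (.lf [(55, 23)]))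
  (.nd 64 (.lf [(9, 3), (51, 3)]) .nil)) (.nd 128 (.nd 64 (.lf [(19, 3)]) (.lf [(39, 13)])) .nil)) (.nd 256 (.nd
  128 (.nd 64 (.lf [(3, 53), (27, 3), (57, 443)]) .nil) (.nd 64 .nil (.lf [(21, 37), (33, 0), (45, 673)]))) (.nd
  128 (.nd 64 (.lf [(47, 3)]) (.lf [(25, 0), (43, 0)])) (.nd 64 .nil (.lf [(17, 7)]))))) (.nd 512 (.nd 256 (.nd
  128 (.nd 64 .nil (.lf [(51, 5)])) .nil) (.nd 128 (.nd 64 (.lf [(15, 0), (45, 83)]) .nil) (.nd 64 .nil (.lf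
  [(63, 5)])))) (.nd 256 (.nd 128 (.nd 64 (.lf [(23, 0)]) (.lf [(7, 5), (49, 5)])) .nil) (.nd 128 (.nd 64 (.lf
  [(37, 3108293)]) .nil) (.nd 64 .nil (.lf [(43, 3)])))))))) (.nd 4096 (.nd 2048 (.nd 1024 (.nd 512 (.nd 256
  (.nd 128 (.nd 64 (.lf [(21, 13)]) (.lf [(5, 11), (53, 23)])) .nil) (.nd 128 (.nd 64 .nil (.lf [(37, 3)]))
  .nil)) (.nd 256 (.nd 128 (.nd 64 .nil (.lf [(3, 43), (45, 53)])) (.nd 64 .nil (.lf [(25, 5)]))) (.nd 128 (.nd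
  64 (.lf [(51, 0)]) .nil) (.nd 64 (.lf [(31, 587)]) (.lf [(9, 11)]))))) (.nd 512 (.nd 256 (.nd 128 (.nd 64 (.lf
  [(5, 89)]) (.lf [(31, 0)])) .nil) (.nd 128 (.nd 64 (.lf [(1, 5)]) (.lf [(3, 19), (27, 0)])) (.nd 64 .nil (.lf
  [(55, 137)])))) (.nd 256 .nil (.nd 128 .nil (.nd 64 .nil (.lf [(17, 137321), (23, 3), (35, 3)])))))) (.nd 1024
  (.nd 512 (.nd 256 (.nd 128 .nil (.nd 64 (.lf [(11, 3), (53, 467)]) .nil)) (.nd 128 (.nd 64 (.lf [(27, 11)])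
  (.lf [(11, 210467), (29, 2113)])) .nil)) (.nd 256 (.nd 128 (.nd 64 .nil (.lf [(25, 3), (55, 5)])) (.nd 64 (.lf
  [(21, 3)]) .nil)) (.nd 128 (.nd 64 .nil (.lf [(9, 1997), (21, 11)])) (.nd 64 (.lf [(23, 3)]) (.lf [(49,
  3)]))))) (.nd 512 (.nd 256 (.nd 128 (.nd 64 .nil (.lf [(5, 97)])) .nil) (.nd 128 (.nd 64 (.lf [(23, 31), (59,
  31)]) .nil) (.nd 64 (.lf [(15, 3)]) (.lf [(41, 211)])))) (.nd 256 (.nd 128 (.nd 64 .nil (.lf [(9, 7)])) (.nd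
  64 (.lf [(29, 19)]) (.lf [(61, 487)]))) (.nd 128 .nil (.nd 64 (.lf [(43, 5)]) .nil)))))) (.nd 2048 (.nd 1024
  (.nd 512 (.nd 256 (.nd 128 (.nd 64 (.lf [(35, 3)]) .nil) (.nd 64 .nil (.lf [(53, 7)]))) .nil) (.nd 256 (.nd
  128 .nil (.nd 64 (.lf [(13, 3), (43, 23)]) .nil)) (.nd 128 (.nd 64 (.lf [(23, 3)]) (.lf [(61, 41)])) (.nd 64
  .nil (.lf [(11, 11), (41, 449)]))))) (.nd 512 (.nd 256 (.nd 128 (.nd 64 .nil (.lf [(3, 17), (45, 61)])) (.nd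
  64 (.lf [(59, 11)]) .nil)) (.nd 128 (.nd 64 (.lf [(21, 617)]) .nil) (.nd 64 (.lf [(25, 0)]) (.lf [(3, 7), (63,
  293)])))) (.nd 256 (.nd 128 (.nd 64 (.lf [(29, 3)]) (.lf [(31, 3)])) (.nd 64 (.lf [(57, 37)]) .nil)) (.nd 128
  .nil (.nd 64 .nil (.lf [(1, 3)])))))) (.nd 1024 (.nd 512 (.nd 256 (.nd 128 .nil (.nd 64 (.lf [(49, 16787)])
  .nil)) (.nd 128 (.nd 64 .nil (.lf [(25, 83)])) (.nd 64 .nil (.lf [(5, 0), (29, 69997)])))) (.nd 256 .nil (.nd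
  128 (.nd 64 .nil (.lf [(23, 5)])) (.nd 64 (.lf [(7, 241), (49, 59)]) (.lf [(63, 3)]))))) (.nd 512 (.nd 256
  (.nd 128 .nil (.nd 64 (.lf [(3, 571)]) (.lf [(17, 3)]))) (.nd 128 (.nd 64 (.lf [(43, 0)]) (.lf [(51, 7)]))
  (.nd 64 .nil (.lf [(1, 19)])))) (.nd 256 (.nd 128 (.nd 64 (.lf [(21, 254659)]) (.lf [(17, 3)])) (.nd 64 (.lf
  [(49, 11), (61, 3)]) (.lf [(9, 61)]))) (.nd 128 (.nd 64 .nil (.lf [(7, 2137), (37, 3)])) .nil)))))))) (.nd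
  16384 (.nd 8192 (.nd 4096 (.nd 2048 (.nd 1024 (.nd 512 (.nd 256 (.nd 128 .nil (.nd 64 .nil (.lf [(43, 71)])))
  (.nd 128 (.nd 64 (.lf [(9, 3)]) (.lf [(47, 3)])) .nil)) (.nd 256 (.nd 128 (.nd 64 (.lf [(53, 5)]) (.lf [(13,
  17)])) (.nd 64 .nil (.lf [(23, 4201), (41, 1193)]))) (.nd 128 (.nd 64 .nil (.lf [(63, 52009)])) (.nd 64 .nil
  (.lf [(19, 101)]))))) (.nd 512 (.nd 256 (.nd 128 .nil (.nd 64 (.lf [(7, 3)]) (.lf [(33, 3)]))) (.nd 128 (.nd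
  64 .nil (.lf [(13, 23), (61, 521)])) (.nd 64 (.lf [(51, 193)]) .nil))) (.nd 256 (.nd 128 (.nd 64 (.lf [(19,
  5), (43, 3), (61, 13)]) (.lf [(57, 23)])) .nil) (.nd 128 (.nd 64 (.lf [(27, 3)]) (.lf [(53, 439)])) .nil))))
  (.nd 1024 (.nd 512 (.nd 256 (.nd 128 (.nd 64 .nil (.lf [(13, 3), (43, 3)])) .nil) (.nd 128 (.nd 64 .nil (.lf
  [(9, 1931)])) (.nd 64 (.lf [(17, 3)]) (.lf [(1, 677), (43, 7), (49, 1469357)])))) (.nd 256 .nil (.nd 128 (.nd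
  64 (.lf [(41, 1181)]) .nil) .nil))) (.nd 512 (.nd 256 (.nd 128 (.nd 64 (.lf [(37, 281)]) (.lf [(3, 3)])) (.nd
  64 .nil (.lf [(1, 7), (31, 3)]))) (.nd 128 .nil (.nd 64 (.lf [(49, 41)]) .nil))) (.nd 256 (.nd 128 (.nd 64
  .nil (.lf [(19, 3323)])) .nil) (.nd 128 (.nd 64 .nil (.lf [(33, 13), (45, 5)])) .nil))))) (.nd 2048 (.nd 1024
  (.nd 512 (.nd 256 (.nd 128 (.nd 64 (.lf [(33, 11)]) .nil) (.nd 64 .nil (.lf [(21, 37)]))) (.nd 128 (.nd 64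
  (.lf [(47, 3)]) .nil) (.nd 64 (.lf [(39, 31), (45, 23)]) .nil))) (.nd 256 (.nd 128 (.nd 64 .nil (.lf [(57,
  7)])) (.nd 64 (.lf [(11, 3), (23, 0), (53, 59)]) (.lf [(49, 3769)]))) (.nd 128 (.nd 64 (.lf [(63, 23)]) (.lf
  [(17, 5)])) (.nd 64 (.lf [(25, 227)]) (.lf [(39, 11)]))))) (.nd 512 (.nd 256 (.nd 128 .nil (.nd 64 (.lf [(21,
  59)]) (.lf [(23, 257), (47, 5)]))) .nil) (.nd 256 (.nd 128 (.nd 64 (.lf [(15, 5)]) .nil) (.nd 64 (.lf [(37,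
  3), (49, 3), (55, 3)]) (.lf [(45, 13)]))) (.nd 128 (.nd 64 .nil (.lf [(55, 5)])) (.nd 64 (.lf [(33, 2647),
  (63, 197)]) (.lf [(29, 5)])))))) (.nd 1024 (.nd 512 (.nd 256 (.nd 128 (.nd 64 (.lf [(13, 1399)]) .nil) (.nd 64
  (.lf [(5, 19), (17, 17)]) (.lf [(19, 139)]))) (.nd 128 (.nd 64 .nil (.lf [(23, 23), (35, 5)])) (.nd 64 .nil
  (.lf [(63, 13)])))) (.nd 256 (.nd 128 .nil (.nd 64 (.lf [(51, 5)]) (.lf [(11, 0)]))) (.nd 128 (.nd 64 (.lf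
  [(7, 3)]) .nil) (.nd 64 (.lf [(29, 3)]) .nil)))) (.nd 512 (.nd 256 (.nd 128 .nil (.nd 64 (.lf [(31, 3)])
  .nil)) (.nd 128 (.nd 64 (.lf [(11, 0), (53, 523)]) .nil) (.nd 64 .nil (.lf [(53, 51481)])))) (.nd 256 (.nd 128
  (.nd 64 (.lf [(19, 5)]) .nil) (.nd 64 (.lf [(47, 2957), (59, 7)]) .nil)) .nil))))) (.nd 4096 (.nd 2048 (.nd
  1024 (.nd 512 (.nd 256 (.nd 128 (.nd 64 (.lf [(23, 0)]) .nil) (.nd 64 .nil (.lf [(41, 3)]))) (.nd 128 (.nd 64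
  (.lf [(19, 5)]) (.lf [(57, 3)])) .nil)) (.nd 256 (.nd 128 (.nd 64 (.lf [(3, 3)]) (.lf [(41, 17)])) .nil) (.nd
  128 (.nd 64 (.lf [(47, 3)]) .nil) (.nd 64 (.lf [(9, 5), (27, 3), (39, 2851)]) .nil)))) (.nd 512 (.nd 256 (.nd
  128 (.nd 64 (.lf [(1, 3), (43, 5)]) (.lf [(27, 0)])) (.nd 64 (.lf [(5, 0)]) .nil)) (.nd 128 (.nd 64 (.lf [(33,
  3)]) (.lf [(11, 3)])) (.nd 64 (.lf [(49, 0)]) .nil))) (.nd 256 (.nd 128 (.nd 64 (.lf [(17, 3), (41, 5)]) (.lf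
  [(55, 3)])) (.nd 64 (.lf [(39, 3)]) (.lf [(35, 0)]))) (.nd 128 (.nd 64 .nil (.lf [(51, 3)])) (.nd 64 (.lf
  [(53, 3)]) (.lf [(1, 7)])))))) (.nd 1024 (.nd 512 (.nd 256 (.nd 128 .nil (.nd 64 (.lf [(7, 5), (37, 3), (49,
  11)]) .nil)) (.nd 128 (.nd 64 (.lf [(29, 3)]) .nil) (.nd 64 .nil (.lf [(11, 7)])))) (.nd 256 (.nd 128 (.nd 64
  (.lf [(43, 11)]) (.lf [(51, 13)])) (.nd 64 .nil (.lf [(31, 5), (43, 0)]))) (.nd 128 (.nd 64 (.lf [(9, 13)])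
  (.lf [(17, 11)])) (.nd 64 (.lf [(61, 19)]) (.lf [(57, 3)]))))) (.nd 512 (.nd 256 (.nd 128 (.nd 64 (.lf [(11,
  3)]) .nil) (.nd 64 (.lf [(45, 0)]) (.lf [(23, 3)]))) (.nd 128 .nil (.nd 64 (.lf [(41, 3)]) .nil))) (.nd 256
  (.nd 128 (.nd 64 .nil (.lf [(5, 281)])) .nil) (.nd 128 (.nd 64 (.lf [(53, 3)]) .nil) (.nd 64 (.lf [(39, 3)])
  .nil)))))) (.nd 2048 (.nd 1024 (.nd 512 (.nd 256 (.nd 128 (.nd 64 (.lf [(1, 3)]) .nil) (.nd 64 .nil (.lf [(25,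
  157), (37, 0), (49, 383)]))) (.nd 128 (.nd 64 (.lf [(15, 421), (33, 83)]) .nil) .nil)) (.nd 256 (.nd 128 (.nd
  64 (.lf [(35, 1249757)]) .nil) (.nd 64 (.lf [(51, 5)]) (.lf [(47, 11)]))) (.nd 128 (.nd 64 .nil (.lf [(9,
  11)])) (.nd 64 (.lf [(35, 257)]) (.lf [(7, 3), (37, 5)]))))) (.nd 512 (.nd 256 (.nd 128 .nil (.nd 64 (.lf
  [(19, 3)]) .nil)) (.nd 128 (.nd 64 (.lf [(17, 3)]) (.lf [(7, 3)])) (.nd 64 (.lf [(63, 29)]) .nil))) (.nd 256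
  (.nd 128 (.nd 64 (.lf [(13, 541)]) .nil) (.nd 64 (.lf [(35, 7), (47, 2309)]) (.lf [(43, 5)]))) (.nd 128 (.nd
  64 (.lf [(15, 5), (57, 3)]) .nil) .nil)))) (.nd 1024 (.nd 512 (.nd 256 (.nd 128 .nil (.nd 64 .nil (.lf [(59,
  19)]))) (.nd 128 .nil (.nd 64 .nil (.lf [(55, 7), (61, 5)])))) (.nd 256 (.nd 128 (.nd 64 (.lf [(9, 3)]) .nil)
  (.nd 64 (.lf [(19, 3)]) (.lf [(9, 5), (27, 3)]))) (.nd 128 (.nd 64 .nil (.lf [(19, 5)])) (.nd 64 .nil (.lf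
  [(23, 29)]))))) (.nd 512 (.nd 256 (.nd 128 (.nd 64 (.lf [(37, 733)]) .nil) .nil) (.nd 128 (.nd 64 (.lf [(39,
  7)]) (.lf [(17, 19)])) .nil)) (.nd 256 (.nd 128 (.nd 64 .nil (.lf [(1, 7)])) (.nd 64 (.lf [(15, 3), (27,
  8011)]) (.lf [(5, 13), (35, 67), (53, 3)]))) (.nd 128 (.nd 64 (.lf [(19, 3)]) .nil) .nil))))))) (.nd 8192 (.nd
  4096 (.nd 2048 (.nd 1024 (.nd 512 (.nd 256 (.nd 128 (.nd 64 (.lf [(21, 7), (51, 13)]) (.lf [(29, 7), (59,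
  23)])) (.nd 64 (.lf [(25, 139)]) .nil)) (.nd 128 (.nd 64 (.lf [(5, 17)]) (.lf [(25, 3)])) .nil)) (.nd 256 (.nd
  128 .nil (.nd 64 (.lf [(5, 1223)]) (.lf [(37, 5)]))) (.nd 128 .nil (.nd 64 (.lf [(7, 0), (25, 3)]) (.lf [(21,
  5)]))))) (.nd 512 (.nd 256 (.nd 128 .nil (.nd 64 (.lf [(9, 11)]) (.lf [(29, 2423)]))) (.nd 128 (.nd 64 (.lf
  [(61, 7)]) .nil) (.nd 64 (.lf [(35, 7), (47, 1627)]) .nil))) (.nd 256 (.nd 128 (.nd 64 .nil (.lf [(5, 17),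
  (53, 0)])) .nil) (.nd 128 (.nd 64 (.lf [(29, 1153), (53, 3)]) (.lf [(55, 0)])) (.nd 64 (.lf [(21, 13)])
  .nil))))) (.nd 1024 (.nd 512 (.nd 256 (.nd 128 (.nd 64 (.lf [(25, 5)]) .nil) (.nd 64 (.lf [(5, 3)]) (.lf [(55,
  0)]))) (.nd 128 (.nd 64 .nil (.lf [(35, 3), (47, 2506291)])) (.nd 64 (.lf [(31, 3049)]) .nil))) (.nd 256 (.nd
  128 (.nd 64 .nil (.lf [(19, 3)])) (.nd 64 (.lf [(63, 11)]) .nil)) (.nd 128 (.nd 64 .nil (.lf [(3, 11), (45,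
  13)])) (.nd 64 (.lf [(11, 3)]) (.lf [(43, 3)]))))) (.nd 512 (.nd 256 (.nd 128 (.nd 64 (.lf [(21, 3)]) .nil)
  (.nd 64 (.lf [(13, 3)]) .nil)) (.nd 128 .nil (.nd 64 .nil (.lf [(35, 37)])))) (.nd 256 (.nd 128 (.nd 64 (.lf
  [(49, 19)]) (.lf [(63, 11)])) .nil) (.nd 128 (.nd 64 (.lf [(33, 4231)]) (.lf [(29, 7)])) (.nd 64 (.lf [(37,
  3)]) (.lf [(9, 5), (21, 41)]))))))) (.nd 2048 (.nd 1024 (.nd 512 (.nd 256 .nil (.nd 128 (.nd 64 (.lf [(31,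
  3)]) (.lf [(45, 3)])) (.nd 64 (.lf [(35, 5)]) (.lf [(1, 7), (7, 3)])))) (.nd 256 (.nd 128 (.nd 64 .nil (.lf
  [(41, 216761)])) (.nd 64 (.lf [(7, 3)]) (.lf [(3, 3)]))) (.nd 128 (.nd 64 (.lf [(59, 19)]) .nil) (.nd 64 (.lf
  [(63, 0)]) .nil)))) (.nd 512 (.nd 256 (.nd 128 (.nd 64 (.lf [(13, 11)]) (.lf [(51, 3)])) (.nd 64 (.lf [(17,
  3), (53, 5)]) (.lf [(31, 3), (61, 13)]))) (.nd 128 .nil (.nd 64 .nil (.lf [(3, 5), (57, 83)])))) (.nd 256 (.nd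
  128 (.nd 64 .nil (.lf [(25, 1191209)])) .nil) (.nd 128 (.nd 64 (.lf [(13, 0)]) (.lf [(39, 3)])) (.nd 64 (.lf
  [(59, 7)]) .nil))))) (.nd 1024 (.nd 512 (.nd 256 (.nd 128 (.nd 64 .nil (.lf [(17, 5), (23, 5), (47, 3)])) (.nd
  64 .nil (.lf [(27, 3)]))) (.nd 128 (.nd 64 (.lf [(41, 5)]) (.lf [(31, 523), (61, 3)])) (.nd 64 (.lf [(63,
  47)]) (.lf [(11, 5), (53, 0)])))) (.nd 256 (.nd 128 (.nd 64 .nil (.lf [(63, 5)])) (.nd 64 (.lf [(17, 383267),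
  (41, 3)]) .nil)) (.nd 128 .nil (.nd 64 (.lf [(1, 3), (25, 3)]) (.lf [(21, 19)]))))) (.nd 512 (.nd 256 (.nd 128
  (.nd 64 .nil (.lf [(43, 211)])) (.nd 64 .nil (.lf [(11, 11)]))) (.nd 128 (.nd 64 (.lf [(7, 137), (37, 11)])
  .nil) (.nd 64 (.lf [(23, 3), (29, 3)]) (.lf [(25, 3)])))) (.nd 256 (.nd 128 (.nd 64 (.lf [(33, 137)]) .nil)
  (.nd 64 .nil (.lf [(3, 37)]))) (.nd 128 (.nd 64 .nil (.lf [(43, 19)])) (.nd 64 (.lf [(57, 229)]) .nil)))))))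
  (.nd 4096 (.nd 2048 (.nd 1024 (.nd 512 (.nd 256 (.nd 128 (.nd 64 .nil (.lf [(39, 5)])) (.nd 64 .nil (.lf [(1,
  3)]))) (.nd 128 (.nd 64 (.lf [(45, 3)]) .nil) (.nd 64 .nil (.lf [(63, 3)])))) (.nd 256 (.nd 128 (.nd 64 (.lf
  [(29, 3), (59, 11)]) .nil) (.nd 64 (.lf [(3, 5)]) .nil)) (.nd 128 (.nd 64 .nil (.lf [(57, 3)])) (.nd 64 (.lf
  [(47, 43133)]) .nil)))) (.nd 512 (.nd 256 .nil (.nd 128 (.nd 64 .nil (.lf [(25, 3), (49, 5)])) (.nd 64 .nil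
  (.lf [(59, 3)])))) (.nd 256 (.nd 128 (.nd 64 (.lf [(55, 5)]) (.lf [(3, 103), (63, 5)])) .nil) (.nd 128 (.nd 64
  (.lf [(21, 3), (27, 47), (51, 0)]) .nil) .nil)))) (.nd 1024 (.nd 512 (.nd 256 (.nd 128 (.nd 64 .nil (.lf [(7,
  3)])) (.nd 64 (.lf [(33, 7)]) (.lf [(11, 0)]))) (.nd 128 (.nd 64 .nil (.lf [(63, 3)])) (.nd 64 .nil (.lf [(43,
  3)])))) (.nd 256 (.nd 128 (.nd 64 .nil (.lf [(35, 23)])) (.nd 64 (.lf [(25, 7)]) .nil)) (.nd 128 (.nd 64 (.lf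
  [(5, 7)]) (.lf [(43, 3)])) (.nd 64 (.lf [(57, 3)]) .nil)))) (.nd 512 (.nd 256 (.nd 128 (.nd 64 (.lf [(7, 3),
  (19, 0)]) .nil) .nil) (.nd 128 (.nd 64 (.lf [(45, 3)]) .nil) (.nd 64 (.lf [(7, 3)]) (.lf [(21, 3)])))) (.nd
  256 (.nd 128 (.nd 64 .nil (.lf [(31, 17), (43, 530861)])) .nil) (.nd 128 (.nd 64 (.lf [(31, 5)]) (.lf [(9,
  3)])) (.nd 64 .nil (.lf [(37, 3)]))))))) (.nd 2048 (.nd 1024 (.nd 512 (.nd 256 (.nd 128 .nil (.nd 64 .nil (.lf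
  [(33, 3), (63, 3)]))) (.nd 128 (.nd 64 (.lf [(11, 13)]) (.lf [(55, 3)])) (.nd 64 .nil (.lf [(29, 5)])))) (.nd
  256 (.nd 128 (.nd 64 (.lf [(61, 0)]) (.lf [(27, 17)])) .nil) (.nd 128 (.nd 64 (.lf [(15, 3), (57, 17)]) (.lf
  [(53, 41)])) .nil))) (.nd 512 (.nd 256 (.nd 128 (.nd 64 .nil (.lf [(49, 3)])) .nil) (.nd 128 (.nd 64 (.lf
  [(25, 73)]) (.lf [(33, 71)])) .nil)) (.nd 256 (.nd 128 (.nd 64 .nil (.lf [(23, 587)])) .nil) (.nd 128 .nil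
  (.nd 64 (.lf [(3, 3), (27, 3)]) .nil))))) (.nd 1024 (.nd 512 (.nd 256 (.nd 128 (.nd 64 .nil (.lf [(3, 233)]))
  .nil) (.nd 128 (.nd 64 (.lf [(9, 3), (33, 3)]) .nil) (.nd 64 .nil (.lf [(21, 3)])))) (.nd 256 (.nd 128 .nil
  (.nd 64 (.lf [(27, 151), (45, 1609)]) (.lf [(5, 3), (11, 3)]))) (.nd 128 (.nd 64 (.lf [(1, 3)]) (.lf [(3, 19),
  (15, 3)])) .nil))) (.nd 512 (.nd 256 (.nd 128 (.nd 64 (.lf [(33, 3)]) (.lf [(41, 23041)])) (.nd 64 .nil (.lf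
  [(9, 29)]))) (.nd 128 (.nd 64 .nil (.lf [(43, 12211)])) (.nd 64 (.lf [(57, 3)]) (.lf [(53, 19)])))) (.nd 256
  (.nd 128 (.nd 64 (.lf [(13, 3), (61, 3)]) (.lf [(9, 0)])) (.nd 64 (.lf [(11, 53)]) .nil)) (.nd 128 .nil (.nd
  64 (.lf [(19, 5), (37, 3)]) (.lf [(3, 5), (33, 3)]))))))))))) (.nd 32768 (.nd 16384 (.nd 8192 (.nd 4096 (.nd
  2048 (.nd 1024 (.nd 512 (.nd 256 (.nd 128 (.nd 64 (.lf [(11, 3), (47, 3)]) .nil) .nil) (.nd 128 (.nd 64 (.lf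
  [(13, 3), (61, 0)]) .nil) (.nd 64 (.lf [(17, 47), (47, 19)]) (.lf [(61, 3)])))) (.nd 256 (.nd 128 .nil (.nd 64
  (.lf [(49, 3)]) (.lf [(3, 2069), (45, 5), (63, 11)]))) (.nd 128 (.nd 64 .nil (.lf [(55, 5)])) (.nd 64 (.lf
  [(63, 79)]) .nil)))) (.nd 512 (.nd 256 (.nd 128 (.nd 64 (.lf [(7, 19), (37, 137)]) (.lf [(39, 7), (63, 11)]))
  .nil) (.nd 128 (.nd 64 .nil (.lf [(47, 3), (53, 0)])) (.nd 64 .nil (.lf [(15, 0)])))) (.nd 256 (.nd 128 (.nd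
  64 .nil (.lf [(31, 7)])) (.nd 64 (.lf [(33, 3)]) (.lf [(11, 109)]))) (.nd 128 (.nd 64 .nil (.lf [(3, 61)]))
  (.nd 64 .nil (.lf [(7, 5), (25, 29)])))))) (.nd 1024 (.nd 512 (.nd 256 (.nd 128 (.nd 64 (.lf [(21, 3)]) .nil)
  (.nd 64 (.lf [(1, 3)]) .nil)) (.nd 128 (.nd 64 .nil (.lf [(31, 47)])) (.nd 64 (.lf [(9, 3)]) .nil))) (.nd 256
  (.nd 128 (.nd 64 (.lf [(49, 17)]) (.lf [(57, 3)])) (.nd 64 .nil (.lf [(25, 3)]))) (.nd 128 .nil (.nd 64 (.lf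
  [(13, 3)]) .nil)))) (.nd 512 (.nd 256 (.nd 128 (.nd 64 (.lf [(59, 3)]) .nil) (.nd 64 .nil (.lf [(47, 7)])))
  (.nd 128 .nil (.nd 64 (.lf [(5, 277163), (23, 11)]) .nil))) (.nd 256 (.nd 128 (.nd 64 (.lf [(33, 0)]) (.lf
  [(23, 3), (29, 3), (53, 241)])) (.nd 64 (.lf [(37, 3)]) .nil)) (.nd 128 (.nd 64 .nil (.lf [(37, 47)])) (.nd 64
  .nil (.lf [(5, 11)]))))))) (.nd 2048 (.nd 1024 (.nd 512 (.nd 256 (.nd 128 (.nd 64 (.lf [(43, 13)]) .nil) (.nd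
  64 .nil (.lf [(31, 5)]))) (.nd 128 .nil (.nd 64 (.lf [(49, 3)]) .nil))) (.nd 256 (.nd 128 .nil (.nd 64 (.lf
  [(45, 3)]) .nil)) (.nd 128 (.nd 64 (.lf [(43, 3)]) (.lf [(33, 3)])) (.nd 64 (.lf [(59, 5)]) .nil)))) (.nd 512
  (.nd 256 (.nd 128 (.nd 64 (.lf [(39, 3), (51, 17)]) (.lf [(5, 7)])) (.nd 64 (.lf [(61, 3)]) (.lf [(39, 43),
  (57, 5)]))) (.nd 128 (.nd 64 .nil (.lf [(1, 3)])) (.nd 64 .nil (.lf [(53, 97)])))) (.nd 256 (.nd 128 (.nd 64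
  .nil (.lf [(21, 7)])) (.nd 64 (.lf [(29, 3)]) (.lf [(37, 7)]))) (.nd 128 (.nd 64 .nil (.lf [(17, 41), (59,
  3)])) (.nd 64 .nil (.lf [(27, 269)])))))) (.nd 1024 (.nd 512 (.nd 256 (.nd 128 (.nd 64 .nil (.lf [(19, 0)]))
  (.nd 64 (.lf [(39, 3)]) .nil)) (.nd 128 (.nd 64 (.lf [(37, 0)]) .nil) (.nd 64 (.lf [(59, 3001)]) .nil))) (.nd
  256 (.nd 128 (.nd 64 (.lf [(45, 3)]) (.lf [(17, 307)])) .nil) (.nd 128 .nil (.nd 64 (.lf [(9, 23)]) .nil))))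
  (.nd 512 (.nd 256 (.nd 128 (.nd 64 (.lf [(31, 3)]) (.lf [(9, 314407), (57, 7)])) (.nd 64 (.lf [(5, 3)]) .nil))
  (.nd 128 (.nd 64 (.lf [(45, 3)]) (.lf [(11, 3)])) (.nd 64 (.lf [(25, 3)]) .nil))) (.nd 256 (.nd 128 (.nd 64
  (.lf [(11, 5)]) .nil) (.nd 64 (.lf [(51, 7)]) (.lf [(29, 3), (35, 0), (47, 31)]))) (.nd 128 (.nd 64 (.lf [(25,
  59107)]) .nil) .nil)))))) (.nd 4096 (.nd 2048 (.nd 1024 (.nd 512 (.nd 256 .nil (.nd 128 .nil (.nd 64 (.lf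
  [(15, 2297)]) (.lf [(59, 113)])))) (.nd 256 (.nd 128 (.nd 64 (.lf [(43, 7), (55, 34703)]) .nil) (.nd 64 .nil
  (.lf [(13, 3)]))) .nil)) (.nd 512 (.nd 256 (.nd 128 (.nd 64 .nil (.lf [(49, 3)])) (.nd 64 .nil (.lf [(11,
  3)]))) (.nd 128 (.nd 64 (.lf [(37, 3)]) (.lf [(21, 0)])) .nil)) (.nd 256 (.nd 128 (.nd 64 (.lf [(9, 7)]) .nil)
  (.nd 64 .nil (.lf [(51, 0)]))) (.nd 128 (.nd 64 (.lf [(5, 3), (17, 7)]) .nil) (.nd 64 (.lf [(15, 3)]) (.lf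
  [(53, 3)])))))) (.nd 1024 (.nd 512 (.nd 256 (.nd 128 (.nd 64 (.lf [(1, 772721)]) .nil) .nil) (.nd 128 .nil
  (.nd 64 (.lf [(7, 11)]) (.lf [(33, 7)])))) (.nd 256 (.nd 128 (.nd 64 (.lf [(35, 3), (47, 283)]) .nil) .nil)
  (.nd 128 .nil (.nd 64 .nil (.lf [(19, 2447), (61, 3)]))))) (.nd 512 (.nd 256 (.nd 128 .nil (.nd 64 (.lf [(25,
  61), (55, 3)]) (.lf [(15, 0)]))) (.nd 128 (.nd 64 (.lf [(11, 139)]) .nil) (.nd 64 (.lf [(21, 0), (33, 7)])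
  .nil))) (.nd 256 (.nd 128 (.nd 64 (.lf [(61, 3)]) (.lf [(27, 5), (39, 33751)])) (.nd 64 .nil (.lf [(13,
  79)]))) (.nd 128 (.nd 64 .nil (.lf [(5, 0)])) (.nd 64 .nil (.lf [(63, 0)]))))))) (.nd 2048 (.nd 1024 (.nd 512
  (.nd 256 (.nd 128 .nil (.nd 64 (.lf [(21, 7), (33, 447481)]) (.lf [(17, 3), (41, 5)]))) (.nd 128 (.nd 64 .nil
  (.lf [(51, 3)])) (.nd 64 (.lf [(47, 354479)]) (.lf [(1, 3), (43, 0)])))) (.nd 256 (.nd 128 .nil (.nd 64 (.lf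
  [(61, 263)]) .nil)) (.nd 128 (.nd 64 (.lf [(41, 5)]) .nil) .nil))) (.nd 512 (.nd 256 (.nd 128 (.nd 64 (.lf
  [(19, 5), (49, 0)]) .nil) (.nd 64 .nil (.lf [(37, 3), (55, 19)]))) (.nd 128 (.nd 64 (.lf [(51, 5)]) (.lf [(35,
  3)])) (.nd 64 (.lf [(1, 53)]) .nil))) (.nd 256 (.nd 128 .nil (.nd 64 (.lf [(15, 3), (27, 3), (45, 5)]) .nil))
  (.nd 128 (.nd 64 (.lf [(1, 2971)]) (.lf [(33, 7)])) (.nd 64 .nil (.lf [(19, 213481)])))))) (.nd 1024 (.nd 512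
  (.nd 256 (.nd 128 (.nd 64 (.lf [(21, 11), (51, 3)]) (.lf [(11, 3)])) .nil) (.nd 128 (.nd 64 (.lf [(29, 73),
  (59, 29)]) (.lf [(25, 7)])) (.nd 64 .nil (.lf [(5, 3)])))) (.nd 256 (.nd 128 (.nd 64 (.lf [(1, 3)]) (.lf [(45,
  37)])) (.nd 64 (.lf [(11, 7)]) (.lf [(31, 3)]))) (.nd 128 (.nd 64 .nil (.lf [(59, 5)])) (.nd 64 (.lf [(25,
  97), (37, 199)]) .nil)))) (.nd 512 (.nd 256 (.nd 128 (.nd 64 .nil (.lf [(25, 7)])) (.nd 64 (.lf [(63, 1051)])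
  (.lf [(5, 0)]))) (.nd 128 (.nd 64 (.lf [(55, 83)]) .nil) (.nd 64 .nil (.lf [(31, 5)])))) (.nd 256 (.nd 128
  (.nd 64 .nil (.lf [(35, 19)])) .nil) (.nd 128 .nil (.nd 64 (.lf [(3, 281), (51, 37)]) (.lf [(29, 11)])))))))))
  (.nd 8192 (.nd 4096 (.nd 2048 (.nd 1024 (.nd 512 (.nd 256 (.nd 128 (.nd 64 (.lf [(7, 3)]) (.lf [(21, 7), (39,
  7)])) .nil) (.nd 128 .nil (.nd 64 .nil (.lf [(45, 3)])))) (.nd 256 (.nd 128 (.nd 64 .nil (.lf [(31, 3)]))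
  .nil) (.nd 128 (.nd 64 (.lf [(19, 17)]) (.lf [(63, 3)])) (.nd 64 (.lf [(17, 7), (59, 3)]) .nil)))) (.nd 512
  (.nd 256 (.nd 128 .nil (.nd 64 .nil (.lf [(9, 3), (21, 7), (57, 3)]))) (.nd 128 (.nd 64 (.lf [(53, 3)]) (.lf
  [(13, 214373)])) (.nd 64 (.lf [(9, 3)]) .nil))) (.nd 256 (.nd 128 (.nd 64 .nil (.lf [(3, 3), (45, 127)]))
  .nil) (.nd 128 (.nd 64 (.lf [(3, 509)]) .nil) (.nd 64 (.lf [(43, 6151)]) .nil))))) (.nd 1024 (.nd 512 (.nd 256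
  (.nd 128 (.nd 64 .nil (.lf [(31, 5)])) (.nd 64 (.lf [(39, 3)]) .nil)) (.nd 128 (.nd 64 (.lf [(19, 23)]) .nil)
  (.nd 64 (.lf [(5, 1129)]) (.lf [(37, 3)])))) (.nd 256 (.nd 128 (.nd 64 .nil (.lf [(11, 3), (53, 19)])) (.nd 64
  (.lf [(49, 3)]) (.lf [(33, 3)]))) (.nd 128 .nil (.nd 64 .nil (.lf [(17, 0), (59, 3)]))))) (.nd 512 (.nd 256
  (.nd 128 (.nd 64 (.lf [(13, 6473)]) (.lf [(21, 149), (27, 3)])) (.nd 64 .nil (.lf [(1, 5), (43, 7)]))) (.nd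
  128 (.nd 64 (.lf [(45, 167)]) (.lf [(53, 7)])) (.nd 64 .nil (.lf [(15, 5)])))) (.nd 256 (.nd 128 (.nd 64 (.lf
  [(29, 0)]) .nil) .nil) (.nd 128 (.nd 64 .nil (.lf [(9, 3), (51, 0)])) (.nd 64 .nil (.lf [(13, 37)]))))))) (.nd
  2048 (.nd 1024 (.nd 512 (.nd 256 (.nd 128 .nil (.nd 64 (.lf [(19, 3)]) .nil)) (.nd 128 (.nd 64 (.lf [(23, 0)])
  (.lf [(37, 7)])) (.nd 64 (.lf [(3, 3), (33, 7)]) (.lf [(23, 3), (41, 0)])))) (.nd 256 (.nd 128 (.nd 64 .nil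
  (.lf [(45, 3)])) (.nd 64 (.lf [(29, 5)]) (.lf [(37, 3)]))) (.nd 128 (.nd 64 .nil (.lf [(29, 3), (47, 11)]))
  (.nd 64 .nil (.lf [(39, 3), (57, 0)]))))) (.nd 512 (.nd 256 (.nd 128 (.nd 64 (.lf [(17, 5), (53, 23)]) (.lf
  [(43, 47)])) (.nd 64 (.lf [(57, 7)]) (.lf [(23, 3)]))) (.nd 128 (.nd 64 (.lf [(7, 3)]) (.lf [(33, 3)])) (.nd
  64 (.lf [(11, 0)]) .nil))) (.nd 256 (.nd 128 (.nd 64 (.lf [(3, 23567), (15, 71), (51, 107)]) (.lf [(29, 3)]))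
  (.nd 64 (.lf [(13, 5)]) (.lf [(3, 2843), (33, 5)]))) (.nd 128 (.nd 64 .nil (.lf [(13, 7)])) (.nd 64 (.lf [(9,
  0)]) (.lf [(17, 3)])))))) (.nd 1024 (.nd 512 (.nd 256 (.nd 128 (.nd 64 (.lf [(49, 0)]) .nil) (.nd 64 .nil (.lf
  [(49, 3)]))) .nil) (.nd 256 (.nd 128 (.nd 64 (.lf [(41, 3)]) (.lf [(7, 53), (43, 0)])) (.nd 64 (.lf [(9, 13),
  (21, 7), (63, 3)]) .nil)) (.nd 128 .nil (.nd 64 (.lf [(47, 3)]) (.lf [(13, 101), (49, 149)]))))) (.nd 512 (.nd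
  256 (.nd 128 .nil (.nd 64 (.lf [(61, 3)]) .nil)) (.nd 128 (.nd 64 (.lf [(23, 5)]) .nil) (.nd 64 .nil (.lf
  [(59, 3)])))) (.nd 256 (.nd 128 (.nd 64 (.lf [(7, 7), (55, 23)]) .nil) (.nd 64 (.lf [(17, 0)]) (.lf [(43,
  11)]))) (.nd 128 .nil (.nd 64 (.lf [(1, 23)]) (.lf [(27, 17)])))))))) (.nd 4096 (.nd 2048 (.nd 1024 (.nd 512
  (.nd 256 (.nd 128 (.nd 64 (.lf [(5, 29), (41, 3)]) .nil) (.nd 64 (.lf [(3, 3)]) (.lf [(29, 3)]))) (.nd 128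
  (.nd 64 (.lf [(7, 13)]) .nil) (.nd 64 .nil (.lf [(43, 3)])))) (.nd 256 (.nd 128 .nil (.nd 64 .nil (.lf [(21,
  5)]))) (.nd 128 .nil (.nd 64 .nil (.lf [(11, 7), (35, 3)]))))) (.nd 512 (.nd 256 (.nd 128 (.nd 64 .nil (.lf
  [(45, 3)])) (.nd 64 (.lf [(23, 127), (41, 991)]) .nil)) .nil) (.nd 256 (.nd 128 (.nd 64 (.lf [(5, 3)]) (.lf
  [(13, 1)])) (.nd 64 (.lf [(27, 3)]) (.lf [(53, 23)]))) (.nd 128 .nil (.nd 64 (.lf [(11, 7)]) (.lf [(49, 3),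
  (61, 11)])))))) (.nd 1024 (.nd 512 (.nd 256 (.nd 128 (.nd 64 (.lf [(63, 5)]) .nil) (.nd 64 (.lf [(7, 95443),
  (49, 7)]) (.lf [(45, 3)]))) (.nd 128 (.nd 64 (.lf [(47, 3)]) (.lf [(55, 3)])) (.nd 64 .nil (.lf [(29, 8623),
  (35, 19)])))) (.nd 256 (.nd 128 (.nd 64 .nil (.lf [(39, 13)])) (.nd 64 (.lf [(17, 7), (47, 271)]) (.lf [(19,
  0)]))) (.nd 128 (.nd 64 .nil (.lf [(35, 103)])) (.nd 64 (.lf [(49, 311)]) .nil)))) (.nd 512 (.nd 256 (.nd 128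
  .nil (.nd 64 (.lf [(63, 13)]) .nil)) (.nd 128 (.nd 64 .nil (.lf [(21, 3)])) (.nd 64 (.lf [(17, 3)]) .nil)))
  (.nd 256 (.nd 128 (.nd 64 (.lf [(27, 85819)]) (.lf [(23, 89)])) (.nd 64 (.lf [(31, 83)]) .nil)) (.nd 128 (.nd
  64 (.lf [(11, 3)]) (.lf [(1, 3)])) (.nd 64 (.lf [(63, 83)]) (.lf [(59, 3)]))))))) (.nd 2048 (.nd 1024 (.nd 512
  (.nd 256 (.nd 128 (.nd 64 (.lf [(37, 1061)]) .nil) (.nd 64 (.lf [(17, 3)]) (.lf [(7, 19), (43, 3)]))) (.nd 128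
  (.nd 64 (.lf [(3, 3)]) (.lf [(47, 3)])) (.nd 64 .nil (.lf [(9, 3739)])))) (.nd 256 (.nd 128 (.nd 64 .nil (.lf
  [(31, 5)])) (.nd 64 (.lf [(57, 109)]) .nil)) (.nd 128 (.nd 64 (.lf [(37, 11), (61, 7)]) .nil) (.nd 64 .nil
  (.lf [(25, 3), (55, 127)]))))) (.nd 512 (.nd 256 (.nd 128 (.nd 64 (.lf [(15, 3), (51, 3)]) .nil) .nil) (.nd
  128 (.nd 64 .nil (.lf [(25, 3)])) (.nd 64 .nil (.lf [(47, 3)])))) (.nd 256 (.nd 128 (.nd 64 (.lf [(43, 0)])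
  .nil) (.nd 64 (.lf [(23, 5)]) (.lf [(61, 7)]))) .nil))) (.nd 1024 (.nd 512 (.nd 256 (.nd 128 (.nd 64 (.lf
  [(17, 3), (41, 3)]) .nil) (.nd 64 (.lf [(3, 1)]) .nil)) (.nd 128 (.nd 64 .nil (.lf [(9, 16487), (21, 17)]))
  .nil)) (.nd 256 (.nd 128 .nil (.nd 64 (.lf [(19, 3)]) .nil)) (.nd 128 (.nd 64 (.lf [(29, 5), (59, 5)]) .nil)
  (.nd 64 (.lf [(33, 7), (45, 3)]) (.lf [(47, 3)]))))) (.nd 512 (.nd 256 (.nd 128 (.nd 64 .nil (.lf [(39,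
  19661)])) (.nd 64 .nil (.lf [(31, 139)]))) (.nd 128 .nil (.nd 64 (.lf [(13, 5), (49, 5)]) (.lf [(27, 13), (45,
  5)])))) (.nd 256 (.nd 128 (.nd 64 (.lf [(23, 307)]) (.lf [(1, 7)])) (.nd 64 (.lf [(45, 23), (57, 3)]) .nil))
  (.nd 128 (.nd 64 (.lf [(49, 3)]) .nil) (.nd 64 (.lf [(11, 5)]) .nil))))))))) (.nd 16384 (.nd 8192 (.nd 4096
  (.nd 2048 (.nd 1024 (.nd 512 (.nd 256 (.nd 128 .nil (.nd 64 (.lf [(1, 19)]) .nil)) (.nd 128 (.nd 64 (.lf [(53,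
  0)]) (.lf [(19, 3)])) (.nd 64 (.lf [(45, 0)]) .nil))) (.nd 256 (.nd 128 (.nd 64 (.lf [(19, 67), (37, 59), (61,
  7)]) .nil) (.nd 64 .nil (.lf [(55, 3)]))) (.nd 128 (.nd 64 (.lf [(15, 5), (45, 13)]) .nil) (.nd 64 (.lf [(25,
  7)]) .nil)))) (.nd 512 (.nd 256 (.nd 128 (.nd 64 .nil (.lf [(13, 3)])) (.nd 64 (.lf [(39, 3)]) (.lf [(5,
  0)]))) (.nd 128 (.nd 64 (.lf [(49, 509), (61, 0)]) .nil) .nil)) (.nd 256 (.nd 128 (.nd 64 (.lf [(57, 5)]) (.lf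
  [(53, 7)])) (.nd 64 .nil (.lf [(51, 3)]))) (.nd 128 .nil (.nd 64 .nil (.lf [(29, 97)])))))) (.nd 1024 (.nd 512
  (.nd 256 (.nd 128 (.nd 64 (.lf [(61, 5)]) .nil) (.nd 64 (.lf [(47, 270551)]) (.lf [(43, 7)]))) (.nd 128 (.nd
  64 (.lf [(15, 11)]) (.lf [(23, 5)])) (.nd 64 .nil (.lf [(33, 3)])))) (.nd 256 (.nd 128 (.nd 64 (.lf [(29, 7),
  (53, 5)]) (.lf [(49, 149)])) .nil) (.nd 128 (.nd 64 (.lf [(25, 1193)]) .nil) (.nd 64 .nil (.lf [(31, 29), (61,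
  17)]))))) (.nd 512 (.nd 256 (.nd 128 (.nd 64 .nil (.lf [(23, 31)])) (.nd 64 .nil (.lf [(9, 7), (15, 3)])))
  (.nd 128 (.nd 64 (.lf [(35, 3)]) .nil) (.nd 64 (.lf [(15, 3)]) (.lf [(11, 3)])))) (.nd 256 (.nd 128 (.nd 64
  (.lf [(25, 7), (37, 19)]) (.lf [(3, 14347)])) (.nd 64 (.lf [(41, 193)]) (.lf [(43, 3)]))) (.nd 128 (.nd 64
  (.lf [(21, 7)]) (.lf [(5, 19), (59, 3)])) (.nd 64 (.lf [(25, 3)]) (.lf [(57, 0)]))))))) (.nd 2048 (.nd 1024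
  (.nd 512 (.nd 256 (.nd 128 .nil (.nd 64 .nil (.lf [(5, 3), (23, 5)]))) (.nd 128 (.nd 64 (.lf [(1, 5), (19,
  3)]) .nil) (.nd 64 (.lf [(23, 14653), (41, 3), (53, 3693779)]) .nil))) (.nd 256 (.nd 128 .nil (.nd 64 (.lf
  [(37, 3), (55, 42569)]) (.lf [(33, 7681)]))) (.nd 128 (.nd 64 .nil (.lf [(13, 12239), (43, 5)])) (.nd 64 (.lf
  [(57, 3)]) .nil)))) (.nd 512 (.nd 256 (.nd 128 (.nd 64 (.lf [(31, 1447), (61, 163)]) (.lf [(27, 281)])) (.nd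
  64 (.lf [(41, 24953)]) (.lf [(7, 23)]))) (.nd 128 (.nd 64 (.lf [(27, 5)]) .nil) (.nd 64 (.lf [(7, 13309), (55,
  7)]) (.lf [(21, 7)])))) (.nd 256 (.nd 128 (.nd 64 (.lf [(47, 3)]) (.lf [(13, 73), (55, 613)])) (.nd 64 (.lf
  [(39, 3), (63, 5)]) .nil)) (.nd 128 (.nd 64 (.lf [(43, 37)]) (.lf [(27, 41), (51, 5)])) (.nd 64 (.lf [(47,
  3)]) (.lf [(13, 5)])))))) (.nd 1024 (.nd 512 (.nd 256 (.nd 128 .nil (.nd 64 (.lf [(1, 1327)]) (.lf [(15, 7),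
  (57, 0), (63, 7)]))) (.nd 128 .nil (.nd 64 (.lf [(51, 7)]) (.lf [(17, 11)])))) (.nd 256 (.nd 128 (.nd 64 .nil
  (.lf [(9, 0)])) (.nd 64 (.lf [(17, 17)]) (.lf [(25, 5)]))) (.nd 128 (.nd 64 (.lf [(27, 3), (57, 3)]) (.lf
  [(23, 13)])) (.nd 64 (.lf [(1, 0)]) .nil)))) (.nd 512 (.nd 256 (.nd 128 (.nd 64 .nil (.lf [(19, 3), (37, 7),
  (49, 3)])) .nil) (.nd 128 .nil (.nd 64 (.lf [(11, 14639)]) (.lf [(13, 7), (37, 11)])))) (.nd 256 (.nd 128 (.nd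
  64 (.lf [(51, 1291)]) .nil) (.nd 64 (.lf [(43, 83)]) .nil)) (.nd 128 (.nd 64 (.lf [(47, 5)]) (.lf [(31, 3)]))
  (.nd 64 (.lf [(45, 5)]) .nil))))))) (.nd 4096 (.nd 2048 (.nd 1024 (.nd 512 (.nd 256 (.nd 128 (.nd 64 (.lf
  [(49, 0)]) .nil) (.nd 64 (.lf [(41, 3)]) .nil)) (.nd 128 (.nd 64 (.lf [(3, 3)]) (.lf [(41, 3)])) .nil)) (.nd
  256 (.nd 128 (.nd 64 (.lf [(17, 0), (29, 37)]) .nil) (.nd 64 .nil (.lf [(17, 3)]))) (.nd 128 (.nd 64 (.lf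
  [(31, 3)]) .nil) (.nd 64 (.lf [(11, 173)]) .nil)))) (.nd 512 (.nd 256 (.nd 128 .nil (.nd 64 (.lf [(25, 19)])
  (.lf [(51, 11)]))) (.nd 128 (.nd 64 (.lf [(29, 3)]) (.lf [(13, 7), (37, 3)])) (.nd 64 .nil (.lf [(47, 7)]))))
  (.nd 256 (.nd 128 (.nd 64 (.lf [(43, 3)]) (.lf [(21, 7), (51, 3)])) (.nd 64 .nil (.lf [(19, 3)]))) (.nd 128
  (.nd 64 (.lf [(27, 7), (39, 743)]) .nil) (.nd 64 .nil (.lf [(3, 283), (27, 11)])))))) (.nd 1024 (.nd 512 (.nd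
  256 (.nd 128 (.nd 64 .nil (.lf [(25, 3)])) (.nd 64 (.lf [(3, 5), (15, 7), (63, 13)]) .nil)) (.nd 128 (.nd 64
  (.lf [(43, 63671)]) (.lf [(21, 3), (33, 3)])) (.nd 64 (.lf [(17, 3)]) (.lf [(25, 3)])))) (.nd 256 (.nd 128
  (.nd 64 .nil (.lf [(23, 3)])) (.nd 64 (.lf [(1, 167)]) .nil)) (.nd 128 (.nd 64 (.lf [(5, 8087), (53, 397)])
  .nil) (.nd 64 (.lf [(33, 3)]) (.lf [(29, 3), (41, 3), (59, 191)]))))) (.nd 512 (.nd 256 (.nd 128 (.nd 64 .nil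
  (.lf [(63, 19)])) (.nd 64 (.lf [(17, 811), (29, 6679), (47, 3)]) .nil)) .nil) (.nd 256 (.nd 128 (.nd 64 .nil
  (.lf [(19, 5), (31, 61)])) (.nd 64 .nil (.lf [(41, 3)]))) (.nd 128 (.nd 64 .nil (.lf [(27, 470389)])) (.nd 64
  (.lf [(29, 5)]) (.lf [(49, 0)]))))))) (.nd 2048 (.nd 1024 (.nd 512 (.nd 256 (.nd 128 (.nd 64 (.lf [(33, 0)])
  .nil) (.nd 64 .nil (.lf [(39, 1171), (63, 3)]))) (.nd 128 (.nd 64 .nil (.lf [(43, 191)])) (.nd 64 (.lf [(39,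
  89)]) .nil))) (.nd 256 (.nd 128 (.nd 64 (.lf [(13, 7), (19, 3)]) .nil) (.nd 64 (.lf [(23, 5)]) .nil)) (.nd 128
  (.nd 64 (.lf [(33, 13)]) (.lf [(23, 317)])) (.nd 64 (.lf [(19, 3)]) .nil)))) (.nd 512 (.nd 256 .nil (.nd 128
  .nil (.nd 64 (.lf [(5, 3), (53, 0)]) .nil))) (.nd 256 (.nd 128 (.nd 64 .nil (.lf [(53, 3)])) (.nd 64 (.lf
  [(61, 3)]) .nil)) (.nd 128 .nil (.nd 64 (.lf [(3, 3)]) (.lf [(17, 17)])))))) (.nd 1024 (.nd 512 (.nd 256 (.nd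
  128 (.nd 64 (.lf [(43, 3)]) (.lf [(33, 3), (51, 0)])) (.nd 64 (.lf [(29, 3)]) (.lf [(31, 3), (55, 367)])))
  (.nd 128 .nil (.nd 64 (.lf [(31, 3)]) (.lf [(45, 5)])))) (.nd 256 (.nd 128 (.nd 64 .nil (.lf [(7, 0)])) (.nd
  64 .nil (.lf [(23, 62501), (41, 3), (53, 17)]))) (.nd 128 (.nd 64 (.lf [(55, 3)]) .nil) (.nd 64 (.lf [(29,
  3)]) .nil)))) (.nd 512 (.nd 256 (.nd 128 (.nd 64 (.lf [(21, 43), (63, 3)]) (.lf [(59, 3)])) (.nd 64 (.lf [(13,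
  3), (61, 3)]) (.lf [(27, 229)]))) (.nd 128 (.nd 64 (.lf [(23, 5)]) .nil) (.nd 64 (.lf [(9, 0)]) (.lf [(35, 3),
  (41, 3)])))) (.nd 256 (.nd 128 (.nd 64 .nil (.lf [(27, 3)])) (.nd 64 (.lf [(11, 0), (29, 3637)]) (.lf [(19,
  3)]))) (.nd 128 .nil (.nd 64 (.lf [(25, 109)]) (.lf [(63, 103)]))))))))) (.nd 8192 (.nd 4096 (.nd 2048 (.nd
  1024 (.nd 512 (.nd 256 (.nd 128 (.nd 64 .nil (.lf [(25, 5), (61, 5)])) (.nd 64 (.lf [(9, 1), (21, 5), (51,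
  54059)]) (.lf [(23, 41), (53, 0)]))) (.nd 128 (.nd 64 .nil (.lf [(39, 5)])) (.nd 64 (.lf [(35, 13)]) .nil)))
  (.nd 256 (.nd 128 (.nd 64 (.lf [(33, 3)]) .nil) (.nd 64 (.lf [(37, 3)]) (.lf [(15, 3), (21, 3), (51,
  1900429)]))) (.nd 128 (.nd 64 .nil (.lf [(7, 11)])) (.nd 64 (.lf [(33, 229)]) (.lf [(5, 3), (29, 3), (59,
  3)]))))) (.nd 512 (.nd 256 (.nd 128 (.nd 64 .nil (.lf [(9, 3)])) (.nd 64 (.lf [(35, 5)]) (.lf [(13, 151), (43,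
  3)]))) (.nd 128 (.nd 64 (.lf [(15, 3)]) (.lf [(35, 3)])) (.nd 64 .nil (.lf [(33, 313)])))) (.nd 256 (.nd 128
  (.nd 64 (.lf [(53, 3)]) .nil) (.nd 64 (.lf [(51, 7)]) (.lf [(17, 17), (47, 3)]))) (.nd 128 (.nd 64 (.lf [(55,
  5)]) (.lf [(39, 3)])) (.nd 64 .nil (.lf [(1, 167), (55, 5)])))))) (.nd 1024 (.nd 512 (.nd 256 (.nd 128 .nil
  (.nd 64 (.lf [(19, 0)]) (.lf [(27, 29)]))) (.nd 128 (.nd 64 (.lf [(5, 3), (11, 3), (53, 3)]) .nil) (.nd 64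
  .nil (.lf [(29, 31), (59, 37)])))) (.nd 256 (.nd 128 (.nd 64 (.lf [(37, 3)]) (.lf [(33, 5)])) .nil) (.nd 128
  (.nd 64 (.lf [(3, 373), (9, 113)]) .nil) .nil))) (.nd 512 (.nd 256 (.nd 128 (.nd 64 .nil (.lf [(61, 3)])) (.nd
  64 (.lf [(15, 0)]) .nil)) (.nd 128 (.nd 64 .nil (.lf [(33, 7), (57, 3)])) (.nd 64 (.lf [(29, 149)]) .nil)))
  (.nd 256 (.nd 128 (.nd 64 (.lf [(21, 17), (33, 3)]) (.lf [(29, 7), (41, 5), (47, 1777)])) (.nd 64 (.lf [(37,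
  73)]) (.lf [(3, 257), (39, 29), (51, 13)]))) (.nd 128 (.nd 64 (.lf [(59, 601)]) (.lf [(43, 0)])) (.nd 64 (.lf
  [(21, 0)]) (.lf [(23, 3), (47, 5)]))))))) (.nd 2048 (.nd 1024 (.nd 512 (.nd 256 (.nd 128 (.nd 64 (.lf [(43,
  7), (61, 3)]) .nil) (.nd 64 (.lf [(23, 157)]) (.lf [(31, 17), (61, 1)]))) (.nd 128 (.nd 64 .nil (.lf [(29,
  11)])) (.nd 64 (.lf [(49, 19)]) (.lf [(3, 197)])))) (.nd 256 (.nd 128 (.nd 64 .nil (.lf [(37, 3)])) (.nd 64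
  (.lf [(21, 0)]) (.lf [(35, 1021)]))) (.nd 128 (.nd 64 (.lf [(43, 5)]) .nil) (.nd 64 (.lf [(53, 3)]) (.lf [(31,
  5), (49, 3)]))))) (.nd 512 (.nd 256 (.nd 128 .nil (.nd 64 (.lf [(37, 3)]) (.lf [(63, 5)]))) (.nd 128 .nil (.nd
  64 (.lf [(3, 1697), (45, 19717)]) (.lf [(29, 3)])))) (.nd 256 (.nd 128 (.nd 64 (.lf [(37, 3), (43, 5)]) .nil)
  (.nd 64 (.lf [(5, 13)]) (.lf [(25, 3)]))) (.nd 128 (.nd 64 .nil (.lf [(47, 7), (53, 47)])) (.nd 64 .nil (.lf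
  [(9, 5), (15, 89)])))))) (.nd 1024 (.nd 512 (.nd 256 (.nd 128 (.nd 64 (.lf [(11, 5)]) .nil) (.nd 64 .nil (.lf
  [(41, 2969)]))) (.nd 128 (.nd 64 (.lf [(7, 3), (49, 5)]) (.lf [(3, 5)])) (.nd 64 .nil (.lf [(7, 1)])))) (.nd
  256 (.nd 128 .nil (.nd 64 .nil (.lf [(21, 991)]))) (.nd 128 .nil (.nd 64 .nil (.lf [(5, 140143), (41, 5)])))))
  (.nd 512 (.nd 256 (.nd 128 (.nd 64 (.lf [(7, 3), (19, 23)]) (.lf [(57, 149)])) (.nd 64 (.lf [(53, 3)]) (.lf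
  [(55, 13)]))) (.nd 128 (.nd 64 (.lf [(63, 23)]) .nil) (.nd 64 .nil (.lf [(39, 0)])))) (.nd 256 (.nd 128 (.nd
  64 (.lf [(47, 3), (59, 7)]) (.lf [(61, 11)])) (.nd 64 (.lf [(27, 11), (51, 5)]) (.lf [(35, 5)]))) (.nd 128
  (.nd 64 (.lf [(43, 5)]) (.lf [(15, 3), (27, 0), (45, 3), (57, 7)])) .nil)))))) (.nd 4096 (.nd 2048 (.nd 1024
  (.nd 512 (.nd 256 (.nd 128 .nil (.nd 64 (.lf [(19, 3)]) (.lf [(15, 20707)]))) (.nd 128 (.nd 64 .nil (.lf [(7,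
  3)])) .nil)) (.nd 256 (.nd 128 (.nd 64 (.lf [(25, 0), (31, 7)]) (.lf [(51, 3)])) (.nd 64 .nil (.lf [(19,
  3)]))) (.nd 128 .nil (.nd 64 (.lf [(37, 5)]) (.lf [(45, 3)]))))) (.nd 512 (.nd 256 (.nd 128 .nil (.nd 64 (.lf
  [(15, 3)]) .nil)) (.nd 128 (.nd 64 (.lf [(13, 3), (25, 3)]) (.lf [(39, 7)])) (.nd 64 (.lf [(29, 29)]) (.lf
  [(1, 5), (31, 17)])))) (.nd 256 (.nd 128 (.nd 64 (.lf [(39, 13)]) (.lf [(5, 1667)])) (.nd 64 (.lf [(49, 907)])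
  (.lf [(39, 11287)]))) (.nd 128 (.nd 64 (.lf [(35, 3), (53, 373)]) .nil) (.nd 64 .nil (.lf [(11, 3)])))))) (.nd
  1024 (.nd 512 (.nd 256 (.nd 128 (.nd 64 (.lf [(7, 7)]) .nil) (.nd 64 (.lf [(17, 3)]) .nil)) (.nd 128 (.nd 64
  .nil (.lf [(5, 7), (17, 3), (59, 11)])) (.nd 64 (.lf [(43, 0), (55, 19)]) .nil))) (.nd 256 (.nd 128 (.nd 64
  (.lf [(47, 83)]) (.lf [(31, 3), (61, 3)])) .nil) (.nd 128 (.nd 64 (.lf [(19, 1669)]) .nil) (.nd 64 .nil (.lf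
  [(7, 0), (37, 3)]))))) (.nd 512 (.nd 256 (.nd 128 (.nd 64 (.lf [(15, 479), (45, 3)]) .nil) (.nd 64 (.lf [(13,
  1), (43, 7)]) (.lf [(9, 13)]))) (.nd 128 (.nd 64 .nil (.lf [(13, 5), (61, 2221)])) (.nd 64 (.lf [(21, 3), (51,
  11)]) (.lf [(17, 29)])))) (.nd 256 (.nd 128 (.nd 64 (.lf [(31, 5)]) (.lf [(39, 53)])) (.nd 64 .nil (.lf [(1,
  5), (49, 11)]))) (.nd 128 (.nd 64 (.lf [(27, 3)]) (.lf [(11, 3)])) (.nd 64 .nil (.lf [(51, 3)]))))))) (.nd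
  2048 (.nd 1024 (.nd 512 (.nd 256 (.nd 128 (.nd 64 (.lf [(11, 101), (17, 109), (29, 811)]) (.lf [(43, 11)]))
  (.nd 64 (.lf [(39, 3)]) (.lf [(17, 3)]))) (.nd 128 .nil (.nd 64 (.lf [(23, 37), (53, 37)]) (.lf [(1, 4349),
  (31, 7)])))) (.nd 256 (.nd 128 (.nd 64 .nil (.lf [(11, 7), (35, 97), (53, 3)])) .nil) (.nd 128 (.nd 64 (.lf
  [(53, 43)]) (.lf [(19, 3)])) (.nd 64 (.lf [(15, 13)]) (.lf [(59, 19)]))))) (.nd 512 (.nd 256 (.nd 128 (.nd 64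
  (.lf [(37, 5)]) .nil) (.nd 64 (.lf [(5, 3)]) (.lf [(1, 71), (13, 1163)]))) (.nd 128 (.nd 64 .nil (.lf [(17,
  5)])) (.nd 64 (.lf [(31, 0)]) (.lf [(27, 7)])))) (.nd 256 (.nd 128 (.nd 64 (.lf [(35, 3)]) .nil) (.nd 64 (.lf
  [(27, 7)]) .nil)) (.nd 128 (.nd 64 .nil (.lf [(3, 3), (33, 3), (45, 229)])) (.nd 64 (.lf [(41, 1)]) (.lf [(7,
  211)])))))) (.nd 1024 (.nd 512 (.nd 256 (.nd 128 (.nd 64 (.lf [(51, 1)]) (.lf [(5, 3), (29, 11)])) (.nd 64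
  (.lf [(61, 59)]) .nil)) (.nd 128 (.nd 64 (.lf [(17, 107)]) .nil) (.nd 64 (.lf [(57, 23)]) (.lf [(5, 73)]))))
  (.nd 256 (.nd 128 (.nd 64 (.lf [(19, 13), (61, 41)]) (.lf [(33, 11), (45, 304393), (63, 3)])) (.nd 64 (.lf
  [(59, 3)]) (.lf [(7, 3), (37, 0)]))) (.nd 128 (.nd 64 (.lf [(63, 3)]) (.lf [(17, 5)])) (.nd 64 (.lf [(55,
  11)]) .nil)))) (.nd 512 (.nd 256 (.nd 128 (.nd 64 (.lf [(17, 3)]) (.lf [(13, 3), (43, 5)])) (.nd 64 (.lf [(51,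
  3)]) (.lf [(53, 3)]))) (.nd 128 (.nd 64 (.lf [(31, 487)]) .nil) (.nd 64 .nil (.lf [(49, 3), (61, 619)]))))
  (.nd 256 (.nd 128 (.nd 64 (.lf [(15, 17)]) (.lf [(59, 3)])) (.nd 64 .nil (.lf [(15, 3), (21, 0), (33,
  10781)]))) (.nd 128 (.nd 64 .nil (.lf [(25, 229), (43, 7)])) (.nd 64 (.lf [(3, 233), (39, 0), (63, 13)])
  .nil)))))))))))) (.nd 131072 (.nd 65536 (.nd 32768 (.nd 16384 (.nd 8192 (.nd 4096 (.nd 2048 (.nd 1024 (.nd 512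
  (.nd 256 (.nd 128 (.nd 64 .nil (.lf [(9, 19), (57, 13)])) (.nd 64 .nil (.lf [(61, 0)]))) (.nd 128 (.nd 64 .nil
  (.lf [(11, 13), (23, 13)])) (.nd 64 (.lf [(1, 13), (37, 11)]) .nil))) (.nd 256 (.nd 128 (.nd 64 (.lf [(41, 5),
  (53, 3)]) (.lf [(55, 929)])) (.nd 64 (.lf [(63, 3)]) (.lf [(11, 67)]))) (.nd 128 (.nd 64 (.lf [(37, 631)])
  (.lf [(3, 5), (39, 2969)])) (.nd 64 (.lf [(35, 11)]) (.lf [(55, 0)]))))) (.nd 512 (.nd 256 (.nd 128 (.nd 64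
  (.lf [(57, 3)]) (.lf [(5, 53), (23, 2213), (35, 3), (47, 3)])) (.nd 64 (.lf [(43, 5)]) (.lf [(9, 3), (45,
  1061)]))) (.nd 128 (.nd 64 (.lf [(23, 3), (53, 11)]) (.lf [(7, 137)])) (.nd 64 (.lf [(15, 5), (27, 2029)])
  (.lf [(29, 463), (59, 3)])))) (.nd 256 (.nd 128 (.nd 64 (.lf [(49, 7)]) .nil) (.nd 64 (.lf [(17, 3)]) (.lf
  [(43, 3)]))) (.nd 128 (.nd 64 (.lf [(3, 5), (21, 3), (33, 1)]) (.lf [(29, 5), (35, 5)])) (.nd 64 (.lf [(43,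
  23), (61, 31)]) (.lf [(9, 129119), (39, 7)])))))) (.nd 1024 (.nd 512 (.nd 256 (.nd 128 (.nd 64 (.lf [(5, 11),
  (47, 3), (53, 59)]) .nil) (.nd 64 (.lf [(9, 3), (57, 5)]) .nil)) (.nd 128 (.nd 64 (.lf [(49, 3)]) (.lf [(15,
  7)])) (.nd 64 .nil (.lf [(55, 59)])))) (.nd 256 (.nd 128 (.nd 64 (.lf [(3, 17), (63, 1374271)]) (.lf [(17, 3),
  (41, 19963)])) (.nd 64 (.lf [(7, 3)]) (.lf [(9, 3507839), (51, 7)]))) (.nd 128 .nil (.nd 64 (.lf [(27, 601)])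
  (.lf [(5, 3), (35, 3)]))))) (.nd 512 (.nd 256 (.nd 128 (.nd 64 (.lf [(13, 7), (43, 71)]) .nil) (.nd 64 (.lf
  [(11, 23), (23, 53), (41, 73)]) (.lf [(1, 14323), (7, 1), (61, 3)]))) (.nd 128 (.nd 64 (.lf [(27, 7)]) (.lf
  [(11, 1), (29, 3)])) (.nd 64 (.lf [(19, 17), (25, 6389)]) (.lf [(45, 3)])))) (.nd 256 (.nd 128 (.nd 64 (.lf
  [(47, 31)]) (.lf [(7, 3), (37, 179)])) (.nd 64 (.lf [(21, 3), (33, 3)]) .nil)) (.nd 128 (.nd 64 (.lf [(25,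
  2381), (31, 5), (61, 73)]) (.lf [(21, 19)])) (.nd 64 .nil (.lf [(1, 1), (19, 0), (31, 3), (43, 13)])))))))
  (.nd 2048 (.nd 1024 (.nd 512 (.nd 256 (.nd 128 (.nd 64 (.lf [(27, 757)]) (.lf [(41, 3)])) (.nd 64 (.lf [(37,
  7)]) (.lf [(3, 1), (15, 0), (33, 1), (45, 3)]))) (.nd 128 (.nd 64 .nil (.lf [(55, 3)])) (.nd 64 (.lf [(15,
  153649), (45, 67), (51, 1943663), (63, 3)]) .nil))) (.nd 256 (.nd 128 (.nd 64 .nil (.lf [(21, 7), (39, 13),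
  (63, 1)])) (.nd 64 (.lf [(17, 1549), (47, 3)]) (.lf [(31, 7)]))) (.nd 128 (.nd 64 (.lf [(27, 3), (57, 3)])
  (.lf [(5, 19)])) (.nd 64 (.lf [(13, 3), (49, 1)]) (.lf [(15, 1), (27, 1), (57, 241)]))))) (.nd 512 (.nd 256
  (.nd 128 (.nd 64 (.lf [(5, 5147), (35, 23), (41, 3), (53, 59)]) (.lf [(19, 29), (31, 3), (61, 13)])) (.nd 64
  (.lf [(3, 1), (33, 1), (45, 3), (63, 1)]) (.lf [(11, 3), (23, 1), (29, 2), (35, 1), (37, 1)]))) .nil) .nil))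
  .nil)) .nil) .nil) .nil) .nil) .nil))

theorem okE : TreeOK 267497 211 1 tEP 160 tEM 1425 where
  cpos := by decide
  le := by decide +kernel
  lt := by decide +kernel
  of1 := by decide +kernel
  of2 := by decide +kernel

theorem okF : TreeOK 267497 149 2 tFP 787 tFM 2573 where
  cpos := by decide
  le := by decide +kernel
  lt := by decide +kernel
  of1 := by decide +kernel
  of2 := by decide +kernel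

theorem bndW : bnd wT 524288 = true := by decide +kernel

theorem covW : cov 267497 PJ wT = true := by decide +kernel

theorem listW : ((ents wT).all fun p => cond (Nat.beq p.2 1) (gList.elem (Nat.sub 267497 p.1)) true) = true := by
  decide +kernel

end Pool.Agent.Helper14.QP
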