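import Pool.Agent.Helper14.QP.QRun

/-! The counterexample `n = 267497`. -/

namespace Pool.Agent.Helper14.QP

theorem aQ_eq : aQ = pk 1536 (fun i => q (267497 - i)) (267497 + 1) := by
  unfold aQ eA fA2
  exact quo_eq (M := 2 ^ 1494) okE okF (by norm_num) (by norm_num) Nat.one_le_two_pow (by decide +kernel) q_bound

theorem PJ_two : ∀ p ∈ PJ, 2 ≤ p.1 := fun p hp => (PJ_ok.1 p hp).1.two_le

theorem twin_gen (N V b : ℕ) (w : W) (l : List (ℕ × ℕ)) (G : List ℕ) (hl : ∀ p ∈ l, 2 ≤ p.1)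
    (hV : V = pk 1536 (fun i => q (N - i)) (N + 1)) (hb : bnd w b = true) (hc : chk 1536 w V = true)
    (hcov : cov N l w = true) (hq : ∀ m ≤ N, q m < 2 ^ 1536)
    (hlist : ((ents w).all fun p => cond (Nat.beq p.2 1) (G.elem (Nat.sub N p.1)) true) = true) (m : ℕ)
    (hm3 : 3 ≤ m) (hmN : m ≤ N) (h1 : (m - 1).Prime) (h2 : (m + 1).Prime) (h3 : (q m + 1).Prime) : m ∈ G := by
  obtain ⟨r, hr⟩ := cov_spec N l hl w hcov m hm3 hmN h1 h2
  have ht := chk_spec 1536 w V b hb hc _ hr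
  have hd : dig 1536 V (N - m) = q m := by
    rw [hV, pk_dig (N + 1) (fun k _ => hq _ (by omega)) (N - m) (by omega), Nat.sub_sub_self hmN]
  have ht' : tst (dig 1536 V (N - m)) r = true := ht
  rw [hd] at ht'
  rcases tst_spec (q m) r (hq m hmN) ht' with h | h
  · have h4 := List.all_eq_true.1 hlist _ hr
    have h5 : cond (Nat.beq r 1) (G.elem (N - (N - m))) true = true := h4
    rw [h, Nat.sub_sub_self hmN] at h5
    exact List.elem_iff.1 h5
  · exact absurd h3 h

theorem twin_list (m : ℕ) (hm3 : 3 ≤ m) (hmN : m ≤ 267497) (h1 : (m - 1).Prime) (h2 : (m + 1).Prime)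
    (h3 : (q m + 1).Prime) : m ∈ gList :=
  twin_gen 267497 aQ 524288 wT PJ gList PJ_two aQ_eq bndW chkA covW
    (fun m hm => lt_of_le_of_lt (q_bound m hm) (Nat.pow_lt_pow_right Nat.one_lt_two (show 1494 < 1536 by decide))) listW m hm3 hmN h1 h2 h3

theorem main (k : ℕ) (hk1 : 1 ≤ k) (hk2 : k ≤ 267497 - 1) (m : ℕ)
    (hm : (m : ℚ) = (Nat.totient k : ℚ) + (Nat.totient (267497 - k) : ℚ) / 4) (h1 : (m - 1).Prime) (h2 : (m + 1).Prime)
    (h3 : ((Nat.Partition.distincts m).card + 1).Prime) : False := by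
  have h4 : 4 * Nat.totient k + Nat.totient (267497 - k) = 4 * m := by
    have : (4 : ℚ) * Nat.totient k + Nat.totient (267497 - k) = 4 * m := by rw [hm]; ring
    exact_mod_cast this
  have h5 := Nat.totient_le k
  have h6 := Nat.totient_le (267497 - k)
  have h7 : m ∈ gList := twin_list m (by have := h1.two_le; omega) (by omega) h1 h2 h3
  obtain ⟨k', rfl⟩ : ∃ k', k = k' + 1 := ⟨k - 1, by omega⟩
  have h8 := phi_ne m h7 k' (by omega)
  have h9 : 267497 - (k' + 1) = 267496 - k' := by omega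
  rw [h9] at h4
  exact h8 h4

end Pool.Agent.Helper14.QP
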