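import Pool.Agent.Helper14.Tri.Sieve

/-! Arrays packed into one natural number (fields of `w` bits). -/

namespace Pool.Agent.Helper14.QP

open Pool.Agent.Helper14.Tri (and_split comb_testBit)

/-- The array `f 0, ..., f (n-1)` packed with `w` bits per field. -/
def pk (w : ℕ) (f : ℕ → ℕ) : ℕ → ℕ
  | 0 => 0
  | n + 1 => 2 ^ (w * n) * f n + pk w f n

theorem pk_succ (w : ℕ) (f : ℕ → ℕ) (n : ℕ) : pk w f (n + 1) = 2 ^ (w * n) * f n + pk w f n := rfl

theorem pk_lt {w : ℕ} {f : ℕ → ℕ} (n : ℕ) (h : ∀ k < n, f k < 2 ^ w) : pk w f n < 2 ^ (w * n) := by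
  induction n with
  | zero => simp [pk]
  | succ n ih =>
    rw [pk_succ]
    have h1 := ih fun k hk => h k (by omega)
    have h2 := h n (by omega)
    calc 2 ^ (w * n) * f n + pk w f n < 2 ^ (w * n) * f n + 2 ^ (w * n) := by omega
      _ = 2 ^ (w * n) * (f n + 1) := by ring
      _ ≤ 2 ^ (w * n) * 2 ^ w := Nat.mul_le_mul_left _ h2
      _ = 2 ^ (w * (n + 1)) := by rw [← pow_add]; ring_nf

theorem pk_congr {w : ℕ} {f g : ℕ → ℕ} (n : ℕ) (h : ∀ k < n, f k = g k) : pk w f n = pk w g n := by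
  induction n with
  | zero => rfl
  | succ n ih => rw [pk_succ, pk_succ, ih fun k hk => h k (by omega), h n (by omega)]

theorem pk_add (w : ℕ) (f g : ℕ → ℕ) (n : ℕ) : pk w f n + pk w g n = pk w (fun k => f k + g k) n := by
  induction n with
  | zero => rfl
  | succ n ih => rw [pk_succ, pk_succ, pk_succ, ← ih]; ring

theorem pk_mul (w c : ℕ) (f : ℕ → ℕ) (n : ℕ) : pk w f n * c = pk w (fun k => f k * c) n := by
  induction n with
  | zero => simp [pk]
  | succ n ih => rw [pk_succ, pk_succ, ← ih]; ring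

theorem pk_sub (w : ℕ) (f g : ℕ → ℕ) (n : ℕ) (h : ∀ k < n, g k ≤ f k) :
    pk w f n - pk w g n = pk w (fun k => f k - g k) n := by
  have h1 : pk w f n = pk w (fun k => f k - g k) n + pk w g n := by
    rw [pk_add]
    exact pk_congr n fun k hk => by have := h k hk; omega
  rw [h1, Nat.add_sub_cancel]

theorem pk_div (w c : ℕ) (hc : 0 < c) (f : ℕ → ℕ) (n : ℕ) (h : ∀ k < n, c ∣ f k) :
    pk w f n / c = pk w (fun k => f k / c) n := by
  have h1 : pk w f n = pk w (fun k => f k / c) n * c := by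
    rw [pk_mul]
    exact pk_congr n fun k hk => (Nat.div_mul_cancel (h k hk)).symm
  rw [h1, Nat.mul_div_cancel _ hc]

theorem pk_testBit {w : ℕ} {f : ℕ → ℕ} (n : ℕ) (h : ∀ k < n, f k < 2 ^ w) (k b : ℕ) (hb : b < w) :
    (pk w f n).testBit (w * k + b) = (decide (k < n) && (f k).testBit b) := by
  induction n with
  | zero => simp [pk]
  | succ n ih =>
    have h1 := pk_lt n fun k hk => h k (by omega)
    rw [pk_succ, Nat.testBit_two_pow_mul_add _ h1]
    by_cases hkn : k < n
    · have h2 : w * k + b < w * n := by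
        calc w * k + b < w * k + w := by omega
          _ = w * (k + 1) := by ring
          _ ≤ w * n := Nat.mul_le_mul_left _ hkn
      rw [if_pos h2, ih fun k hk => h k (by omega)]
      simp [hkn, show k < n + 1 by omega]
    · have h2 : ¬ w * k + b < w * n := by
        have := Nat.mul_le_mul_left w (show n ≤ k by omega)
        omega
      rw [if_neg h2]
      rcases Nat.eq_or_lt_of_le (show n ≤ k by omega) with h3 | h3
      · subst h3
        have : w * n + b - w * n = b := by omega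
        rw [this]
        simp
      · have h4 : w ≤ w * k + b - w * n := by
          have := Nat.mul_le_mul_left w (show n + 1 ≤ k by omega)
          have e : w * (n + 1) = w * n + w := by ring
          omega
        have h5 : f n < 2 ^ (w * k + b - w * n) :=
          lt_of_lt_of_le (h n (by omega)) (Nat.pow_le_pow_right (by norm_num) h4)
        rw [Nat.testBit_lt_two_pow h5]
        simp [show ¬ k < n + 1 by omega]

theorem eq_of_fields {w : ℕ} (hw : 0 < w) {x y : ℕ}
    (h : ∀ k b, b < w → x.testBit (w * k + b) = y.testBit (w * k + b)) : x = y := by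
  apply Nat.eq_of_testBit_eq
  intro i
  have h1 := h (i / w) (i % w) (Nat.mod_lt _ hw)
  rwa [Nat.div_add_mod] at h1

/-- `land` with a longer packed array. -/
theorem pk_land {w : ℕ} (hw : 0 < w) {f g : ℕ → ℕ} (n m : ℕ) (hnm : n ≤ m) (hf : ∀ k < n, f k < 2 ^ w)
    (hg : ∀ k < m, g k < 2 ^ w) : pk w f n &&& pk w g m = pk w (fun k => f k &&& g k) n := by
  apply eq_of_fields hw
  intro k b hb
  rw [Nat.testBit_and, pk_testBit n hf k b hb, pk_testBit m hg k b hb,
    pk_testBit n (fun k hk => lt_of_le_of_lt Nat.and_le_left (hf k hk)) k b hb, Nat.testBit_and]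
  by_cases hk : k < n
  · simp [hk, show k < m by omega]
  · simp [hk]

theorem pk_lor {w : ℕ} (hw : 0 < w) {f g : ℕ → ℕ} (n : ℕ) (hf : ∀ k < n, f k < 2 ^ w)
    (hg : ∀ k < n, g k < 2 ^ w) : pk w f n ||| pk w g n = pk w (fun k => f k ||| g k) n := by
  apply eq_of_fields hw
  intro k b hb
  rw [Nat.testBit_or, pk_testBit n hf k b hb, pk_testBit n hg k b hb,
    pk_testBit n (fun k hk => Nat.or_lt_two_pow (hf k hk) (hg k hk)) k b hb, Nat.testBit_or]
  by_cases hk : k < n
  · simp [hk]
  · simp [hk]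

theorem pk_inj {w : ℕ} {f g : ℕ → ℕ} (n : ℕ) (hf : ∀ k < n, f k < 2 ^ w)
    (hg : ∀ k < n, g k < 2 ^ w) (h : pk w f n = pk w g n) (k : ℕ) (hk : k < n) : f k = g k := by
  apply Nat.eq_of_testBit_eq
  intro b
  by_cases hb : b < w
  · have h1 := pk_testBit n hf k b hb
    rw [h, pk_testBit n hg k b hb] at h1
    simpa [hk] using h1.symm
  · rw [Nat.testBit_lt_two_pow (lt_of_lt_of_le (hf k hk) (Nat.pow_le_pow_right (by norm_num) (by omega))),
      Nat.testBit_lt_two_pow (lt_of_lt_of_le (hg k hk) (Nat.pow_le_pow_right (by norm_num) (by omega)))]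

/-- The comb `1 + 2^d + ... + 2^(d(c-1))`. -/
noncomputable def comb (d c : ℕ) : ℕ := Nat.div (Nat.shiftLeft 1 (Nat.mul d c)) (Nat.sub (Nat.shiftLeft 1 d) 1)

theorem comb_def (d c : ℕ) : comb d c = 2 ^ (d * c) / (2 ^ d - 1) := by
  show (1 <<< (d * c)) / ((1 <<< d) - 1) = _
  rw [Nat.one_shiftLeft, Nat.one_shiftLeft]

/-- The mask of the fields `k ≡ r mod d`. -/
noncomputable def msk (w d c r : ℕ) : ℕ :=
  Nat.shiftLeft (Nat.mul (comb (Nat.mul w d) c) (Nat.sub (Nat.pow 2 w) 1)) (Nat.mul w r)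

theorem comb_succ {d : ℕ} (hd : 2 ≤ d) (c : ℕ) : comb d (c + 1) = 2 ^ (d * c) + comb d c := by
  rw [comb_def, comb_def]
  have hpp : 4 ≤ 2 ^ d := by
    have : 2 ^ 2 ≤ 2 ^ d := Nat.pow_le_pow_right (by norm_num) hd
    omega
  have : 2 ^ (d * (c + 1)) = (2 ^ d - 1) * 2 ^ (d * c) + 2 ^ (d * c) := by
    rw [mul_add, mul_one, pow_add]
    have : 2 ^ d = (2 ^ d - 1) + 1 := by omega
    conv_lhs => rw [this]
    ring
  rw [this, Nat.mul_add_div (by omega)]

theorem comb_zero {d : ℕ} (hd : 2 ≤ d) : comb d 0 = 0 := by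
  rw [comb_def]
  have hpp : 4 ≤ 2 ^ d := by
    have : 2 ^ 2 ≤ 2 ^ d := Nat.pow_le_pow_right (by norm_num) hd
    omega
  rw [mul_zero, pow_zero]
  exact Nat.div_eq_of_lt (by omega)

theorem comb_one_pk {w : ℕ} (hw : 2 ≤ w) (n : ℕ) : comb w n = pk w (fun _ => 1) n := by
  induction n with
  | zero => rw [comb_zero hw]; rfl
  | succ n ih => rw [comb_succ hw, pk_succ, ih, mul_one]

/-- Packed arrays that vanish on an initial/final stretch. -/
theorem pk_ext_zero (w : ℕ) (f : ℕ → ℕ) (n m : ℕ) (hnm : n ≤ m) (h : ∀ k, n ≤ k → k < m → f k = 0) :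
    pk w f m = pk w f n := by
  induction m with
  | zero => have : n = 0 := by omega
            subst this; rfl
  | succ m ih =>
    rcases Nat.eq_or_lt_of_le hnm with h1 | h1
    · rw [h1]
    · rw [pk_succ, h m (by omega) (by omega), mul_zero, zero_add, ih (by omega) fun k h2 h3 => h k h2 (by omega)]

theorem msk_pk {w : ℕ} (hw : 2 ≤ w) (d : ℕ) (hd : 1 ≤ d) (r : ℕ) (hr : r < d) (c : ℕ) :
    msk w d c r = pk w (fun k => if k % d = r then 2 ^ w - 1 else 0) (d * c) := by
  have hwd : 2 ≤ w * d := le_trans hw (Nat.le_mul_of_pos_right w hd)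
  have e : msk w d c r = comb (w * d) c * (2 ^ w - 1) * 2 ^ (w * r) := by
    show (comb (w * d) c * (2 ^ w - 1)) <<< (w * r) = _
    rw [Nat.shiftLeft_eq]
  rw [e]
  clear e
  induction c with
  | zero => rw [comb_zero hwd]; simp [pk]
  | succ c ih =>
    rw [comb_succ hwd, add_mul, add_mul, ih]
    have h1 : pk w (fun k => if k % d = r then 2 ^ w - 1 else 0) (d * (c + 1)) =
        pk w (fun k => if k % d = r then 2 ^ w - 1 else 0) (d * c + r + 1) := by
      apply pk_ext_zero
      · rw [mul_add, mul_one]; omega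
      · intro k h1 h2
        rw [mul_add, mul_one] at h2
        rw [if_neg]
        intro h3
        have h4 := Nat.div_add_mod k d
        have h5 : k / d = c := by
          apply Nat.div_eq_of_lt_le
          · rw [mul_comm]; omega
          · rw [Nat.succ_mul, mul_comm]; omega
        rw [h5, h3] at h4
        omega
    have h2 : pk w (fun k => if k % d = r then 2 ^ w - 1 else 0) (d * c + r) =
        pk w (fun k => if k % d = r then 2 ^ w - 1 else 0) (d * c) := by
      apply pk_ext_zero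
      · omega
      · intro k h1 h2
        rw [if_neg]
        intro h3
        have h4 := Nat.div_add_mod k d
        have h5 : k / d = c := by
          apply Nat.div_eq_of_lt_le
          · rw [mul_comm]; omega
          · rw [Nat.succ_mul, mul_comm]; omega
        rw [h5, h3] at h4
        omega
    rw [h1, pk_succ, h2, if_pos (by rw [Nat.mul_add_mod, Nat.mod_eq_of_lt hr])]
    ring

/-- Selecting the fields `k ≡ r mod d`. -/
theorem pk_land_msk {w : ℕ} (hw : 2 ≤ w) (d : ℕ) (hd : 1 ≤ d) (r : ℕ) (hr : r < d) (c n : ℕ) (hn : n ≤ d * c)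
    (f : ℕ → ℕ) (hf : ∀ k < n, f k < 2 ^ w) :
    pk w f n &&& msk w d c r = pk w (fun k => if k % d = r then f k else 0) n := by
  rw [msk_pk hw d hd r hr c, pk_land (by omega) n (d * c) hn hf]
  · apply pk_congr
    intro k hk
    split_ifs with h
    · rw [Nat.and_two_pow_sub_one_eq_mod, Nat.mod_eq_of_lt (hf k hk)]
    · exact Nat.and_zero _
  · intro k _
    have : 1 ≤ 2 ^ w := Nat.one_le_two_pow
    split_ifs <;> omega

end Pool.Agent.Helper14.QP
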