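import Pool.Agent.Helper14.QP.Pack

/-! Totients by sieving: the arithmetic of one entry. -/

namespace Pool.Agent.Helper14.QP

/-- `v ∏ (1 - 1/p)` over the `p` in the list dividing `v`. -/
def aS (v : ℕ) (l : List (ℕ × ℕ)) : ℕ := List.rec v (fun p _ Y => if p.1 ∣ v then Y - Y / p.1 else Y) l

/-- Multiplication by `φ (p ^ e)`, `p ^ e` the exact power dividing `v`. -/
def inr (v p Y : ℕ) (J : ℕ) : ℕ :=
  Nat.rec Y (fun j Z => if p ^ (j + 1) ∣ v then Z + Z * (if j = 0 then p - 2 else p - 1) else Z) J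

/-- `φ` of the part of `v` composed of the primes in the list. -/
def bS (v : ℕ) (l : List (ℕ × ℕ)) : ℕ := List.rec 1 (fun p _ Y => inr v p.1 Y p.2) l

theorem aS_cons (v : ℕ) (p : ℕ × ℕ) (l : List (ℕ × ℕ)) :
    aS v (p :: l) = if p.1 ∣ v then aS v l - aS v l / p.1 else aS v l := rfl

theorem bS_cons (v : ℕ) (p : ℕ × ℕ) (l : List (ℕ × ℕ)) : bS v (p :: l) = inr v p.1 (bS v l) p.2 := rfl

theorem inr_succ (v p Y J : ℕ) : inr v p Y (J + 1) =
    if p ^ (J + 1) ∣ v then inr v p Y J + inr v p Y J * (if J = 0 then p - 2 else p - 1) else inr v p Y J := rfl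

/-- `φ (p ^ i)`. -/
def fp (p : ℕ) : ℕ → ℕ
  | 0 => 1
  | i + 1 => (p - 1) * p ^ i

theorem fp_eq {p : ℕ} (hp : p.Prime) (i : ℕ) : fp p i = Nat.totient (p ^ i) := by
  cases i with
  | zero => simp [fp]
  | succ i => rw [Nat.totient_prime_pow_succ hp]; simp [fp, mul_comm]

theorem inr_eq {v p : ℕ} (hp : p.Prime) (hv : v ≠ 0) (Y J : ℕ) :
    inr v p Y J = Y * fp p (min (v.factorization p) J) := by
  induction J with
  | zero => simp [inr, fp]
  | succ J ih =>
    rw [inr_succ, ih]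
    by_cases h : p ^ (J + 1) ∣ v
    · rw [if_pos h]
      have h1 : J + 1 ≤ v.factorization p := (hp.pow_dvd_iff_le_factorization hv).1 h
      rw [min_eq_right h1, min_eq_right (by omega)]
      have hp2 := hp.two_le
      cases J with
      | zero =>
        simp only [fp, if_true]
        obtain ⟨t, rfl⟩ : ∃ t, p = t + 2 := ⟨p - 2, by omega⟩
        simp
        ring
      | succ J =>
        simp only [fp, Nat.succ_ne_zero, if_false]
        obtain ⟨t, rfl⟩ : ∃ t, p = t + 2 := ⟨p - 2, by omega⟩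
        have : t + 2 - 1 = t + 1 := by omega
        rw [this]
        ring
    · rw [if_neg h]
      have h1 : ¬ J + 1 ≤ v.factorization p := fun h' => h ((hp.pow_dvd_iff_le_factorization hv).2 h')
      congr 2
      omega

/-- The invariant. -/
theorem inv {v : ℕ} (hv : v ≠ 0) (l : List (ℕ × ℕ)) (hp : ∀ p ∈ l, p.1.Prime ∧ v < p.1 ^ (p.2 + 1))
    (hn : (l.map Prod.fst).Nodup) :
    ∃ s c, v = s * c ∧ Nat.Coprime s c ∧ (∀ p ∈ l, ¬ p.1 ∣ c) ∧ (∀ q, q.Prime → q ∣ s → q ∈ l.map Prod.fst) ∧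
      aS v l = Nat.totient s * c ∧ bS v l = Nat.totient s := by
  induction l with
  | nil =>
    refine ⟨1, v, by simp, by simp, by simp, ?_, by simp [aS], by simp [bS]⟩
    intro q hq h
    exact absurd (Nat.dvd_one.1 h) hq.one_lt.ne'
  | cons p l ih =>
    rw [List.map_cons, List.nodup_cons] at hn
    obtain ⟨s, c, h1, h2, h3, h4, h5, h6⟩ := ih (fun q hq => hp q (List.mem_cons_of_mem _ hq)) hn.2
    obtain ⟨hpp, hpJ⟩ := hp p List.mem_cons_self
    have hps : ¬ p.1 ∣ s := fun h => hn.1 (h4 p.1 hpp h)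
    have hc0 : c ≠ 0 := by rintro rfl; simp at h1; exact hv h1
    have hs0 : s ≠ 0 := by rintro rfl; simp at h1; exact hv h1
    rw [aS_cons, bS_cons, h5, h6, inr_eq hpp hv]
    have hfv : v.factorization p.1 = c.factorization p.1 := by
      rw [h1, Nat.factorization_mul hs0 hc0, Finsupp.add_apply, Nat.factorization_eq_zero_of_not_dvd hps, zero_add]
    set e := c.factorization p.1 with he
    have heJ : e ≤ p.2 := by
      by_contra hcon
      have : p.1 ^ (p.2 + 1) ∣ v := (hpp.pow_dvd_iff_le_factorization hv).2 (by omega)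
      exact absurd (Nat.le_of_dvd (Nat.pos_of_ne_zero hv) this) (by omega)
    rw [hfv, min_eq_left heJ, fp_eq hpp]
    obtain ⟨c', hc'⟩ : p.1 ^ e ∣ c := Nat.ordProj_dvd c p.1
    have hc'p : ¬ p.1 ∣ c' := by
      intro h
      have : p.1 ^ (e + 1) ∣ c := by
        rw [hc', pow_succ]
        exact Nat.mul_dvd_mul_left _ h
      have := (hpp.pow_dvd_iff_le_factorization hc0).1 this
      omega
    have hcop : Nat.Coprime s (p.1 ^ e) := ((Nat.Prime.coprime_iff_not_dvd hpp).2 hps).symm.pow_right e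
    have hcop2 : Nat.Coprime s c' := h2.coprime_dvd_right ⟨p.1 ^ e, by rw [hc']; ring⟩
    refine ⟨s * p.1 ^ e, c', by rw [h1, hc']; ring, ?_, ?_, ?_, ?_, ?_⟩
    · exact Nat.Coprime.mul_left hcop2 (((Nat.Prime.coprime_iff_not_dvd hpp).2 hc'p).pow_left e)
    · intro q hq
      rcases List.mem_cons.1 hq with h | h
      · rw [h]; exact hc'p
      · intro h'
        exact h3 q h (by rw [hc']; exact Dvd.dvd.mul_left h' _)
    · intro q hq hqs
      rw [List.map_cons]
      rcases (hq.dvd_mul).1 hqs with h | h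
      · exact List.mem_cons_of_mem _ (h4 q hq h)
      · have := (Nat.prime_dvd_prime_iff_eq hq hpp).1 (hq.dvd_of_dvd_pow h)
        rw [this]; exact List.mem_cons_self
    · rw [Nat.totient_mul hcop]
      by_cases hd : p.1 ∣ v
      · rw [if_pos hd]
        have he1 : 1 ≤ e := by
          rw [← hfv]
          exact (hpp.dvd_iff_one_le_factorization hv).1 hd
        obtain ⟨i, hi⟩ : ∃ i, e = i + 1 := ⟨e - 1, by omega⟩
        rw [hc', hi, Nat.totient_prime_pow_succ hpp]
        have e1 : Nat.totient s * (p.1 ^ (i + 1) * c') = (Nat.totient s * p.1 ^ i * c') * p.1 := by ring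
        rw [e1, Nat.mul_div_cancel _ hpp.pos]
        have e2 : Nat.totient s * p.1 ^ i * c' * p.1 - Nat.totient s * p.1 ^ i * c' =
            Nat.totient s * p.1 ^ i * c' * (p.1 - 1) := by
          rw [Nat.mul_sub, mul_one]
        rw [e2]; ring
      · rw [if_neg hd]
        have he0 : e = 0 := by
          rw [← hfv]
          exact Nat.factorization_eq_zero_of_not_dvd hd
        rw [hc', he0]; simp
    · rw [Nat.totient_mul hcop]

theorem dvd_aS {v : ℕ} (hv : v ≠ 0) (p : ℕ × ℕ) (l : List (ℕ × ℕ)) (hp : ∀ q ∈ p :: l, q.1.Prime ∧ v < q.1 ^ (q.2 + 1))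
    (hn : ((p :: l).map Prod.fst).Nodup) (h : p.1 ∣ v) : p.1 ∣ aS v l := by
  rw [List.map_cons, List.nodup_cons] at hn
  obtain ⟨s, c, h1, h2, h3, h4, h5, h6⟩ := inv hv l (fun q hq => hp q (List.mem_cons_of_mem _ hq)) hn.2
  obtain ⟨hpp, _⟩ := hp p List.mem_cons_self
  rw [h5]
  rw [h1] at h
  rcases hpp.dvd_mul.1 h with h' | h'
  · exact absurd (h4 p.1 hpp h') hn.1
  · exact Dvd.dvd.mul_left h' _

theorem aS_le {v : ℕ} (hv : v ≠ 0) (l : List (ℕ × ℕ)) (hp : ∀ p ∈ l, p.1.Prime ∧ v < p.1 ^ (p.2 + 1))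
    (hn : (l.map Prod.fst).Nodup) : aS v l ≤ v := by
  obtain ⟨s, c, h1, h2, h3, h4, h5, h6⟩ := inv hv l hp hn
  rw [h5]
  conv_rhs => rw [h1]
  exact Nat.mul_le_mul_right _ (Nat.totient_le s)

theorem inr_le {v : ℕ} (hv : v ≠ 0) (p : ℕ × ℕ) (l : List (ℕ × ℕ)) (hp : ∀ q ∈ p :: l, q.1.Prime ∧ v < q.1 ^ (q.2 + 1))
    (hn : ((p :: l).map Prod.fst).Nodup) (J : ℕ) (hJ : J ≤ p.2) : inr v p.1 (bS v l) J ≤ v := by
  obtain ⟨hpp, hpJ⟩ := hp p List.mem_cons_self
  have hmono : inr v p.1 (bS v l) J ≤ inr v p.1 (bS v l) p.2 := by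
    have : ∀ i, inr v p.1 (bS v l) J ≤ inr v p.1 (bS v l) (J + i) := by
      intro i
      induction i with
      | zero => exact le_rfl
      | succ i ih =>
        refine ih.trans ?_
        rw [← add_assoc, inr_succ]
        split_ifs
        · exact Nat.le_add_right _ _
        · exact Nat.le_add_right _ _
        · exact le_rfl
    have := this (p.2 - J)
    rwa [Nat.add_sub_cancel' hJ] at this
  refine hmono.trans ?_
  rw [← bS_cons]
  obtain ⟨s, c, h1, h2, h3, h4, h5, h6⟩ := inv hv (p :: l) hp hn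
  rw [h6]
  conv_rhs => rw [h1]
  have hc0 : c ≠ 0 := by rintro rfl; simp at h1; exact hv h1
  exact (Nat.totient_le s).trans (Nat.le_mul_of_pos_right s (Nat.pos_of_ne_zero hc0))

theorem bS_le_aS {v : ℕ} (hv : v ≠ 0) (l : List (ℕ × ℕ)) (hp : ∀ p ∈ l, p.1.Prime ∧ v < p.1 ^ (p.2 + 1))
    (hn : (l.map Prod.fst).Nodup) : bS v l ≤ aS v l := by
  obtain ⟨s, c, h1, h2, h3, h4, h5, h6⟩ := inv hv l hp hn
  rw [h5, h6]
  have hc0 : c ≠ 0 := by rintro rfl; simp at h1; exact hv h1
  exact Nat.le_mul_of_pos_right _ (Nat.pos_of_ne_zero hc0)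

/-- The totient from the two sieved values. -/
theorem totient_eq {v Q : ℕ} (hv : v ≠ 0) (l : List (ℕ × ℕ)) (hp : ∀ p ∈ l, p.1.Prime ∧ v < p.1 ^ (p.2 + 1))
    (hn : (l.map Prod.fst).Nodup) (hQ : ∀ q, q.Prime → q < Q → q ∈ l.map Prod.fst) (hvQ : v < Q ^ 2) :
    Nat.totient v = (aS v l - bS v l) + (if aS v l - bS v l = 0 then aS v l else 0) := by
  obtain ⟨s, c, h1, h2, h3, h4, h5, h6⟩ := inv hv l hp hn
  have hc0 : c ≠ 0 := by rintro rfl; simp at h1; exact hv h1
  have hs0 : s ≠ 0 := by rintro rfl; simp at h1; exact hv h1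
  have hφ : 0 < Nat.totient s := Nat.totient_pos.2 (Nat.pos_of_ne_zero hs0)
  rw [h5, h6]
  by_cases hc1 : c = 1
  · subst hc1
    simp [h1]
  · have hcp : c.Prime := by
      by_contra hnp
      have h7 := Nat.minFac_sq_le_self (Nat.pos_of_ne_zero hc0) hnp
      have h8 := Nat.minFac_prime hc1
      have h9 : c ≤ v := by
        rw [h1]; exact Nat.le_mul_of_pos_left _ (Nat.pos_of_ne_zero hs0)
      have h10 : c.minFac < Q := by
        by_contra hcon
        have := Nat.pow_le_pow_left (show Q ≤ c.minFac by omega) 2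
        omega
      have h11 := hQ _ h8 h10
      obtain ⟨p, hpl, hpe⟩ := List.mem_map.1 h11
      exact h3 p hpl (by rw [hpe]; exact Nat.minFac_dvd c)
    have h7 := hcp.two_le
    have h8 : Nat.totient s * c - Nat.totient s = Nat.totient s * (c - 1) := by
      rw [Nat.mul_sub, mul_one]
    have h9 : Nat.totient s * (c - 1) ≠ 0 := Nat.mul_ne_zero (by omega) (by omega)
    rw [h8, if_neg h9, add_zero, h1, Nat.totient_mul h2, Nat.totient_prime hcp]

end Pool.Agent.Helper14.QP
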