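import Pool.Agent.Helper14.QP.Phi

/-! Totients by sieving: the packed computation. -/

namespace Pool.Agent.Helper14.QP

/-- The packed array `aS`. -/
noncomputable def aA (L : ℕ) (rs : ℕ → ℕ) (V : ℕ) (l : List (ℕ × ℕ)) : ℕ :=
  List.rec V (fun p _ Y => Nat.sub Y (Nat.div (Nat.land Y (msk 24 p.1 (Nat.add (Nat.div L p.1) 1) (rs p.1))) p.1)) l

/-- The packed array `inr`. -/
noncomputable def iA (L : ℕ) (rs : ℕ → ℕ) (p Y : ℕ) (J : ℕ) : ℕ :=
  Nat.rec Y (fun j Z => Nat.add Z (Nat.mul (Nat.land Z (msk 24 (Nat.pow p (Nat.succ j))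
    (Nat.add (Nat.div L (Nat.pow p (Nat.succ j))) 1) (rs (Nat.pow p (Nat.succ j)))))
    (cond (Nat.beq j 0) (Nat.sub p 2) (Nat.sub p 1)))) J

/-- The packed array `bS`. -/
noncomputable def bA (L : ℕ) (rs : ℕ → ℕ) (V : ℕ) (l : List (ℕ × ℕ)) : ℕ :=
  List.rec V (fun p _ Y => iA L rs p.1 Y p.2) l

theorem aA_cons (L : ℕ) (rs : ℕ → ℕ) (V : ℕ) (p : ℕ × ℕ) (l : List (ℕ × ℕ)) :
    aA L rs V (p :: l) = aA L rs V l - (aA L rs V l &&& msk 24 p.1 (L / p.1 + 1) (rs p.1)) / p.1 := rfl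

theorem bA_cons (L : ℕ) (rs : ℕ → ℕ) (V : ℕ) (p : ℕ × ℕ) (l : List (ℕ × ℕ)) :
    bA L rs V (p :: l) = iA L rs p.1 (bA L rs V l) p.2 := rfl

theorem iA_succ (L : ℕ) (rs : ℕ → ℕ) (p Y j : ℕ) :
    iA L rs p Y (j + 1) = iA L rs p Y j + (iA L rs p Y j &&& msk 24 (p ^ (j + 1)) (L / p ^ (j + 1) + 1) (rs (p ^ (j + 1)))) *
      (if j = 0 then p - 2 else p - 1) := by
  have e : (if j = 0 then p - 2 else p - 1) = cond (Nat.beq j 0) (Nat.sub p 2) (Nat.sub p 1) := by
    cases j <;> rfl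
  rw [e]
  rfl

theorem le_cover (L d : ℕ) (hd : 0 < d) : L ≤ d * (L / d + 1) := by
  have := Nat.div_add_mod L d
  have := Nat.mod_lt L hd
  rw [mul_add, mul_one]
  omega

/-- The values `v k` and the residues of the multiples of `d`. -/
structure Res (L : ℕ) (v rs : ℕ → ℕ) : Prop where
  ne : ∀ k < L, v k ≠ 0
  le : ∀ k < L, v k ≤ L
  lt : ∀ d, 0 < d → rs d < d
  dvd : ∀ d, 0 < d → ∀ k < L, d ∣ v k ↔ k % d = rs d

variable {L : ℕ} {v rs : ℕ → ℕ}

theorem aA_eq (hR : Res L v rs) (hL : L < 2 ^ 20) (l : List (ℕ × ℕ)) (hp : ∀ p ∈ l, p.1.Prime ∧ L < p.1 ^ (p.2 + 1))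
    (hn : (l.map Prod.fst).Nodup) : aA L rs (pk 24 v L) l = pk 24 (fun k => aS (v k) l) L := by
  induction l with
  | nil => rfl
  | cons p l ih =>
    have hn' := hn
    rw [List.map_cons, List.nodup_cons] at hn
    have hp' : ∀ q ∈ l, q.1.Prime ∧ L < q.1 ^ (q.2 + 1) := fun q hq => hp q (List.mem_cons_of_mem _ hq)
    have hpk : ∀ k < L, ∀ q ∈ p :: l, q.1.Prime ∧ v k < q.1 ^ (q.2 + 1) := fun k hk q hq =>
      ⟨(hp q hq).1, lt_of_le_of_lt (hR.le k hk) (hp q hq).2⟩
    have hpos : 0 < p.1 := (hp p List.mem_cons_self).1.pos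
    have hlt : ∀ k < L, aS (v k) l < 2 ^ 24 := fun k hk => by
      have h1 := aS_le (hR.ne k hk) l (fun q hq => hpk k hk q (List.mem_cons_of_mem _ hq)) hn.2
      have h2 := hR.le k hk
      have h3 : (2:ℕ) ^ 20 < 2 ^ 24 := by norm_num
      omega
    rw [aA_cons, ih hp' hn.2, pk_land_msk (by norm_num) p.1 hpos _ (hR.lt _ hpos) _ _ (le_cover L p.1 hpos) _ hlt,
      pk_div _ _ hpos, pk_sub]
    · apply pk_congr
      intro k hk
      rw [aS_cons]
      by_cases h : p.1 ∣ v k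
      · rw [if_pos h, if_pos ((hR.dvd _ hpos k hk).1 h)]
      · rw [if_neg h, if_neg fun h' => h ((hR.dvd _ hpos k hk).2 h')]
        simp
    · intro k hk
      refine (Nat.div_le_self _ _).trans ?_
      split_ifs
      · exact le_rfl
      · exact Nat.zero_le _
    · intro k hk
      split_ifs with h
      · exact dvd_aS (hR.ne k hk) p l (hpk k hk) hn' ((hR.dvd _ hpos k hk).2 h)
      · exact dvd_zero _

theorem iA_eq (hR : Res L v rs) (hL : L < 2 ^ 20) (p : ℕ × ℕ) (l : List (ℕ × ℕ))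
    (hp : ∀ q ∈ p :: l, q.1.Prime ∧ L < q.1 ^ (q.2 + 1))
    (hn : ((p :: l).map Prod.fst).Nodup) (J : ℕ) (hJ : J ≤ p.2) :
    iA L rs p.1 (pk 24 (fun k => bS (v k) l) L) J = pk 24 (fun k => inr (v k) p.1 (bS (v k) l) J) L := by
  have hpk : ∀ k < L, ∀ q ∈ p :: l, q.1.Prime ∧ v k < q.1 ^ (q.2 + 1) := fun k hk q hq =>
    ⟨(hp q hq).1, lt_of_le_of_lt (hR.le k hk) (hp q hq).2⟩
  induction J with
  | zero => rfl
  | succ J ih =>
    have hpos : 0 < p.1 := (hp p List.mem_cons_self).1.pos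
    have hlt : ∀ k < L, inr (v k) p.1 (bS (v k) l) J < 2 ^ 24 := fun k hk => by
      have h1 := inr_le (hR.ne k hk) p l (hpk k hk) hn J (by omega)
      have h2 := hR.le k hk
      have h3 : (2:ℕ) ^ 20 < 2 ^ 24 := by norm_num
      omega
    have hpp : 0 < p.1 ^ (J + 1) := Nat.pow_pos hpos
    rw [iA_succ, ih (by omega), pk_land_msk (by norm_num) _ hpp _ (hR.lt _ hpp) _ _ (le_cover L _ hpp) _ hlt,
      pk_mul, pk_add]
    apply pk_congr
    intro k hk
    rw [inr_succ]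
    by_cases h : p.1 ^ (J + 1) ∣ v k
    · rw [if_pos h, if_pos ((hR.dvd _ hpp k hk).1 h)]
    · rw [if_neg h, if_neg fun h' => h ((hR.dvd _ hpp k hk).2 h')]
      simp

theorem bA_eq (hR : Res L v rs) (hL : L < 2 ^ 20) (l : List (ℕ × ℕ)) (hp : ∀ p ∈ l, p.1.Prime ∧ L < p.1 ^ (p.2 + 1))
    (hn : (l.map Prod.fst).Nodup) : bA L rs (pk 24 (fun _ => 1) L) l = pk 24 (fun k => bS (v k) l) L := by
  induction l with
  | nil => rfl
  | cons p l ih =>
    have hn' := hn
    rw [List.map_cons, List.nodup_cons] at hn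
    rw [bA_cons, ih (fun q hq => hp q (List.mem_cons_of_mem _ hq)) hn.2, iA_eq hR hL p l hp hn' p.2 le_rfl]
    rfl

/-- The totients from the two packed arrays. -/
noncomputable def pA (L a b : ℕ) : ℕ :=
  (fun O => (fun H => (fun D => (fun z => Nat.add D (Nat.land a (Nat.mul (Nat.shiftRight z 23) (Nat.sub (Nat.pow 2 24) 1))))
    (Nat.sub H (Nat.land (Nat.sub (Nat.add D H) O) H))) (Nat.sub a b)) (Nat.mul O (Nat.pow 2 23))) (comb 24 L)

theorem land_bit (x : ℕ) (hx : x < 2 ^ 24) : x &&& 2 ^ 23 = if 2 ^ 23 ≤ x then 2 ^ 23 else 0 := by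
  split_ifs with h
  · apply Nat.eq_of_testBit_eq
    intro i
    rw [Nat.testBit_and, Nat.testBit_two_pow]
    by_cases hi : 23 = i
    · subst hi
      have : x.testBit 23 = true := by
        rw [Nat.testBit_eq_decide_div_mod_eq]
        have : x / 2 ^ 23 = 1 := by
          apply Nat.div_eq_of_lt_le <;> omega
        rw [this]
        rfl
      simp [this]
    · simp [hi]
  · apply Nat.eq_of_testBit_eq
    intro i
    rw [Nat.testBit_and, Nat.testBit_two_pow]
    by_cases hi : 23 = i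
    · subst hi
      rw [Nat.testBit_lt_two_pow (by omega)]
      simp
    · simp [hi]

theorem pA_eq (f g : ℕ → ℕ) (hf : ∀ k < L, f k < 2 ^ 23) (hg : ∀ k < L, g k ≤ f k) :
    pA L (pk 24 f L) (pk 24 g L) = pk 24 (fun k => (f k - g k) + (if f k - g k = 0 then f k else 0)) L := by
  have e1 : pA L (pk 24 f L) (pk 24 g L) = (pk 24 f L - pk 24 g L) + (pk 24 f L &&&
      ((comb 24 L * 2 ^ 23 - ((pk 24 f L - pk 24 g L) + comb 24 L * 2 ^ 23 - comb 24 L &&& comb 24 L * 2 ^ 23)) >>> 23) *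
        (2 ^ 24 - 1)) := rfl
  rw [e1, comb_one_pk (by norm_num), pk_sub _ _ _ _ hg, pk_mul, pk_add, pk_sub]
  · rw [pk_land (by norm_num) L L le_rfl (fun k hk => by have := hf k hk; omega) (fun k hk => by omega), pk_sub]
    · rw [Nat.shiftRight_eq_div_pow, pk_div _ _ (by norm_num), pk_mul, pk_land (by norm_num) L L le_rfl
        (fun k hk => by have := hf k hk; omega), pk_add]
      · apply pk_congr
        intro k hk
        have h1 := hf k hk
        congr 1
        rw [one_mul, land_bit _ (by omega)]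
        by_cases h0 : f k - g k = 0
        · rw [if_pos h0, if_neg (by omega), Nat.sub_zero, Nat.div_self (by norm_num), one_mul,
            Nat.and_two_pow_sub_one_eq_mod, Nat.mod_eq_of_lt (by omega)]
        · rw [if_neg h0, if_pos (by omega), Nat.sub_self, Nat.zero_div, zero_mul, Nat.and_zero]
      · intro k hk
        have h1 := hf k hk
        rw [one_mul, land_bit _ (by omega)]
        split_ifs <;> simp
      · intro k hk
        have h1 := hf k hk
        rw [one_mul, land_bit _ (by omega)]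
        split_ifs <;> simp
    · intro k hk
      exact Nat.and_le_right.trans (by omega)
  · intro k hk
    omega

/-- The values `k + 1`. -/
noncomputable def v1A (L : ℕ) : ℕ :=
  Nat.div (Nat.sub (Nat.shiftLeft L (Nat.mul 24 L)) (comb 24 L)) (Nat.sub (Nat.pow 2 24) 1)

/-- The values `L - k`. -/
noncomputable def v2A (L : ℕ) : ℕ := Nat.sub (Nat.mul (Nat.add L 1) (comb 24 L)) (v1A L)

theorem v1A_aux (w n : ℕ) : (2 ^ w - 1) * pk w (fun k => k + 1) n + pk w (fun _ => 1) n = n * 2 ^ (w * n) := by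
  induction n with
  | zero => simp [pk]
  | succ n ih =>
    rw [pk_succ, pk_succ]
    have h1 : 1 ≤ 2 ^ w := Nat.one_le_two_pow
    obtain ⟨t, ht⟩ : ∃ t, 2 ^ w = t + 1 := ⟨2 ^ w - 1, by omega⟩
    have h2 : 2 ^ (w * (n + 1)) = 2 ^ (w * n) * (t + 1) := by
      rw [← ht, ← pow_add]; ring_nf
    rw [h2, ht, Nat.add_sub_cancel]
    rw [ht, Nat.add_sub_cancel] at ih
    calc t * (2 ^ (w * n) * (n + 1) + pk w (fun k => k + 1) n) + (2 ^ (w * n) * 1 + pk w (fun _ => 1) n)
        = t * (2 ^ (w * n) * (n + 1)) + 2 ^ (w * n) + (t * pk w (fun k => k + 1) n + pk w (fun _ => 1) n) := by ring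
      _ = (n + 1) * (2 ^ (w * n) * (t + 1)) := by rw [ih]; ring

theorem v1A_eq (L : ℕ) : v1A L = pk 24 (fun k => k + 1) L := by
  have e : v1A L = ((L <<< (24 * L)) - comb 24 L) / (2 ^ 24 - 1) := rfl
  rw [e, comb_one_pk (by norm_num), Nat.shiftLeft_eq, ← v1A_aux, Nat.add_sub_cancel, Nat.mul_div_cancel_left _ (by norm_num)]

theorem v2A_eq (L : ℕ) : v2A L = pk 24 (fun k => L - k) L := by
  have e : v2A L = (L + 1) * comb 24 L - v1A L := rfl
  rw [e, v1A_eq, comb_one_pk (by norm_num), mul_comm, pk_mul, pk_sub]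
  · apply pk_congr
    intro k hk
    omega
  · intro k hk
    omega

theorem res1 (L : ℕ) : Res L (fun k => k + 1) (fun d => Nat.sub d 1) where
  ne := fun k _ => Nat.succ_ne_zero k
  le := fun k hk => hk
  lt := fun d hd => Nat.sub_lt hd Nat.one_pos
  dvd := fun d hd k _ => by
    show d ∣ k + 1 ↔ k % d = d - 1
    constructor
    · rintro ⟨t, ht⟩
      have ht0 : t ≠ 0 := by rintro rfl; simp at ht
      obtain ⟨s, rfl⟩ := Nat.exists_eq_succ_of_ne_zero ht0
      have : k = d * s + (d - 1) := by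
        rw [Nat.mul_succ] at ht; omega
      rw [this, Nat.mul_add_mod, Nat.mod_eq_of_lt (by omega)]
    · intro h
      have := Nat.div_add_mod k d
      exact ⟨k / d + 1, by rw [mul_add, mul_one]; omega⟩

theorem res2 (L : ℕ) : Res L (fun k => L - k) (fun d => Nat.mod L d) where
  ne := fun k hk => by omega
  le := fun k _ => Nat.sub_le _ _
  lt := fun d hd => Nat.mod_lt _ hd
  dvd := fun d hd k hk => by
    show d ∣ L - k ↔ k % d = L % d
    rw [← Nat.modEq_iff_dvd' hk.le]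
    rfl

/-- The packed array `4 φ (k + 1) + φ (L - k)`. -/
noncomputable def fA (L : ℕ) (l : List (ℕ × ℕ)) : ℕ :=
  Nat.add (Nat.mul 4 (pA L (aA L (fun d => Nat.sub d 1) (v1A L) l) (bA L (fun d => Nat.sub d 1) (comb 24 L) l)))
    (pA L (aA L (fun d => Nat.mod L d) (v2A L) l) (bA L (fun d => Nat.mod L d) (comb 24 L) l))

theorem fA_eq (hL : L < 2 ^ 20) (l : List (ℕ × ℕ)) (hp : ∀ p ∈ l, p.1.Prime ∧ L < p.1 ^ (p.2 + 1))
    (hn : (l.map Prod.fst).Nodup) (Q : ℕ) (hQ : ∀ q, q.Prime → q < Q → q ∈ l.map Prod.fst) (hLQ : L < Q ^ 2) :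
    fA L l = pk 24 (fun k => 4 * Nat.totient (k + 1) + Nat.totient (L - k)) L := by
  have key : ∀ (v rs : ℕ → ℕ), Res L v rs → pA L (aA L rs (pk 24 v L) l) (bA L rs (comb 24 L) l) =
      pk 24 (fun k => Nat.totient (v k)) L := by
    intro v rs hR
    have hpk : ∀ k < L, ∀ q ∈ l, q.1.Prime ∧ v k < q.1 ^ (q.2 + 1) := fun k hk q hq =>
      ⟨(hp q hq).1, lt_of_le_of_lt (hR.le k hk) (hp q hq).2⟩
    rw [comb_one_pk (by norm_num), aA_eq hR hL l hp hn, bA_eq hR hL l hp hn, pA_eq]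
    · apply pk_congr
      intro k hk
      exact (totient_eq (hR.ne k hk) l (hpk k hk) hn hQ (lt_of_le_of_lt (hR.le k hk) hLQ)).symm
    · intro k hk
      have h1 := aS_le (hR.ne k hk) l (hpk k hk) hn
      have h2 := hR.le k hk
      have h3 : (2:ℕ) ^ 20 < 2 ^ 23 := by norm_num
      omega
    · intro k hk
      exact bS_le_aS (hR.ne k hk) l (hpk k hk) hn
  have e : fA L l = 4 * pA L (aA L (fun d => Nat.sub d 1) (v1A L) l) (bA L (fun d => Nat.sub d 1) (comb 24 L) l) +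
    pA L (aA L (fun d => Nat.mod L d) (v2A L) l) (bA L (fun d => Nat.mod L d) (comb 24 L) l) := rfl
  rw [e, v1A_eq, v2A_eq, key _ _ (res1 L), key _ _ (res2 L), mul_comm 4, pk_mul, pk_add]
  apply pk_congr
  intro k _
  ring

/-- No field of `F` equals `4 g`. -/
noncomputable def cg (O H F g : ℕ) : Bool :=
  (fun c => Nat.beq (Nat.land (Nat.lor (Nat.sub (Nat.sub (Nat.add F H) c) O) (Nat.sub (Nat.sub (Nat.add c H) F) O)) H) H)
    (Nat.mul O (Nat.mul 4 g))

/-- The check for all `g` in a list. -/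
noncomputable def call (O H F : ℕ) (G : List ℕ) : Bool := List.rec true (fun g _ r => cond (cg O H F g) r false) G

theorem call_cons (O H F g : ℕ) (G : List ℕ) : call O H F (g :: G) = (cg O H F g && call O H F G) := by
  have e : call O H F (g :: G) = cond (cg O H F g) (call O H F G) false := rfl
  rw [e]
  cases cg O H F g <;> rfl

theorem cg_spec (f : ℕ → ℕ) (g : ℕ) (hf : ∀ k < L, f k < 2 ^ 23) (hg : 4 * g < 2 ^ 23)
    (h : cg (comb 24 L) (comb 24 L * 2 ^ 23) (pk 24 f L) g = true) (k : ℕ) (hk : k < L) : f k ≠ 4 * g := by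
  have e1 : cg (comb 24 L) (comb 24 L * 2 ^ 23) (pk 24 f L) g = Nat.beq (((pk 24 f L + comb 24 L * 2 ^ 23 -
    comb 24 L * (4 * g) - comb 24 L) ||| (comb 24 L * (4 * g) + comb 24 L * 2 ^ 23 - pk 24 f L - comb 24 L)) &&&
    comb 24 L * 2 ^ 23) (comb 24 L * 2 ^ 23) := rfl
  rw [e1] at h
  have h1 := Nat.eq_of_beq_eq_true h
  have hb : (2:ℕ) ^ 24 = 2 * 2 ^ 23 := by norm_num
  rw [comb_one_pk (by norm_num), pk_mul, pk_mul, pk_add, pk_sub, pk_sub, pk_add, pk_sub, pk_sub, pk_lor (by norm_num),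
    pk_land (by norm_num) L L le_rfl] at h1
  · have h2 := pk_inj L (fun k hk => lt_of_le_of_lt Nat.and_le_right (by norm_num)) (fun k hk => by norm_num) h1 k hk
    intro hcon
    simp only [hcon, one_mul] at h2
    have h3 : 4 * g + 2 ^ 23 - 4 * g - 1 = 2 ^ 23 - 1 := by omega
    rw [h3, Nat.or_self, land_bit _ (by omega), if_neg (by omega)] at h2
    omega
  · intro k hk
    exact Nat.or_lt_two_pow (by have := hf k hk; omega) (by have := hf k hk; omega)
  · intro k hk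
    omega
  · intro k hk
    have := hf k hk
    omega
  · intro k hk
    have := hf k hk
    omega
  · intro k hk
    have := hf k hk
    omega
  · intro k hk
    have := hf k hk
    omega
  · intro k hk
    have := hf k hk
    omega
  · intro k hk
    have := hf k hk
    omega

/-- The totient check. -/
noncomputable def phiCheck (L : ℕ) (l : List (ℕ × ℕ)) (G : List ℕ) : Bool :=
  call (comb 24 L) (Nat.mul (comb 24 L) (Nat.pow 2 23)) (fA L l) G

theorem phiCheck_spec (hL : L < 2 ^ 20) (l : List (ℕ × ℕ)) (hp : ∀ p ∈ l, p.1.Prime ∧ L < p.1 ^ (p.2 + 1))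
    (hn : (l.map Prod.fst).Nodup) (Q : ℕ) (hQ : ∀ q, q.Prime → q < Q → q ∈ l.map Prod.fst) (hLQ : L < Q ^ 2)
    (G : List ℕ) (hG : ∀ g ∈ G, 4 * g < 2 ^ 23) (h : phiCheck L l G = true) :
    ∀ g ∈ G, ∀ k < L, 4 * Nat.totient (k + 1) + Nat.totient (L - k) ≠ 4 * g := by
  have e : phiCheck L l G = call (comb 24 L) (comb 24 L * 2 ^ 23) (fA L l) G := rfl
  rw [e, fA_eq hL l hp hn Q hQ hLQ] at h
  clear e
  have hf : ∀ k < L, 4 * Nat.totient (k + 1) + Nat.totient (L - k) < 2 ^ 23 := by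
    intro k hk
    have h1 := Nat.totient_le (k + 1)
    have h2 := Nat.totient_le (L - k)
    have h3 : (2:ℕ) ^ 23 = 8 * 2 ^ 20 := by norm_num
    omega
  induction G with
  | nil => intro g hg; simp at hg
  | cons g G ih =>
    rw [call_cons, Bool.and_eq_true] at h
    intro g' hg'
    rcases List.mem_cons.1 hg' with h1 | h1
    · subst h1
      intro k hk
      exact cg_spec _ g' hf (hG g' List.mem_cons_self) h.1 k hk
    · exact ih (fun g hg => hG g (List.mem_cons_of_mem _ hg)) h.2 g' h1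

end Pool.Agent.Helper14.QP
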