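import Pool.Agent.Helper14.QP.QSeries
import Pool.Agent.Helper14.QP.Pack

/-! All the `q m`, `m ≤ N`, as digits of one quotient. -/

namespace Pool.Agent.Helper14.QP

open Finset

theorem conv_split (N : ℕ) (Y : ℤ) (a b : ℕ → ℤ) :
    (∑ k ∈ range (N + 1), a k * Y ^ (N - k)) * (∑ m ∈ range (N + 1), b m * Y ^ (N - m)) =
      Y ^ N * (∑ n ∈ range (N + 1), (∑ p ∈ antidiagonal n, a p.1 * b p.2) * Y ^ (N - n)) +
      ∑ p ∈ (range (N + 1) ×ˢ range (N + 1)).filter (fun p => ¬ p.1 + p.2 ≤ N),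
        a p.1 * b p.2 * Y ^ (2 * N - (p.1 + p.2)) := by
  have h0 : (∑ k ∈ range (N + 1), a k * Y ^ (N - k)) * (∑ m ∈ range (N + 1), b m * Y ^ (N - m)) =
      ∑ p ∈ range (N + 1) ×ˢ range (N + 1), a p.1 * b p.2 * Y ^ (2 * N - (p.1 + p.2)) := by
    rw [sum_mul_sum, ← sum_product']
    refine sum_congr rfl fun p hp => ?_
    have h1 := mem_range.1 (mem_product.1 hp).1
    have h2 := mem_range.1 (mem_product.1 hp).2
    have h3 : 2 * N - (p.1 + p.2) = (N - p.1) + (N - p.2) := by omega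
    rw [h3, pow_add]
    ring
  rw [h0, ← sum_filter_add_sum_filter_not _ (fun p : ℕ × ℕ => p.1 + p.2 ≤ N)]
  congr 1
  rw [← sum_fiberwise_of_maps_to (s := (range (N + 1) ×ˢ range (N + 1)).filter (fun p => p.1 + p.2 ≤ N))
    (t := range (N + 1)) (g := fun p => p.1 + p.2)
    (fun p hp => mem_range.2 (by have := (mem_filter.1 hp).2; omega)), mul_sum]
  refine sum_congr rfl fun n hn => ?_
  have hn' := mem_range.1 hn
  have h1 : ((range (N + 1) ×ˢ range (N + 1)).filter (fun p => p.1 + p.2 ≤ N)).filter (fun p => p.1 + p.2 = n) =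
      antidiagonal n := by
    ext p
    simp only [mem_filter, mem_product, mem_range, HasAntidiagonal.mem_antidiagonal]
    omega
  rw [h1, sum_mul, mul_sum]
  refine sum_congr rfl fun p hp => ?_
  have hpn := HasAntidiagonal.mem_antidiagonal.1 hp
  rw [hpn]
  have h3 : 2 * N - n = N + (N - n) := by omega
  rw [h3, pow_add]
  ring

theorem lead_pos (N : ℕ) (hN : 1 ≤ N) (Y : ℕ) (hY : 8 * (N + 1) ^ 2 ≤ Y) (a : ℕ → ℤ) (ha0 : a 0 = 1)
    (ha : ∀ k, |a k| ≤ 1) : 7 * (Y : ℤ) ^ N ≤ 8 * ∑ k ∈ range (N + 1), a k * (Y : ℤ) ^ (N - k) := by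
  rw [sum_range_succ', ha0, one_mul, Nat.sub_zero]
  have hY1 : 1 ≤ Y := le_trans (Nat.succ_le_of_lt (by positivity)) hY
  have h1 : |∑ k ∈ range N, a (k + 1) * (Y : ℤ) ^ (N - (k + 1))| ≤ N * (Y : ℤ) ^ (N - 1) := by
    refine (abs_sum_le_sum_abs _ _).trans ?_
    have : ∀ k ∈ range N, |a (k + 1) * (Y : ℤ) ^ (N - (k + 1))| ≤ (Y : ℤ) ^ (N - 1) := by
      intro k _
      rw [abs_mul, abs_of_nonneg (a := (Y : ℤ) ^ (N - (k + 1))) (by positivity)]
      calc |a (k + 1)| * (Y : ℤ) ^ (N - (k + 1)) ≤ 1 * (Y : ℤ) ^ (N - (k + 1)) :=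
            mul_le_mul_of_nonneg_right (ha _) (by positivity)
        _ = ((Y ^ (N - (k + 1)) : ℕ) : ℤ) := by push_cast; ring
        _ ≤ ((Y ^ (N - 1) : ℕ) : ℤ) := by exact_mod_cast Nat.pow_le_pow_right hY1 (by omega)
        _ = (Y : ℤ) ^ (N - 1) := by push_cast; ring
    calc ∑ k ∈ range N, |a (k + 1) * (Y : ℤ) ^ (N - (k + 1))| ≤ ∑ k ∈ range N, (Y : ℤ) ^ (N - 1) := sum_le_sum this
      _ = N * (Y : ℤ) ^ (N - 1) := by rw [sum_const, card_range, nsmul_eq_mul]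
  have h2 : (8 * N : ℤ) * (Y : ℤ) ^ (N - 1) ≤ (Y : ℤ) ^ N := by
    have e : (Y : ℤ) ^ N = Y * (Y : ℤ) ^ (N - 1) := by
      rw [← pow_succ']; congr 1; omega
    rw [e]
    apply mul_le_mul_of_nonneg_right _ (by positivity)
    have : 8 * N ≤ Y := by nlinarith
    exact_mod_cast this
  have h3 := neg_abs_le (∑ k ∈ range N, a (k + 1) * (Y : ℤ) ^ (N - (k + 1)))
  linarith

theorem quot (N Y M : ℕ) (hN : 1 ≤ N) (hM : 1 ≤ M) (hY : 8 * (N + 1) ^ 2 * M ≤ Y) (a : ℕ → ℤ) (ha0 : a 0 = 1)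
    (ha : ∀ k, |a k| ≤ 1) (b : ℕ → ℕ) (hb : ∀ m ≤ N, b m ≤ M) (c : ℕ → ℤ)
    (hc : ∀ n, ∑ p ∈ antidiagonal n, a p.1 * (b p.2 : ℤ) = c n) (E F H : ℕ)
    (hE : (E : ℤ) = ∑ k ∈ range (N + 1), a k * (Y : ℤ) ^ (N - k))
    (hF : (F : ℤ) = ∑ n ∈ range (N + 1), c n * (Y : ℤ) ^ (N - n)) (hH : 2 * H = Y ^ N) :
    (F * Y ^ N + H) / E = ∑ m ∈ range (N + 1), b m * Y ^ (N - m) := by
  have hY8 : 8 * (N + 1) ^ 2 ≤ Y := le_trans (Nat.le_mul_of_pos_right _ hM) hY
  have hY1 : 1 ≤ Y := le_trans (Nat.succ_le_of_lt (by positivity)) hY8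
  have hlead := lead_pos N hN Y hY8 a ha0 ha
  rw [← hE] at hlead
  have hs := conv_split N (Y : ℤ) a (fun m => (b m : ℤ))
  rw [← hE] at hs
  have hs2 : (∑ n ∈ range (N + 1), (∑ p ∈ antidiagonal n, a p.1 * (b p.2 : ℤ)) * (Y : ℤ) ^ (N - n)) = F := by
    rw [hF]
    exact sum_congr rfl fun n _ => by rw [hc n]
  rw [hs2] at hs
  set R : ℤ := ∑ p ∈ (range (N + 1) ×ˢ range (N + 1)).filter (fun p => ¬ p.1 + p.2 ≤ N),
        a p.1 * (b p.2 : ℤ) * (Y : ℤ) ^ (2 * N - (p.1 + p.2)) with hR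
  have hRle : |R| ≤ ((N + 1) ^ 2 * M * Y ^ (N - 1) : ℕ) := by
    rw [hR]
    refine (abs_sum_le_sum_abs _ _).trans ?_
    have h1 : ∀ p ∈ (range (N + 1) ×ˢ range (N + 1)).filter (fun p => ¬ p.1 + p.2 ≤ N),
        |a p.1 * (b p.2 : ℤ) * (Y : ℤ) ^ (2 * N - (p.1 + p.2))| ≤ ((M * Y ^ (N - 1) : ℕ) : ℤ) := by
      intro p hp
      obtain ⟨hp1, hp2⟩ := mem_filter.1 hp
      have hp3 := mem_range.1 (mem_product.1 hp1).2
      have h2 : |a p.1| * (b p.2 : ℤ) ≤ 1 * M :=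
        mul_le_mul (ha _) (by exact_mod_cast hb _ (by omega)) (by positivity) (by norm_num)
      have h3 : (Y : ℤ) ^ (2 * N - (p.1 + p.2)) ≤ (Y : ℤ) ^ (N - 1) := by
        exact_mod_cast Nat.pow_le_pow_right hY1 (show 2 * N - (p.1 + p.2) ≤ N - 1 by omega)
      rw [abs_mul, abs_mul, abs_of_nonneg (a := (b p.2 : ℤ)) (by positivity),
        abs_of_nonneg (a := (Y : ℤ) ^ (2 * N - (p.1 + p.2))) (by positivity)]
      calc |a p.1| * (b p.2 : ℤ) * (Y : ℤ) ^ (2 * N - (p.1 + p.2)) ≤ 1 * M * (Y : ℤ) ^ (N - 1) :=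
            mul_le_mul h2 h3 (by positivity) (by positivity)
        _ = ((M * Y ^ (N - 1) : ℕ) : ℤ) := by push_cast; ring
    refine (sum_le_sum h1).trans ?_
    rw [sum_const, nsmul_eq_mul]
    have h4 : ((range (N + 1) ×ˢ range (N + 1)).filter (fun p => ¬ p.1 + p.2 ≤ N)).card ≤ (N + 1) ^ 2 := by
      refine (card_filter_le _ _).trans ?_
      rw [card_product, card_range, sq]
    calc ((((range (N + 1) ×ˢ range (N + 1)).filter (fun p => ¬ p.1 + p.2 ≤ N)).card : ℕ) : ℤ) *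
        ((M * Y ^ (N - 1) : ℕ) : ℤ) ≤ (((N + 1) ^ 2 : ℕ) : ℤ) * ((M * Y ^ (N - 1) : ℕ) : ℤ) :=
          mul_le_mul_of_nonneg_right (by exact_mod_cast h4) (by positivity)
      _ = _ := by push_cast; ring
  have hR8 : 8 * |R| ≤ 2 * (H : ℤ) := by
    have h5 : 8 * ((N + 1) ^ 2 * M * Y ^ (N - 1)) ≤ 2 * H := by
      rw [hH]
      have e : Y ^ N = Y * Y ^ (N - 1) := by rw [← pow_succ']; congr 1; omega
      rw [e]
      calc 8 * ((N + 1) ^ 2 * M * Y ^ (N - 1)) = 8 * (N + 1) ^ 2 * M * Y ^ (N - 1) := by ring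
        _ ≤ Y * Y ^ (N - 1) := Nat.mul_le_mul_right _ hY
    have h6 : 8 * (((N + 1) ^ 2 * M * Y ^ (N - 1) : ℕ) : ℤ) ≤ 2 * (H : ℤ) := by exact_mod_cast h5
    linarith
  have hHpos : 0 < H := by
    have : 0 < Y ^ N := Nat.pow_pos hY1
    omega
  have hHZ : (Y : ℤ) ^ N = 2 * (H : ℤ) := by exact_mod_cast hH.symm
  have hR1 := neg_abs_le R
  have hR2 := le_abs_self R
  have hHZ' : (0 : ℤ) < H := by exact_mod_cast hHpos
  have hQ : ((∑ m ∈ range (N + 1), b m * Y ^ (N - m) : ℕ) : ℤ) = ∑ m ∈ range (N + 1), (b m : ℤ) * (Y : ℤ) ^ (N - m) := by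
    push_cast; rfl
  rw [← hQ] at hs
  apply Nat.div_eq_of_lt_le
  · zify
    rw [← hQ]
    nlinarith
  · zify
    rw [← hQ]
    nlinarith

/-- Binary trees of exponents. -/
inductive T where
  | lf : T
  | nd : ℕ → T → T → T

/-- The value of a tree. -/
noncomputable def T.val (B : ℕ) (t : T) : ℕ :=
  T.rec 1 (fun d _ _ vl vr => Nat.add (Nat.shiftLeft vl (Nat.mul B d)) vr) t

/-- The exponents of a tree. -/
noncomputable def T.offs (t : T) : List ℕ :=
  T.rec [0] (fun d _ _ l r => l.map (fun o => o + d) ++ r) t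

theorem T.val_eq (B : ℕ) (t : T) : T.val B t = ((T.offs t).map fun o => 2 ^ (B * o)).sum := by
  induction t with
  | lf => show 1 = (List.map (fun o => 2 ^ (B * o)) [0]).sum; simp
  | nd d l r ihl ihr =>
    show (T.val B l) <<< (B * d) + T.val B r =
      (((T.offs l).map (fun o => o + d) ++ T.offs r).map fun o => 2 ^ (B * o)).sum
    rw [List.map_append, List.sum_append, ← ihr, ihl, Nat.shiftLeft_eq, ← List.sum_map_mul_right, List.map_map]
    congr 2
    apply List.map_congr_left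
    intro o _
    show 2 ^ (B * o) * 2 ^ (B * d) = 2 ^ (B * (o + d))
    rw [← pow_add, mul_add]

theorem T.val_shift (B : ℕ) (t : T) (off : ℕ) (l : List ℕ) (h : (T.offs t).map (fun o => o + off) = l) :
    (T.val B t) <<< (B * off) = (l.map fun o => 2 ^ (B * o)).sum := by
  rw [← h, T.val_eq, Nat.shiftLeft_eq, ← List.sum_map_mul_right, List.map_map]
  congr 1
  apply List.map_congr_left
  intro o _
  show 2 ^ (B * o) * 2 ^ (B * off) = 2 ^ (B * (o + off))
  rw [← pow_add, mul_add]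

/-- Even integers of absolute value at most `2 m`. -/
def jE (m : ℕ) : List ℤ := 0 :: (List.range m).flatMap fun i : ℕ => [2 * ((i : ℤ) + 1), -(2 * ((i : ℤ) + 1))]

/-- Odd integers of absolute value less than `2 m`. -/
def jO (m : ℕ) : List ℤ := (List.range m).flatMap fun i : ℕ => [2 * (i : ℤ) + 1, -(2 * (i : ℤ) + 1)]

theorem mem_jE (m : ℕ) (j : ℤ) : j ∈ jE m ↔ j ∈ (Icc (-(2 * m : ℤ)) (2 * m)).filter Even := by
  simp only [jE, List.mem_cons, List.mem_flatMap, List.mem_range, List.not_mem_nil, or_false, mem_filter, mem_Icc]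
  constructor
  · rintro (h | ⟨i, hi, h | h⟩)
    · subst h; exact ⟨⟨by omega, by omega⟩, ⟨0, by norm_num⟩⟩
    · exact ⟨⟨by omega, by omega⟩, ⟨(i : ℤ) + 1, by omega⟩⟩
    · exact ⟨⟨by omega, by omega⟩, ⟨-((i : ℤ) + 1), by omega⟩⟩
  · rintro ⟨⟨h1, h2⟩, ⟨t, ht⟩⟩
    rcases lt_trichotomy t 0 with h | h | h
    · exact Or.inr ⟨(-t - 1).toNat, by omega, Or.inr (by omega)⟩
    · exact Or.inl (by omega)
    · exact Or.inr ⟨(t - 1).toNat, by omega, Or.inl (by omega)⟩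

theorem mem_jO (m : ℕ) (j : ℤ) : j ∈ jO m ↔ j ∈ (Icc (-(2 * m : ℤ)) (2 * m)).filter (fun j => ¬ Even j) := by
  simp only [jO, List.mem_cons, List.mem_flatMap, List.mem_range, List.not_mem_nil, or_false, mem_filter, mem_Icc,
    Int.not_even_iff_odd]
  constructor
  · rintro ⟨i, hi, h | h⟩
    · exact ⟨⟨by omega, by omega⟩, ⟨(i : ℤ), by omega⟩⟩
    · exact ⟨⟨by omega, by omega⟩, ⟨-((i : ℤ) + 1), by omega⟩⟩
  · rintro ⟨⟨h1, h2⟩, ⟨t, ht⟩⟩
    rcases lt_or_ge t 0 with h | h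
    · exact ⟨(-t - 1).toNat, by omega, Or.inr (by omega)⟩
    · exact ⟨t.toNat, by omega, Or.inl (by omega)⟩

theorem jO_nodup (m : ℕ) : (jO m).Nodup := by
  rw [jO, List.nodup_flatMap]
  refine ⟨fun i _ => ?_, (List.pairwise_lt_range (n := m)).imp fun {a b} h => ?_⟩
  · simp only [List.nodup_cons, List.mem_singleton, List.not_mem_nil, not_false_iff, List.nodup_nil, and_true]
    omega
  · intro x hx hy
    simp only [List.mem_cons, List.not_mem_nil, or_false] at hx hy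
    omega

theorem jE_nodup (m : ℕ) : (jE m).Nodup := by
  rw [jE, List.nodup_cons, List.nodup_flatMap]
  refine ⟨?_, fun i _ => ?_, (List.pairwise_lt_range (n := m)).imp fun {a b} h => ?_⟩
  · intro h
    obtain ⟨i, _, h⟩ := List.mem_flatMap.1 h
    simp only [List.mem_cons, List.not_mem_nil, or_false] at h
    omega
  · simp only [List.nodup_cons, List.mem_singleton, List.not_mem_nil, not_false_iff, List.nodup_nil, and_true]
    omega
  · intro x hx hy
    simp only [List.mem_cons, List.not_mem_nil, or_false] at hx hy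
    omega
/-- A series over pentagonal exponents as a difference of two finite sums. -/
theorem sum_pent (N m c B : ℕ) (ec : ℕ → ℤ) (hc : 0 < c) (h1 : ∀ j, ec (c * pentagonal j) = (Int.negOnePow j : ℤ))
    (h2 : ∀ k, (∀ j, c * pentagonal j ≠ k) → ec k = 0)
    (h3 : ∀ j ∈ Icc (-(2 * m : ℤ)) (2 * m), c * pentagonal j ≤ N)
    (h4 : ∀ j ∉ Icc (-(2 * m : ℤ)) (2 * m), N < c * pentagonal j) :
    ∑ k ∈ range (N + 1), ec k * ((2 ^ B : ℕ) : ℤ) ^ (N - k) =
      ((((jE m).map fun j => N - c * pentagonal j).map fun o => 2 ^ (B * o)).sum : ℕ) -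
      ((((jO m).map fun j => N - c * pentagonal j).map fun o => 2 ^ (B * o)).sum : ℕ) := by
  have s1 : ∑ k ∈ range (N + 1), ec k * ((2 ^ B : ℕ) : ℤ) ^ (N - k) =
      ∑ k ∈ (Icc (-(2 * m : ℤ)) (2 * m)).image (fun j => c * pentagonal j), ec k * ((2 ^ B : ℕ) : ℤ) ^ (N - k) := by
    symm
    apply sum_subset
    · intro k hk
      obtain ⟨j, hj, rfl⟩ := mem_image.1 hk
      exact mem_range.2 (by have := h3 j hj; omega)
    · intro k hk hk2
      rw [h2 k, zero_mul]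
      intro j hj
      by_cases hj2 : j ∈ Icc (-(2 * m : ℤ)) (2 * m)
      · exact hk2 (mem_image.2 ⟨j, hj2, hj⟩)
      · have := h4 j hj2
        have := mem_range.1 hk
        omega
  have s2 : ∀ f : ℤ → ℤ, ∑ j ∈ Icc (-(2 * m : ℤ)) (2 * m), f j = ((jE m).map f).sum + ((jO m).map f).sum := by
    intro f
    rw [← sum_filter_add_sum_filter_not _ (fun j : ℤ => Even j), ← List.sum_toFinset f (jE_nodup m),
      ← List.sum_toFinset f (jO_nodup m)]
    congr 1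
    · apply sum_congr _ fun _ _ => rfl
      ext j
      rw [List.mem_toFinset, mem_jE]
    · apply sum_congr _ fun _ _ => rfl
      ext j
      rw [List.mem_toFinset, mem_jO]
  rw [s1, sum_image (fun a _ b _ h => pentagonal_injective (Nat.eq_of_mul_eq_mul_left hc h)), s2, List.map_map,
    List.map_map]
  have hpow : ∀ o : ℕ, ((2 ^ B : ℕ) : ℤ) ^ o = ((2 ^ (B * o) : ℕ) : ℤ) := by
    intro o
    rw [pow_mul]; push_cast; ring
  have e1 : (jE m).map (fun j => ec (c * pentagonal j) * ((2 ^ B : ℕ) : ℤ) ^ (N - c * pentagonal j)) =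
      (jE m).map (fun j => (((2 ^ (B * (N - c * pentagonal j)) : ℕ)) : ℤ)) := by
    apply List.map_congr_left
    intro j hj
    rw [mem_jE] at hj
    rw [h1, Int.negOnePow_even j (mem_filter.1 hj).2, hpow]
    simp
  have e2 : (jO m).map (fun j => ec (c * pentagonal j) * ((2 ^ B : ℕ) : ℤ) ^ (N - c * pentagonal j)) =
      (jO m).map (fun j => -(((2 ^ (B * (N - c * pentagonal j)) : ℕ)) : ℤ)) := by
    apply List.map_congr_left
    intro j hj
    rw [mem_jO] at hj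
    rw [h1, Int.negOnePow_odd j (Int.not_even_iff_odd.1 (mem_filter.1 hj).2), hpow]
    simp
  rw [e1, e2]
  have e3 : ∀ (l : List ℤ) (g : ℤ → ℕ), ((l.map g).sum : ℤ) = (l.map fun j => (g j : ℤ)).sum := by
    intro l g
    induction l with
    | nil => simp
    | cons x l ih => simp [ih]
  have e4 : ∀ (l : List ℤ) (g : ℤ → ℤ), (l.map fun j => -g j).sum = -(l.map g).sum := by
    intro l g
    induction l with
    | nil => simp
    | cons x l ih => simp [ih]; ring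
  rw [e4, ← sub_eq_add_neg]
  congr 1
  · exact (e3 (jE m) (fun j => 2 ^ (B * (N - c * pentagonal j)))).symm
  · exact (e3 (jO m) (fun j => 2 ^ (B * (N - c * pentagonal j)))).symm

end Pool.Agent.Helper14.QP
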