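import Pool.Agent.Helper14.QP.Data

/-! The big division and the check of its digits. -/

namespace Pool.Agent.Helper14.QP

/-- The first series. -/
noncomputable def eA : ℕ := dT 1536 tEP 160 tEM 1425

/-- The second series. -/
noncomputable def fA2 : ℕ := dT 1536 tFP 787 tFM 2573

/-- Its base `2 ^ 1536` digits are the numbers `q m`, `m ≤ 267497`, highest first. -/
noncomputable def aQ : ℕ := quo 1536 267497 eA fA2

theorem chkA : chk 1536 wT aQ = true := by decide +kernel

end Pool.Agent.Helper14.QP
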