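import Mathlib

/-! Partitions into distinct parts: the linear recurrence and an upper bound. -/

namespace Pool.Agent.Helper14.QP

open Filter Finset

open scoped PowerSeries.WithPiTopology

/-- Coefficients of the Euler function. -/
noncomputable def e (k : ℕ) : ℤ := (PowerSeries.pentagonalSeries ℤ).coeff k

/-- The number of partitions of `n` into distinct parts. -/
def q (n : ℕ) : ℕ := (Nat.Partition.distincts n).card

theorem ev_e (n : ℕ) : ∀ᶠ s : Finset ℕ in atTop,
    (∏ i ∈ s, (1 - Polynomial.X ^ (i + 1) : Polynomial ℤ)).coeff n = e n := by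
  filter_upwards [PowerSeries.coeff_prod_one_sub_X_pow_eventually_eq ℤ n] with s hs
  rw [e, ← hs, ← Polynomial.coeff_coe]
  congr 1
  rw [← Polynomial.coeToPowerSeries.ringHom_apply, map_prod]
  simp

theorem ev_q (n : ℕ) : ∀ᶠ s : Finset ℕ in atTop,
    (∏ i ∈ s, (1 + Polynomial.X ^ (i + 1) : Polynomial ℤ)).coeff n = q n := by
  have h := Nat.Partition.hasProd_powerSeriesMk_card_countRestricted ℤ (m := 2) (by norm_num)
  rw [HasProd, PowerSeries.WithPiTopology.tendsto_iff_coeff_tendsto] at h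
  have h2 := h n
  rw [nhds_discrete, tendsto_pure] at h2
  refine Eventually.mono h2 fun s hs => ?_
  rw [PowerSeries.coeff_mk, Nat.Partition.countRestricted_two] at hs
  rw [q, ← hs, ← Polynomial.coeff_coe]
  congr 1
  rw [← Polynomial.coeToPowerSeries.ringHom_apply, map_prod]
  refine prod_congr rfl fun i _ => ?_
  simp [sum_range_succ]

/-- The recurrence for partitions into distinct parts. -/
theorem e_conv_q (n : ℕ) : ∑ p ∈ antidiagonal n, e p.1 * (q p.2 : ℤ) = if 2 ∣ n then e (n / 2) else 0 := by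
  have h1 : ∀ᶠ s : Finset ℕ in atTop, ∀ k ∈ range (n + 1),
      (∏ i ∈ s, (1 - Polynomial.X ^ (i + 1) : Polynomial ℤ)).coeff k = e k :=
    (eventually_all_finset _).2 fun k _ => ev_e k
  have h2 : ∀ᶠ s : Finset ℕ in atTop, ∀ k ∈ range (n + 1),
      (∏ i ∈ s, (1 + Polynomial.X ^ (i + 1) : Polynomial ℤ)).coeff k = q k :=
    (eventually_all_finset _).2 fun k _ => ev_q k
  obtain ⟨s, hs1, hs2⟩ := (h1.and h2).exists
  have h3 : (∏ i ∈ s, (1 - Polynomial.X ^ (i + 1) : Polynomial ℤ)) * (∏ i ∈ s, (1 + Polynomial.X ^ (i + 1))) =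
      Polynomial.expand ℤ 2 (∏ i ∈ s, (1 - Polynomial.X ^ (i + 1))) := by
    rw [map_prod, ← prod_mul_distrib]
    refine prod_congr rfl fun i _ => ?_
    simp only [map_sub, map_one, map_pow, Polynomial.expand_X]
    ring
  have h4 : ((∏ i ∈ s, (1 - Polynomial.X ^ (i + 1) : Polynomial ℤ)) * (∏ i ∈ s, (1 + Polynomial.X ^ (i + 1)))).coeff n =
      (Polynomial.expand ℤ 2 (∏ i ∈ s, (1 - Polynomial.X ^ (i + 1)))).coeff n := by rw [h3]
  rw [Polynomial.coeff_mul, Polynomial.coeff_expand (by norm_num)] at h4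
  rw [sum_congr rfl fun p hp => by
    rw [hs1 p.1 (mem_range.2 (by have := mem_antidiagonal.1 hp; omega)),
      hs2 p.2 (mem_range.2 (by have := mem_antidiagonal.1 hp; omega))]] at h4
  rw [h4]
  split_ifs with h
  · exact hs1 _ (mem_range.2 (by omega))
  · rfl

theorem e_zero : e 0 = 1 := by
  have h := PowerSeries.coeff_pentagonalSeries_pentagonal ℤ 0
  have h2 : pentagonal 0 = 0 := rfl
  rw [h2] at h
  rw [e, h]
  rfl

theorem e_pent (j : ℤ) : e (pentagonal j) = (Int.negOnePow j : ℤ) := by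
  rw [e, PowerSeries.coeff_pentagonalSeries_pentagonal]
  exact Int.cast_id

theorem e_else {k : ℕ} (h : ∀ j, pentagonal j ≠ k) : e k = 0 :=
  PowerSeries.coeff_pentagonalSeries_eq_zero ℤ (by rintro ⟨j, hj⟩; exact h j hj)

theorem e_abs (k : ℕ) : |e k| ≤ 1 := by
  by_cases h : ∃ j, pentagonal j = k
  · obtain ⟨j, rfl⟩ := h
    rw [e_pent]
    rcases Int.even_or_odd j with hj | hj
    · rw [Int.negOnePow_even j hj]; simp
    · rw [Int.negOnePow_odd j hj]; simp
  · push Not at h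
    rw [e_else h]; simp

theorem q_card_le (m : ℕ) : q m ≤ ((Icc 1 m).powerset.filter fun s => ∑ i ∈ s, i = m).card := by
  refine card_le_card_of_injOn (fun p => p.parts.toFinset) ?_ ?_
  · intro p hp
    have hnd : p.parts.Nodup := (Finset.mem_filter.1 hp).2
    have hsum : ∑ i ∈ p.parts.toFinset, i = m := by
      have h1 := p.parts_sum
      rw [Finset.sum_eq_multiset_sum, Multiset.toFinset_val, hnd.dedup, Multiset.map_id']
      exact h1
    refine Finset.mem_coe.2 (Finset.mem_filter.2 ⟨Finset.mem_powerset.2 fun i hi => ?_, hsum⟩)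
    have hi' := Multiset.mem_toFinset.1 hi
    refine Finset.mem_Icc.2 ⟨p.parts_pos hi', ?_⟩
    rw [← p.parts_sum]
    exact Multiset.le_sum_of_mem hi'
  · intro p hp p' hp' h
    have hnd : p.parts.Nodup := (Finset.mem_filter.1 hp).2
    have hnd' : p'.parts.Nodup := (Finset.mem_filter.1 hp').2
    apply Nat.Partition.ext
    have h1 : p.parts.toFinset.val = p'.parts.toFinset.val := congrArg Finset.val h
    rwa [Multiset.toFinset_val, Multiset.toFinset_val, hnd.dedup, hnd'.dedup] at h1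

theorem q_mul_le (m : ℕ) (x : ℝ) (hx : 0 ≤ x) : (q m : ℝ) * x ^ m ≤ Real.exp (∑ i ∈ Icc 1 m, x ^ i) := by
  have h1 : ((q m : ℕ) : ℝ) * x ^ m ≤ ∑ s ∈ (Icc 1 m).powerset.filter (fun s => ∑ i ∈ s, i = m), ∏ i ∈ s, x ^ i := by
    rw [Finset.sum_congr rfl (g := fun _ => x ^ m) fun s hs => by
      rw [Finset.prod_pow_eq_pow_sum, (Finset.mem_filter.1 hs).2]]
    rw [Finset.sum_const, nsmul_eq_mul]
    exact mul_le_mul_of_nonneg_right (by exact_mod_cast q_card_le m) (pow_nonneg hx m)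
  have h2 : ∑ s ∈ (Icc 1 m).powerset.filter (fun s => ∑ i ∈ s, i = m), ∏ i ∈ s, x ^ i ≤
      ∑ s ∈ (Icc 1 m).powerset, ∏ i ∈ s, x ^ i :=
    Finset.sum_le_sum_of_subset_of_nonneg (Finset.filter_subset _ _) fun s _ _ =>
      Finset.prod_nonneg fun i _ => pow_nonneg hx i
  have h3 : ∑ s ∈ (Icc 1 m).powerset, ∏ i ∈ s, x ^ i = ∏ i ∈ Icc 1 m, (1 + x ^ i) := by
    rw [Finset.prod_one_add]
  have h4 : ∏ i ∈ Icc 1 m, (1 + x ^ i) ≤ ∏ i ∈ Icc 1 m, Real.exp (x ^ i) :=
    Finset.prod_le_prod (fun i _ => by have := pow_nonneg hx i; linarith) fun i _ => by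
      rw [add_comm]; exact Real.add_one_le_exp _
  rw [← Real.exp_sum] at h4
  linarith

theorem geo_le (m : ℕ) : ∑ i ∈ Icc 1 m, (512 / 513 : ℝ) ^ i ≤ 512 := by
  have h : ∀ m : ℕ, ∑ i ∈ Icc 1 m, (512 / 513 : ℝ) ^ i = 512 - 512 * (512 / 513) ^ m := by
    intro m
    induction m with
    | zero => simp
    | succ m ih =>
      rw [Finset.sum_Icc_succ_top (by omega), ih]
      ring
  rw [h]
  have : (0:ℝ) ≤ (512 / 513) ^ m := by positivity
  linarith

theorem q_bound (m : ℕ) (hm : m ≤ 267497) : q m ≤ 2 ^ 1494 := by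
  have h1 := q_mul_le m (512 / 513) (by norm_num)
  have h2 : Real.exp (∑ i ∈ Icc 1 m, (512 / 513 : ℝ) ^ i) ≤ Real.exp 512 := Real.exp_le_exp.2 (geo_le m)
  have h3 : ((513 / 512 : ℝ)) ^ m ≤ Real.exp 523 := by
    have h4 : (513 / 512 : ℝ) ≤ Real.exp (1 / 512) := by
      have := Real.add_one_le_exp (1 / 512 : ℝ)
      linarith
    calc ((513 / 512 : ℝ)) ^ m ≤ (Real.exp (1 / 512)) ^ m := pow_le_pow_left₀ (by norm_num) h4 m
      _ = Real.exp (m * (1 / 512)) := by rw [Real.exp_nat_mul]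
      _ ≤ Real.exp 523 := by
        apply Real.exp_le_exp.2
        have : (m : ℝ) ≤ 267497 := by exact_mod_cast hm
        linarith
  have h5 : (q m : ℝ) ≤ Real.exp 1035 := by
    have h6 : (q m : ℝ) = (q m : ℝ) * (512 / 513) ^ m * (513 / 512) ^ m := by
      rw [mul_assoc, ← mul_pow]
      norm_num
    rw [h6]
    calc (q m : ℝ) * (512 / 513) ^ m * (513 / 512) ^ m ≤ Real.exp 512 * Real.exp 523 :=
        mul_le_mul (h1.trans h2) h3 (by positivity) (Real.exp_pos _).le
      _ = Real.exp 1035 := by rw [← Real.exp_add]; norm_num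
  have h7 : Real.exp 1035 ≤ (2.7182818286 : ℝ) ^ 1035 := by
    have : Real.exp 1035 = (Real.exp 1) ^ 1035 := by rw [← Real.exp_nat_mul]; norm_num
    rw [this]
    exact pow_le_pow_left₀ (Real.exp_pos _).le Real.exp_one_lt_d9.le _
  have h8 : (2.7182818286 : ℝ) ^ 1035 ≤ 2 ^ 1494 := by
    have h10 : (27182818286 : ℕ) ^ 1035 ≤ 2 ^ 1494 * 10000000000 ^ 1035 := by decide +kernel
    have h11 : (2.7182818286 : ℝ) = ((27182818286 : ℕ) : ℝ) / ((10000000000 : ℕ) : ℝ) := by norm_num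
    rw [h11, div_pow, div_le_iff₀ (pow_pos (by norm_num) _)]
    exact_mod_cast h10
  have h9 : (q m : ℝ) ≤ 2 ^ 1494 := h5.trans (h7.trans h8)
  exact_mod_cast h9

end Pool.Agent.Helper14.QP
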