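import Pool.Agent.Helper14.QP.QDig

/-! The check of many digits of one big number, by a tree. -/

namespace Pool.Agent.Helper14.QP

/-- Tree of entries: position and certificate. -/
inductive W where
  | nil : W
  | lf : List (ℕ × ℕ) → W
  | nd : ℕ → W → W → W

/-- `2 ^ q mod n` for `q < 2 ^ 1536`. -/
noncomputable def fer (q n : ℕ) : ℕ :=
  Nat.rec 1 (fun i r => Nat.mod (Nat.mul (Nat.mul r r) (Nat.add 1 (Nat.mod (Nat.shiftRight q (Nat.sub 1535 i)) 2))) n) 1536

/-- Check of one certificate. -/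
noncomputable def tst (q r : ℕ) : Bool :=
  cond (Nat.beq r 1) true (cond (Nat.beq r 0)
    (cond (Nat.ble 2 q) (cond (Nat.beq (fer q (Nat.add q 1)) 1) false true) false)
    (cond (Nat.beq (Nat.mod (Nat.add q 1) r) 0) (cond (Nat.ble r q) (Nat.ble 2 r) false) false))

noncomputable def lfc (B V : ℕ) (l : List (ℕ × ℕ)) : Bool :=
  List.rec true (fun p _ ih => cond (tst (Nat.mod (Nat.shiftRight V (Nat.mul B p.1)) (Nat.pow 2 B)) p.2) ih false) l

noncomputable def chk (B : ℕ) (w : W) : ℕ → Bool :=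
  W.rec (fun _ => true) (fun l V => lfc B V l)
    (fun sh _ _ cl ch V => cond (cl (Nat.mod V (Nat.shiftLeft 1 (Nat.mul B sh)))) (ch (Nat.shiftRight V (Nat.mul B sh))) false) w

/-- The entries. -/
noncomputable def ents (w : W) : List (ℕ × ℕ) :=
  W.rec [] (fun l => l) (fun sh _ _ el eh => el ++ eh.map fun p => (p.1 + sh, p.2)) w

/-- All positions are below the bound. -/
noncomputable def bnd (w : W) : ℕ → Bool :=
  W.rec (fun _ => true) (fun l b => l.all fun p => Nat.blt p.1 b)
    (fun sh _ _ bl bh b => cond (Nat.ble sh b) (cond (bl sh) (bh (Nat.sub b sh)) false) false) w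

/-- The mask of the positions. -/
noncomputable def wmask (w : W) : ℕ :=
  W.rec 0 (fun l => List.rec 0 (fun p _ r => Nat.lor r (Nat.shiftLeft 1 p.1)) l)
    (fun sh _ _ ml mh => Nat.lor ml (Nat.shiftLeft mh sh)) w

theorem ents_nd (sh : ℕ) (l r : W) : ents (.nd sh l r) = ents l ++ (ents r).map fun p => (p.1 + sh, p.2) := rfl

theorem bnd_nd {sh : ℕ} {l r : W} {b : ℕ} (h : bnd (.nd sh l r) b = true) :
    sh ≤ b ∧ bnd l sh = true ∧ bnd r (b - sh) = true := by
  have e : bnd (.nd sh l r) b = cond (Nat.ble sh b) (cond (bnd l sh) (bnd r (b - sh)) false) false := rfl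
  rw [e] at h
  cases h1 : Nat.ble sh b with
  | false => rw [h1] at h; exact (Bool.false_ne_true h).elim
  | true =>
    rw [h1] at h
    cases h2 : bnd l sh with
    | false => rw [h2] at h; exact (Bool.false_ne_true h).elim
    | true =>
      rw [h2] at h
      exact ⟨Nat.le_of_ble_eq_true h1, rfl, h⟩

theorem bnd_spec (w : W) : ∀ b, bnd w b = true → ∀ p ∈ ents w, p.1 < b := by
  induction w with
  | nil => intro b _ p hp; exact absurd hp List.not_mem_nil
  | lf l =>
    intro b h p hp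
    have h1 : (l.all fun p => Nat.blt p.1 b) = true := h
    exact Nat.le_of_ble_eq_true (List.all_eq_true.1 h1 p hp)
  | nd sh l r ihl ihr =>
    intro b h p hp
    obtain ⟨h1, h2, h3⟩ := bnd_nd h
    rw [ents_nd] at hp
    rcases List.mem_append.1 hp with h4 | h4
    · exact lt_of_lt_of_le (ihl sh h2 p h4) h1
    · obtain ⟨p', hp', rfl⟩ := List.mem_map.1 h4
      have := ihr _ h3 p' hp'
      show p'.1 + sh < b
      omega

/-- Digit number `i`. -/
def dig (B V i : ℕ) : ℕ := (V >>> (B * i)) % 2 ^ B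

theorem dig_mod (B V sh i : ℕ) (h : i < sh) : dig B (V % (1 <<< (B * sh))) i = dig B V i := by
  unfold dig
  rw [Nat.one_shiftLeft]
  apply Nat.eq_of_testBit_eq
  intro j
  rw [Nat.testBit_mod_two_pow, Nat.testBit_mod_two_pow, Nat.testBit_shiftRight, Nat.testBit_shiftRight,
    Nat.testBit_mod_two_pow]
  by_cases hj : j < B
  · have : B * i + j < B * sh := by
      calc B * i + j < B * i + B := by omega
        _ = B * (i + 1) := by ring
        _ ≤ B * sh := Nat.mul_le_mul_left _ h
    simp [this]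
  · simp [hj]

theorem dig_shift (B V sh i : ℕ) : dig B (V >>> (B * sh)) i = dig B V (i + sh) := by
  unfold dig
  rw [← Nat.shiftRight_add, mul_add, add_comm]

theorem lfc_spec (B V : ℕ) (l : List (ℕ × ℕ)) (h : lfc B V l = true) : ∀ p ∈ l, tst (dig B V p.1) p.2 = true := by
  induction l with
  | nil => intro p hp; exact absurd hp List.not_mem_nil
  | cons x l ih =>
    have e : lfc B V (x :: l) = cond (tst (dig B V x.1) x.2) (lfc B V l) false := rfl
    rw [e] at h
    intro p hp
    cases h1 : tst (dig B V x.1) x.2 with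
    | false => rw [h1] at h; exact (Bool.false_ne_true h).elim
    | true =>
      rw [h1] at h
      rcases List.mem_cons.1 hp with h2 | h2
      · rw [h2]; exact h1
      · exact ih h p h2

theorem chk_spec (B : ℕ) (w : W) : ∀ V b, bnd w b = true → chk B w V = true →
    ∀ p ∈ ents w, tst (dig B V p.1) p.2 = true := by
  induction w with
  | nil => intro V b _ _ p hp; exact absurd hp List.not_mem_nil
  | lf l => intro V b _ h p hp; exact lfc_spec B V l h p hp
  | nd sh l r ihl ihr =>
    intro V b hb h p hp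
    obtain ⟨h1, h2, h3⟩ := bnd_nd hb
    have e : chk B (.nd sh l r) V = cond (chk B l (V % (1 <<< (B * sh)))) (chk B r (V >>> (B * sh))) false := rfl
    rw [e] at h
    cases h4 : chk B l (V % (1 <<< (B * sh))) with
    | false => rw [h4] at h; exact (Bool.false_ne_true h).elim
    | true =>
      rw [h4] at h
      rw [ents_nd] at hp
      rcases List.mem_append.1 hp with h5 | h5
      · have h6 := ihl _ sh h2 h4 p h5
        rwa [dig_mod B V sh p.1 (bnd_spec l sh h2 p h5)] at h6
      · obtain ⟨p', hp', rfl⟩ := List.mem_map.1 h5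
        have h6 := ihr _ _ h3 h p' hp'
        rwa [dig_shift] at h6

theorem wmask_spec (w : W) : ∀ i, (wmask w).testBit i = true → ∃ r, (i, r) ∈ ents w := by
  induction w with
  | nil => intro i h; exact absurd h (by rw [show wmask W.nil = 0 from rfl, Nat.zero_testBit]; decide)
  | lf l =>
    intro i h
    have h1 : ∀ l : List (ℕ × ℕ), (List.rec 0 (fun p _ r => Nat.lor r (Nat.shiftLeft 1 p.1)) l : ℕ).testBit i = true →
        ∃ r, (i, r) ∈ l := by
      intro l
      induction l with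
      | nil => intro h; exact absurd h (by rw [show (List.rec 0 (fun p _ r => Nat.lor r (Nat.shiftLeft 1 p.1))
          ([] : List (ℕ × ℕ)) : ℕ) = 0 from rfl, Nat.zero_testBit]; decide)
      | cons x l ih =>
        intro h
        have h2 : (((List.rec 0 (fun p _ r => Nat.lor r (Nat.shiftLeft 1 p.1)) l : ℕ) ||| (1 <<< x.1)).testBit i) = true := h
        rw [Nat.testBit_or, Bool.or_eq_true, Nat.one_shiftLeft, Nat.testBit_two_pow] at h2
        rcases h2 with h2 | h2
        · obtain ⟨r, hr⟩ := ih h2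
          exact ⟨r, List.mem_cons_of_mem _ hr⟩
        · have h3 : x.1 = i := of_decide_eq_true h2
          exact ⟨x.2, by rw [← h3]; exact List.mem_cons_self⟩
    exact h1 l h
  | nd sh l r ihl ihr =>
    intro i h
    have h2 : (wmask l ||| (wmask r <<< sh)).testBit i = true := h
    rw [Nat.testBit_or, Bool.or_eq_true, Nat.testBit_shiftLeft, Bool.and_eq_true, decide_eq_true_eq] at h2
    rcases h2 with h2 | ⟨h2, h3⟩
    · obtain ⟨c, hc⟩ := ihl i h2
      exact ⟨c, by rw [ents_nd]; exact List.mem_append_left _ hc⟩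
    · obtain ⟨c, hc⟩ := ihr _ h3
      refine ⟨c, ?_⟩
      rw [ents_nd]
      refine List.mem_append_right _ (List.mem_map.2 ⟨_, hc, ?_⟩)
      show (i - sh + sh, c) = (i, c)
      rw [Nat.sub_add_cancel h2]

theorem fer_aux (q n : ℕ) (hn : 2 ≤ n) (k : ℕ) (hk : k ≤ 1536) (hq : q < 2 ^ 1536) :
    (Nat.rec 1 (fun i r => Nat.mod (Nat.mul (Nat.mul r r) (Nat.add 1 (Nat.mod (Nat.shiftRight q (Nat.sub 1535 i)) 2))) n) k : ℕ) =
      2 ^ (q / 2 ^ (1536 - k)) % n := by
  induction k with
  | zero =>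
    show 1 = _
    rw [Nat.sub_zero, Nat.div_eq_of_lt hq, pow_zero, Nat.mod_eq_of_lt (by omega)]
  | succ k ih =>
    have e : (Nat.rec 1 (fun i r => Nat.mod (Nat.mul (Nat.mul r r) (Nat.add 1 (Nat.mod (Nat.shiftRight q (Nat.sub 1535 i)) 2))) n)
        (k + 1) : ℕ) = ((Nat.rec 1 (fun i r => Nat.mod (Nat.mul (Nat.mul r r) (Nat.add 1 (Nat.mod (Nat.shiftRight q (Nat.sub 1535 i)) 2))) n) k : ℕ) *
        (Nat.rec 1 (fun i r => Nat.mod (Nat.mul (Nat.mul r r) (Nat.add 1 (Nat.mod (Nat.shiftRight q (Nat.sub 1535 i)) 2))) n) k : ℕ) *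
        (1 + (q >>> (1535 - k)) % 2)) % n := rfl
    rw [e, ih (by omega), Nat.shiftRight_eq_div_pow]
    have h1 : 1536 - (k + 1) = 1535 - k := by omega
    have h2 : 1536 - k = (1535 - k) + 1 := by omega
    rw [h1, h2, pow_succ, ← Nat.div_div_eq_div_mul]
    set u := q / 2 ^ (1535 - k) with hu
    have h3 : 2 ^ u = 2 ^ (u / 2) * 2 ^ (u / 2) * (1 + u % 2) := by
      rcases Nat.mod_two_eq_zero_or_one u with h | h
      · rw [h, ← pow_add, add_zero, mul_one]
        congr 1; omega
      · rw [h, ← pow_add, show 1 + 1 = 2 from rfl, ← pow_succ]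
        congr 1; omega
    rw [h3]
    simp only [Nat.mul_mod, Nat.mod_mod]

theorem fer_eq (q n : ℕ) (hn : 2 ≤ n) (hq : q < 2 ^ 1536) : fer q n = 2 ^ q % n := by
  have h := fer_aux q n hn 1536 le_rfl hq
  rw [Nat.sub_self, pow_zero, Nat.div_one] at h
  exact h

theorem tst_spec (q r : ℕ) (hq : q < 2 ^ 1536) (h : tst q r = true) : r = 1 ∨ ¬ (q + 1).Prime := by
  unfold tst at h
  cases h1 : Nat.beq r 1 with
  | true => exact Or.inl (Nat.eq_of_beq_eq_true h1)
  | false =>
    rw [h1] at h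
    right
    intro hp
    cases h2 : Nat.beq r 0 with
    | true =>
      rw [h2] at h
      simp only [cond_true, cond_false] at h
      cases h3 : Nat.ble 2 q with
      | false => rw [h3] at h; exact (Bool.false_ne_true h).elim
      | true =>
        rw [h3] at h
        have hq2 := Nat.le_of_ble_eq_true h3
        have h4 : fer q (q + 1) = 1 := by
          rw [fer_eq q (q + 1) (by omega) hq]
          have hcop : Nat.Coprime 2 (q + 1) := by
            rw [Nat.coprime_primes Nat.prime_two hp]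
            omega
          have h5 := Nat.ModEq.pow_totient hcop
          rw [Nat.totient_prime hp, Nat.add_sub_cancel] at h5
          rw [h5, Nat.mod_eq_of_lt (by omega)]
        have h6 : Nat.beq (fer q (Nat.add q 1)) 1 = true := by
          rw [show Nat.add q 1 = q + 1 from rfl, h4]; rfl
        rw [h6] at h
        exact (Bool.false_ne_true h).elim
    | false =>
      rw [h2] at h
      simp only [cond_false] at h
      cases h3 : Nat.beq (Nat.mod (Nat.add q 1) r) 0 with
      | false => rw [h3] at h; exact (Bool.false_ne_true h).elim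
      | true =>
        rw [h3] at h
        have h4 : (q + 1) % r = 0 := Nat.eq_of_beq_eq_true h3
        cases h5 : Nat.ble r q with
        | false => rw [h5] at h; exact (Bool.false_ne_true h).elim
        | true =>
          rw [h5] at h
          have h6 : 2 ≤ r := Nat.le_of_ble_eq_true h
          have h7 : r ≤ q := Nat.le_of_ble_eq_true h5
          rcases (Nat.dvd_prime hp).1 (Nat.dvd_of_mod_eq_zero h4) with h8 | h8 <;> omega

/-- Mask of the positions `i` with `N - 1 - i` or `N + 1 - i` a proper multiple of some `p`. -/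
noncomputable def cmask (N : ℕ) (l : List (ℕ × ℕ)) : ℕ :=
  List.rec 0 (fun p _ r => Nat.lor r (Nat.lor
    (Nat.shiftLeft (comb p.1 (Nat.sub (Nat.div (Nat.sub N 1) p.1) 1)) (Nat.mod (Nat.sub N 1) p.1))
    (Nat.shiftLeft (comb p.1 (Nat.sub (Nat.div (Nat.add N 1) p.1) 1)) (Nat.mod (Nat.add N 1) p.1)))) l

theorem comb_shift_spec (M p i : ℕ) (hp : 2 ≤ p) (h : (comb p (M / p - 1) <<< (M % p)).testBit i = true) :
    ∃ c, 2 ≤ c ∧ i + p * c = M := by
  rw [Nat.testBit_shiftLeft, Bool.and_eq_true, decide_eq_true_eq, comb_def,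
    Pool.Agent.Helper14.Tri.comb_testBit hp] at h
  obtain ⟨h1, ⟨t, ht⟩, h3⟩ := h
  rw [ht] at h3
  have h4 : t < M / p - 1 := Nat.lt_of_mul_lt_mul_left h3
  have h5 := Nat.div_add_mod M p
  refine ⟨M / p - t, by omega, ?_⟩
  rw [Nat.mul_sub]
  have h6 : p * t ≤ p * (M / p) := Nat.mul_le_mul_left _ (by omega)
  omega

theorem cmask_spec (N : ℕ) (l : List (ℕ × ℕ)) (hl : ∀ p ∈ l, 2 ≤ p.1) (i : ℕ) (h : (cmask N l).testBit i = true) :
    ∃ p c, 2 ≤ p ∧ 2 ≤ c ∧ (i + p * c = N - 1 ∨ i + p * c = N + 1) := by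
  induction l with
  | nil => exact absurd h (by rw [show cmask N [] = 0 from rfl, Nat.zero_testBit]; decide)
  | cons x l ih =>
    have e : cmask N (x :: l) = cmask N l ||| ((comb x.1 ((N - 1) / x.1 - 1) <<< ((N - 1) % x.1)) |||
      (comb x.1 ((N + 1) / x.1 - 1) <<< ((N + 1) % x.1))) := rfl
    rw [e, Nat.testBit_or, Nat.testBit_or, Bool.or_eq_true, Bool.or_eq_true] at h
    have hx := hl x List.mem_cons_self
    rcases h with h | h | h
    · exact ih (fun p hp => hl p (List.mem_cons_of_mem _ hp)) h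
    · obtain ⟨c, h1, h2⟩ := comb_shift_spec _ _ _ hx h
      exact ⟨x.1, c, hx, h1, Or.inl h2⟩
    · obtain ⟨c, h1, h2⟩ := comb_shift_spec _ _ _ hx h
      exact ⟨x.1, c, hx, h1, Or.inr h2⟩

/-- The coverage check. -/
noncomputable def cov (N : ℕ) (l : List (ℕ × ℕ)) (w : W) : Bool :=
  (fun F => Nat.beq (Nat.land (Nat.lor (cmask N l) (wmask w)) F) F) (Nat.sub (Nat.shiftLeft 1 (Nat.sub N 2)) 1)

theorem cov_spec (N : ℕ) (l : List (ℕ × ℕ)) (hl : ∀ p ∈ l, 2 ≤ p.1) (w : W) (h : cov N l w = true) (m : ℕ)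
    (hm3 : 3 ≤ m) (hmN : m ≤ N) (hp1 : (m - 1).Prime) (hp2 : (m + 1).Prime) : ∃ r, (N - m, r) ∈ ents w := by
  have e : cov N l w = Nat.beq ((cmask N l ||| wmask w) &&& ((1 <<< (N - 2)) - 1)) ((1 <<< (N - 2)) - 1) := rfl
  rw [e] at h
  have h1 := Nat.eq_of_beq_eq_true h
  rw [Nat.one_shiftLeft] at h1
  have h2 : ((cmask N l ||| wmask w) &&& (2 ^ (N - 2) - 1)).testBit (N - m) = true := by
    rw [h1, Nat.testBit_two_pow_sub_one]
    exact decide_eq_true (by omega)
  rw [Nat.testBit_and, Bool.and_eq_true, Nat.testBit_or, Bool.or_eq_true] at h2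
  rcases h2.1 with h3 | h3
  · exfalso
    obtain ⟨p, c, hp, hc, h4⟩ := cmask_spec N l hl _ h3
    have hpc : 2 * 2 ≤ p * c := Nat.mul_le_mul hp hc
    rcases h4 with h4 | h4
    · have h5 : m - 1 = p * c := by omega
      rw [h5] at hp1
      exact Nat.not_prime_mul (by omega) (by omega) hp1
    · have h5 : m + 1 = p * c := by omega
      rw [h5] at hp2
      exact Nat.not_prime_mul (by omega) (by omega) hp2
  · exact wmask_spec w _ h3

theorem pk_dig {w : ℕ} {f : ℕ → ℕ} (n : ℕ) (h : ∀ k < n, f k < 2 ^ w) (k : ℕ) (hk : k < n) :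
    dig w (pk w f n) k = f k := by
  apply Nat.eq_of_testBit_eq
  intro j
  rw [dig, Nat.testBit_mod_two_pow, Nat.testBit_shiftRight]
  by_cases hj : j < w
  · rw [pk_testBit n h k j hj]
    simp [hj, hk]
  · rw [Nat.testBit_lt_two_pow (lt_of_lt_of_le (h k hk) (Nat.pow_le_pow_right (by norm_num) (by omega)))]
    simp [hj]

theorem pk_eq_sum (w : ℕ) (f : ℕ → ℕ) (n : ℕ) : pk w f n = ∑ i ∈ Finset.range n, f i * 2 ^ (w * i) := by
  induction n with
  | zero => rfl
  | succ n ih => rw [pk_succ, ih, Finset.sum_range_succ]; ring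

theorem sum_eq_pk (w : ℕ) (b : ℕ → ℕ) (N : ℕ) :
    ∑ m ∈ Finset.range (N + 1), b m * (2 ^ w) ^ (N - m) = pk w (fun i => b (N - i)) (N + 1) := by
  rw [pk_eq_sum, ← Finset.sum_range_reflect]
  refine Finset.sum_congr rfl fun i hi => ?_
  have h1 := Finset.mem_range.1 hi
  have h2 : N + 1 - 1 - i = N - i := by omega
  rw [h2, ← pow_mul, Nat.sub_sub_self (by omega)]

end Pool.Agent.Helper14.QP
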