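import Pool.Agent.Helper14.QP.QTree

/-! The quotient whose digits are the numbers `q m`. -/

namespace Pool.Agent.Helper14.QP

open Finset

/-- Difference of two shifted trees. -/
noncomputable def dT (B : ℕ) (t1 : T) (o1 : ℕ) (t2 : T) (o2 : ℕ) : ℕ :=
  Nat.sub (Nat.shiftLeft (T.val B t1) (Nat.mul B o1)) (Nat.shiftLeft (T.val B t2) (Nat.mul B o2))

/-- Rounded quotient. -/
noncomputable def quo (B N E F : ℕ) : ℕ :=
  Nat.div (Nat.add (Nat.shiftLeft F (Nat.mul B N)) (Nat.shiftLeft 1 (Nat.sub (Nat.mul B N) 1))) E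

/-- Coefficients of the Euler function at `x ^ 2`. -/
noncomputable def e2 (n : ℕ) : ℤ := if 2 ∣ n then e (n / 2) else 0

theorem e2_zero : e2 0 = 1 := by
  rw [e2, if_pos (dvd_zero 2), Nat.zero_div, e_zero]

theorem e2_abs (n : ℕ) : |e2 n| ≤ 1 := by
  rw [e2]
  split_ifs
  · exact e_abs _
  · simp

theorem pent_small (c m N : ℕ) (h : c * (m * (6 * m + 1)) ≤ N) (j : ℤ) (hj : j ∈ Icc (-(2 * m : ℤ)) (2 * m)) :
    c * pentagonal j ≤ N := by
  refine le_trans (Nat.mul_le_mul_left c ?_) h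
  obtain ⟨h1, h2⟩ := mem_Icc.1 hj
  have h3 := two_mul_natCast_pentagonal j
  zify
  nlinarith [mul_nonneg (by linarith : (0 : ℤ) ≤ j + 2 * m) (by linarith : (0 : ℤ) ≤ 2 * m - j)]

theorem pent_big (c m N : ℕ) (h : N < c * ((2 * m + 1) * (3 * m + 1))) (j : ℤ) (hj : j ∉ Icc (-(2 * m : ℤ)) (2 * m)) :
    N < c * pentagonal j := by
  refine lt_of_lt_of_le h (Nat.mul_le_mul_left c ?_)
  have h3 := two_mul_natCast_pentagonal j
  rw [mem_Icc, not_and_or] at hj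
  zify
  rcases hj with hj | hj
  · have h4 : j ≤ -(2 * m : ℤ) - 1 := by omega
    nlinarith [mul_nonneg (by linarith : (0 : ℤ) ≤ -j - (2 * m + 1)) (by linarith : (0 : ℤ) ≤ -j + (2 * m + 1))]
  · have h4 : 2 * (m : ℤ) + 1 ≤ j := by omega
    nlinarith [mul_nonneg (by linarith : (0 : ℤ) ≤ j - (2 * m + 1)) (by linarith : (0 : ℤ) ≤ j + (2 * m + 1))]

/-- What the two trees of one series have to satisfy. -/
structure TreeOK (N m c : ℕ) (t1 : T) (o1 : ℕ) (t2 : T) (o2 : ℕ) : Prop where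
  cpos : 0 < c
  le : c * (m * (6 * m + 1)) ≤ N
  lt : N < c * ((2 * m + 1) * (3 * m + 1))
  of1 : (T.offs t1).map (fun o => o + o1) = (jE m).map fun j => N - c * pentagonal j
  of2 : (T.offs t2).map (fun o => o + o2) = (jO m).map fun j => N - c * pentagonal j

theorem dT_eq {N m c B : ℕ} {t1 t2 : T} {o1 o2 : ℕ} (hT : TreeOK N m c t1 o1 t2 o2) (ec : ℕ → ℤ)
    (h1 : ∀ j, ec (c * pentagonal j) = (Int.negOnePow j : ℤ)) (h2 : ∀ k, (∀ j, c * pentagonal j ≠ k) → ec k = 0)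
    (h0 : ec 0 = 1) (ha : ∀ k, |ec k| ≤ 1) (hN : 1 ≤ N) (hY : 8 * (N + 1) ^ 2 ≤ 2 ^ B) :
    ((dT B t1 o1 t2 o2 : ℕ) : ℤ) = ∑ k ∈ range (N + 1), ec k * ((2 ^ B : ℕ) : ℤ) ^ (N - k) := by
  have e : dT B t1 o1 t2 o2 = (T.val B t1) <<< (B * o1) - (T.val B t2) <<< (B * o2) := rfl
  rw [e, T.val_shift B t1 o1 _ hT.of1, T.val_shift B t2 o2 _ hT.of2]
  have hs := sum_pent N m c B ec hT.cpos h1 h2 (pent_small c m N hT.le) (pent_big c m N hT.lt)
  have hl := lead_pos N hN (2 ^ B) hY ec h0 ha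
  rw [hs]
  rw [hs] at hl
  have hpos : (0 : ℤ) < ((2 ^ B : ℕ) : ℤ) ^ N := by positivity
  rw [Nat.cast_sub]
  zify
  push_cast at hl hpos ⊢
  linarith

theorem quo_eq {N B M m1 m2 : ℕ} {t1 t2 t3 t4 : T} {o1 o2 o3 o4 : ℕ} (hT : TreeOK N m1 1 t1 o1 t2 o2)
    (hT' : TreeOK N m2 2 t3 o3 t4 o4) (hN : 1 ≤ N) (hB : 1 ≤ B) (hM : 1 ≤ M) (hY : 8 * (N + 1) ^ 2 * M ≤ 2 ^ B)
    (hq : ∀ m ≤ N, q m ≤ M) : quo B N (dT B t1 o1 t2 o2) (dT B t3 o3 t4 o4) = pk B (fun i => q (N - i)) (N + 1) := by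
  have hY8 : 8 * (N + 1) ^ 2 ≤ 2 ^ B := le_trans (Nat.le_mul_of_pos_right _ hM) hY
  have hE := dT_eq hT e (fun j => by rw [one_mul, e_pent]) (fun k hk => e_else fun j => by have := hk j; rwa [one_mul] at this)
    e_zero e_abs hN hY8
  have hF := dT_eq hT' e2 (fun j => by
      rw [e2, if_pos (Dvd.intro _ rfl), Nat.mul_div_cancel_left _ (by norm_num), e_pent])
    (fun k hk => by
      rw [e2]
      split_ifs with h
      · obtain ⟨t, rfl⟩ := h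
        rw [Nat.mul_div_cancel_left _ (by norm_num)]
        exact e_else fun j hj => hk j (by rw [hj])
      · rfl) e2_zero e2_abs hN hY8
  have hBN : 1 ≤ B * N := Nat.mul_pos hB hN
  have e0 : quo B N (dT B t1 o1 t2 o2) (dT B t3 o3 t4 o4) =
      ((dT B t3 o3 t4 o4) <<< (B * N) + 1 <<< (B * N - 1)) / (dT B t1 o1 t2 o2) := rfl
  rw [e0, Nat.shiftLeft_eq, Nat.one_shiftLeft, pow_mul,
    quot N (2 ^ B) M hN hM hY e e_zero e_abs q hq e2 (fun n => by rw [e_conv_q, e2]) _ _ _ hE hF (by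
      rw [← pow_succ', ← pow_mul]; congr 1; omega)]
  exact sum_eq_pk B q N

end Pool.Agent.Helper14.QP
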